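import Pool.Agent.Lib.MP_4f9744_nt.Data4

/-!
# MP_4f9744_nt : the relation in base 4.
-/

namespace Pool.Agent.Lib.MP_4f9744_nt

theorem core4 {c : Cert4} (hc : chk4 c = true) {k n ys D' n' : ℕ} (hn : c.W + c.cc + 2 ≤ n)
    (hst : StS 4 k n c.L c.D)
    (hys : (c.a = 2 ∧ ys + 2 = c.P * 4 ^ (n - c.W)) ∨
      (c.a ≠ 2 ∧ ys + 1 = c.P * 4 ^ (n - c.W)))
    (hD' : D' ∈ DS) (hn' : ys / c.a + D' = n' * 9 + c.a ^ 2) (hn1 : 1 ≤ n')
    (hsz : c.a * 4 * (D' + 18) < 4 ^ (n - c.W - c.cc - 1)) :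
    c.a ∣ ys ∧ StS 4 (k + 1) n' c.a D' := by
  unfold chk4 at hc
  simp only [Bool.and_eq_true, Nat.blt_eq, Nat.ble_eq] at hc
  obtain ⟨⟨⟨⟨⟨⟨⟨⟨⟨⟨⟨⟨hL0, hL4⟩, ha0⟩, ha4⟩, hD40⟩, hW14⟩, hdig⟩, hmain⟩, hthree⟩, hcomps⟩,
    hplus⟩, heps⟩, hperm⟩ := hc
  have hb : (2 : ℕ) ≤ 4 := by norm_num
  obtain ⟨hbv, hwl⟩ := wl_bv hb c.es hdig
  have hlenW : c.es.length = c.W := rfl
  rw [hlenW] at hbv hwl
  set W := c.W with hWdef
  set m := n - W with hm
  have hm1 : 1 ≤ m := by omega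
  have hP : c.P ≤ (c.L + 1) * 4 ^ W := Nat.sub_le _ _
  have hPe : c.P + bv 4 c.es = (c.L + 1) * 4 ^ W := by
    unfold Cert4.P
    rw [← hWdef]
    have : bv 4 c.es ≤ (c.L + 1) * 4 ^ W := by
      rw [Nat.add_mul, Nat.one_mul]
      omega
    omega
  have hbm : 0 < 4 ^ m := Nat.pow_pos (by norm_num)
  have hbn : 4 ^ n = 4 ^ W * 4 ^ m := by
    rw [← pow_add]; congr 1; omega
  have hPn : c.P * 4 ^ m + bv 4 c.es * 4 ^ m = (c.L + 1) * 4 ^ n := by
    rw [← Nat.add_mul, hPe, hbn]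
    ring
  have hbvm : (bv 4 c.es + 1) * 4 ^ m ≤ 4 ^ n := by
    rw [hbn]
    exact Nat.mul_le_mul_right _ hbv
  rw [Nat.add_mul, Nat.one_mul] at hbvm
  have hbase : ∀ l, l < 4 ^ m → wl 4 n (bv 4 c.es * 4 ^ m + l) = wl 4 m l + wc 4 c.es := by
    intro l hl
    have e1 : n = m + W := by omega
    rw [e1, wl_split' hb m W (bv 4 c.es) l hl, ← hwl]
  have hm4 : 4 ≤ 4 ^ m := by
    calc 4 = 4 ^ 1 := (pow_one 4).symm
      _ ≤ 4 ^ m := Nat.pow_le_pow_right (by norm_num) hm1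
  have hdvd4 : 4 ∣ 4 ^ m := dvd_pow_self 4 (by omega)
  -- height and divisibility of ys
  have hboth : HasHeight 4 k ys ∧ c.a ∣ ys ∧ ys + 1 ≤ c.P * 4 ^ m := by
    rcases hys with ⟨ha, hys⟩ | ⟨ha, hys⟩
    · rw [if_pos ha] at hmain
      simp only [Bool.and_eq_true, beq_iff_eq] at hmain
      obtain ⟨⟨hchk, hwc⟩, h9⟩ := hmain
      refine ⟨?_, ?_, by omega⟩
      · have h1 : wl 4 m 1 = 5 := by
          obtain ⟨m', hm'⟩ : ∃ m', m = m' + 1 := ⟨m - 1, by omega⟩
          rw [hm']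
          show wd 4 (1 % 4) + wl 4 m' (1 / 4) = 5
          have : (1 / 4 : ℕ) = 0 := by norm_num
          rw [this, wl_arg_zero]
          rfl
        have h2 := hst.mem (bv 4 c.es * 4 ^ m + 1) (by omega)
          (by rw [hbase 1 (by omega), h1]; omega)
        have h3 : (c.L + 1) * 4 ^ n - 1 - (bv 4 c.es * 4 ^ m + 1) = ys := by omega
        rwa [h3] at h2
      · rw [ha]
        obtain ⟨z, hz⟩ := hdvd4
        rw [hz] at hys
        have : c.P * (4 * z) = 2 * (2 * (c.P * z)) := by ring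
        omega
    · rw [if_neg ha] at hmain
      simp only [Bool.and_eq_true, beq_iff_eq] at hmain
      obtain ⟨hchk, hwc⟩ := hmain
      refine ⟨?_, ?_, by omega⟩
      · have h2 := hst.mem (bv 4 c.es * 4 ^ m + 0) (by omega)
          (by rw [hbase 0 hbm, wl_arg_zero]; omega)
        have h3 : (c.L + 1) * 4 ^ n - 1 - (bv 4 c.es * 4 ^ m + 0) = ys := by omega
        rwa [h3] at h2
      · by_cases h3 : c.a = 3
        · rw [if_pos h3, beq_iff_eq] at hthree
          rw [h3]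
          have h4 : 4 ^ m % 3 = 1 := by
            rw [Nat.pow_mod]
            norm_num
          have h5 : c.P * 4 ^ m % 3 = 1 := by
            rw [Nat.mul_mod, hthree, h4]
          omega
        · have h4 : c.a = 1 := by omega
          rw [h4]
          exact one_dvd _
  obtain ⟨hyk, hdvd, hysP⟩ := hboth
  have hsz1 : c.a * 4 * (D' + 18) < 4 ^ (m - c.cc) := by
    refine lt_of_lt_of_le hsz (Nat.pow_le_pow_right (by norm_num) (by omega))
  have hszm : c.a * 4 * (D' + 18) < 4 ^ m :=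
    lt_of_lt_of_le hsz1 (Nat.pow_le_pow_right (by norm_num) (by omega))
  have hGa : ∀ g, g ∈ B4.G → 0 < g ∧ ∀ n l, l < 4 ^ n → wl 4 n l ≤ 40 →
      Tb g (tab4 g) (wl 4 n l) (l % g) = true := by
    intro g hg
    obtain ⟨h1, h2⟩ := tabs4 g hg
    exact ⟨h1, tab_sound hb h1 h2⟩
  have huniq : Uniq 4 n c.L c.D c.a ys (D' + 18) := by
    rcases hys with ⟨ha, hys⟩ | ⟨ha, hys⟩
    · rw [if_pos ha] at hmain
      simp only [Bool.and_eq_true, beq_iff_eq, Bool.or_eq_true, Nat.blt_eq,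
        Bool.not_eq_true'] at hmain
      obtain ⟨⟨hchk, hwc⟩, h9⟩ := hmain
      have hcc : c.cc = (c.D - 5) / 9 + 1 := by
        unfold Cert4.cc
        rw [if_pos ha]
      rw [ha] at hsz ⊢
      refine uniq_two (c := c.cc) (hGa 1 (by decide)).2 (by omega) (by omega) hchk hwc
        (fun h => ?_) (by rw [hlenW, ← hm]; omega) (by omega) (by rw [hcc]; omega) ?_
      · rcases h9 with h9 | h9
        · omega
        · exact h9
      · have e1 : n - 1 - c.es.length - c.cc = m - c.cc - 1 := by omega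
        rw [e1]
        omega
    · rw [if_neg ha] at hmain
      simp only [Bool.and_eq_true, beq_iff_eq] at hmain
      obtain ⟨hchk, hwc⟩ := hmain
      have hcc : c.cc = c.D / 9 + 1 := by
        unfold Cert4.cc
        rw [if_neg ha]
      have hmem : c.a ∈ B4.G := by
        show c.a ∈ [1, 2, 3]
        simp only [List.mem_cons, List.not_mem_nil, or_false]
        omega
      have hper : perOK 4 c.a 1 = true := by
        have : c.a = 1 ∨ c.a = 3 := by omega
        rcases this with h | h <;> rw [h] <;> decide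
      have hpsub := per_sub hper (by omega : W + 1 ≤ n) (le_refl (W + 1))
        (by rw [Nat.mod_one, Nat.mod_one])
      refine uniq_of_chk hb ha0 (hGa c.a hmem).2 (by omega) (by omega)
        (fun j _ h2 => hpsub j h2) (rho_eq (hpsub 0 (by omega))) hchk hwc
        (by rw [hlenW, ← hm]; omega) (c := c.cc) (by omega) (by rw [hcc]; omega) ?_
      have e1 : n - c.es.length - c.cc = m - c.cc := by omega
      rw [e1]
      have : c.a * (D' + 18) ≤ c.a * 4 * (D' + 18) := by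
        apply Nat.mul_le_mul_right
        omega
      omega
  have hmin := minhypS (fun a' => a' ∈ [1, 2, 3]) hb ha0 hst (by omega : W ≤ n) hL4 hysP hdvd hP
    huniq
    (by
      intro a' hA h0 h1 hne
      rw [List.all_eq_true] at hcomps
      have h2 := hcomps a' hA
      rw [Bool.or_eq_true, beq_iff_eq] at h2
      rcases h2 with h2 | h2
      · exact absurd h2 hne
      rw [List.any_eq_true] at h2
      obtain ⟨C, _, hC⟩ := h2
      rw [Bool.and_eq_true, beq_iff_eq] at hC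
      obtain ⟨hCa, hC⟩ := hC
      subst hCa
      exact wChk_sound (B := B4) hb tabs4 hC (by show c.D ≤ 40; omega) (by omega) le_rfl
        (by rw [Nat.mod_one, Nat.mod_one]) h1 hszm)
    (by
      intro a' hA h0 h1
      rw [List.all_eq_true] at hplus
      have h2 := hplus a' hA
      rw [List.any_eq_true] at h2
      obtain ⟨C, _, hC⟩ := h2
      rw [Bool.and_eq_true, beq_iff_eq] at hC
      obtain ⟨hCa, hC⟩ := hC
      subst hCa
      have h3 := wChk_sound (B := B4) (n := n + 1) (C' := D' + 18) hb tabs4 hC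
        (by show c.D + 9 ≤ 40; omega) (by omega) le_rfl
        (by rw [Nat.mod_one, Nat.mod_one]) h1
        (by
          have e1 : n + 1 - (W + 1) = m := by omega
          rw [e1]
          exact hszm)
      have e1 : n + 1 - (W + 1) = n - W := by omega
      rw [e1] at h3
      exact h3)
    hszm
  refine ⟨hdvd, ?_⟩
  refine step (fun a' => a' ∈ [1, 2, 3]) hb ha0 ha4 (valid4.hA k) hyk hdvd ?_
    (by norm_num; omega) hn1 ?_
  · intro y a' h1 h2 h3 h4 h5 h6
    refine hmin y a' h1 h2 h3 h4 h5 ?_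
    norm_num at h6
    have : ys / c.a + (D' + 18) = ys / c.a + D' + 18 := by ring
    rw [this]
    exact h6
  · intro j hj hju mm l hl hw
    norm_num at hju hw
    obtain ⟨h1, _, h3⟩ := ds_min D' hD'
    have h4 := h3 j (by omega) hj hju
    have h5 := (hGa 1 (by decide)).2 mm l hl (by omega)
    rw [hw, Nat.mod_one, h4] at h5
    simp at h5

/-- one step from a large state of base 4 -/
theorem next4 {c : Cert4} (hmemc : c ∈ certs4) {k n : ℕ} (hn : 14 ≤ n)
    (hst : StS 4 k n c.L c.D) :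
    (∃ n' a D', 14 ≤ n' ∧ a ∈ [1, 2, 3] ∧ D' ∈ DS ∧ StS 4 (k + 1) n' a D') ∧ DigitRel 4 k := by
  have hc := all4 c hmemc
  have hc' := hc
  unfold chk4 at hc'
  simp only [Bool.and_eq_true, Nat.blt_eq, Nat.ble_eq] at hc'
  obtain ⟨⟨⟨⟨⟨⟨⟨⟨⟨⟨⟨⟨hL0, hL4⟩, ha0⟩, ha4⟩, hD40⟩, hW14⟩, hdig⟩, hmain⟩, hthree⟩, hcomps⟩,
    hplus⟩, heps⟩, hperm⟩ := hc'
  have hb : (2 : ℕ) ≤ 4 := by norm_num
  obtain ⟨hbv, hwl⟩ := wl_bv hb c.es hdig
  have hlenW : c.es.length = c.W := rfl
  rw [hlenW] at hbv hwl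
  have hPe : c.L * 4 ^ c.W + 1 ≤ c.P := by
    unfold Cert4.P
    rw [Nat.add_mul, Nat.one_mul]
    omega
  have hPpos : 2 ≤ c.P := by
    have : 1 * 1 ≤ c.L * 4 ^ c.W := Nat.mul_le_mul hL0 (Nat.one_le_pow _ _ (by norm_num))
    omega
  -- ys
  have hbn : 4 ^ n = 4 ^ c.W * 4 ^ (n - c.W) := by
    rw [← pow_add]; congr 1; omega
  have hPbig : 4 ^ n ≤ c.P * 4 ^ (n - c.W) := by
    rw [hbn]
    apply Nat.mul_le_mul_right
    calc 4 ^ c.W = 1 * 4 ^ c.W := (Nat.one_mul _).symm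
      _ ≤ c.L * 4 ^ c.W := Nat.mul_le_mul_right _ hL0
      _ ≤ c.P := by omega
  have h14 : 4 ^ 14 ≤ 4 ^ n := Nat.pow_le_pow_right (by norm_num) hn
  norm_num at h14
  obtain ⟨ys, hys⟩ : ∃ ys, (c.a = 2 ∧ ys + 2 = c.P * 4 ^ (n - c.W)) ∨
      (c.a ≠ 2 ∧ ys + 1 = c.P * 4 ^ (n - c.W)) := by
    by_cases ha : c.a = 2
    · exact ⟨c.P * 4 ^ (n - c.W) - 2, Or.inl ⟨ha, by omega⟩⟩
    · exact ⟨c.P * 4 ^ (n - c.W) - 1, Or.inr ⟨ha, by omega⟩⟩
  have hysbig : 268435454 ≤ ys := by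
    rcases hys with ⟨_, h⟩ | ⟨_, h⟩ <;> omega
  have hamem : c.a ∈ [1, 2, 3] := by
    simp only [List.mem_cons, List.not_mem_nil, or_false]
    omega
  obtain ⟨D', hD', hres⟩ := ds_res c.a hamem (ys / c.a % 9) (Nat.mod_lt _ (by norm_num))
  obtain ⟨hD21, heps', _⟩ := ds_min D' hD'
  have hzbig : 89478484 ≤ ys / c.a := by
    rw [Nat.le_div_iff_mul_le ha0]
    have : 89478484 * c.a ≤ 89478484 * 3 := Nat.mul_le_mul_left _ (by omega)
    omega
  have ha9 : c.a ^ 2 ≤ 9 := by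
    have : c.a = 1 ∨ c.a = 2 ∨ c.a = 3 := by omega
    rcases this with h | h | h <;> rw [h] <;> norm_num
  obtain ⟨n', hn'⟩ : ∃ n', ys / c.a + D' = n' * 9 + c.a ^ 2 := by
    refine ⟨(ys / c.a + D' - c.a ^ 2) / 9, ?_⟩
    omega
  have hn14 : 14 ≤ n' := by omega
  have hsz : c.a * 4 * (D' + 18) < 4 ^ (n - c.W - c.cc - 1) := by
    have h1 : 4 ^ 5 ≤ 4 ^ (n - c.W - c.cc - 1) := Nat.pow_le_pow_right (by norm_num) (by omega)
    have h2 : c.a * 4 * (D' + 18) ≤ 3 * 4 * 39 := Nat.mul_le_mul (by omega) (by omega)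
    norm_num at h1 h2
    omega
  obtain ⟨hdvd, hst'⟩ := core4 hc (by omega) hst hys hD' hn' (by omega) hsz
  refine ⟨⟨n', c.a, D', hn14, hamem, hD', hst'⟩, ?_⟩
  obtain ⟨x, hx, hx1, _, _, _⟩ := eps_of_chk valid4 hst.toW hn hL0 hL4 heps
  obtain ⟨y, hy, _, hy2, hy3, hy4⟩ := eps_of_chk valid4 hst'.toW hn14 ha0 ha4 heps'
  refine ⟨x, y, hx, hy, ?_⟩
  have hE : elat 4 y = ys := by
    have hDle : D' ≤ n' * (4 - 1) ^ 2 + c.a ^ 2 := by norm_num; omega
    obtain ⟨Y, hY⟩ := Nat.exists_eq_add_of_le hDle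
    have h6 : Y + D' = n' * (4 - 1) ^ 2 + c.a ^ 2 := by omega
    have h7 := elat_of_cost hb ha0 ha4 hy3 hy4 h6
    have h7' : elat 4 y = c.a * Y := by rw [hy2]; exact h7
    rw [h7']
    norm_num at h6
    have h8 : Y = ys / c.a := by omega
    rw [h8]
    exact Nat.mul_div_cancel' hdvd
  rw [hE]
  have heps1 := heps
  unfold epsChk at heps1
  simp only [Bool.and_eq_true] at heps1
  have hdig1 := heps1.1.1.2
  have hx1' : x + 1 = ((c.L + 1) * 4 ^ c.es1.length - bv 4 c.es1) * 4 ^ (n - c.es1.length) := hx1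
  have hpos1 : 1 ≤ (c.L + 1) * 4 ^ c.es1.length - bv 4 c.es1 := by
    have h5 := (wl_bv hb c.es1 hdig1).1
    rw [Nat.add_mul, Nat.one_mul]
    omega
  have e1 : x = ((c.L + 1) * 4 ^ c.es1.length - bv 4 c.es1) * 4 ^ (n - c.es1.length) - 1 := by
    omega
  have dx : Nat.digits 4 x = List.replicate (n - c.es1.length) 3 ++
      ((c.es1.reverse.map fun e => 4 - 1 - e) ++ Nat.digits 4 c.L) := by
    rw [e1, digits_pow_sub hb hpos1, digits_compl hb c.es1 c.L hL0 hdig1]
  have dP : ∀ j, Nat.digits 4 (c.P * 4 ^ j - 1) = List.replicate j 3 ++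
      ((c.es.reverse.map fun e => 4 - 1 - e) ++ Nat.digits 4 c.L) := by
    intro j
    rw [digits_pow_sub hb (by omega)]
    have : c.P - 1 = (c.L + 1) * 4 ^ c.es.length - bv 4 c.es - 1 := rfl
    rw [this, digits_compl hb c.es c.L hL0 hdig]
  rcases hys with ⟨ha, hys⟩ | ⟨ha, hys⟩
  · rw [if_pos ha] at hperm
    have hp := List.isPerm_iff.1 hperm
    have hlen : c.es1.length = c.es.length + 1 := by
      have := hp.length_eq
      simpa using this
    have e2 : ys = 2 + 4 * (c.P * 4 ^ (n - c.W - 1) - 1) := by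
      have h1 : n - c.W = (n - c.W - 1) + 1 := by omega
      rw [h1, pow_succ] at hys
      have h2 : 0 < 4 ^ (n - c.W - 1) := Nat.pow_pos (by norm_num)
      have h3 : 2 * 1 ≤ c.P * 4 ^ (n - c.W - 1) := Nat.mul_le_mul hPpos h2
      have h4 : c.P * (4 ^ (n - c.W - 1) * 4) = 4 * (c.P * 4 ^ (n - c.W - 1)) := by ring
      omega
    have dy : Nat.digits 4 ys = 2 :: Nat.digits 4 (c.P * 4 ^ (n - c.W - 1) - 1) := by
      rw [e2]
      exact Nat.digits_add 4 (by norm_num) 2 _ (by norm_num) (Or.inl (by norm_num))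
    rw [dx, dy, dP]
    have h9 : n - c.es1.length = n - c.W - 1 := by omega
    rw [h9]
    have q1 : (2 :: (List.replicate (n - c.W - 1) 3 ++
        ((c.es.reverse.map fun e => 4 - 1 - e) ++ Nat.digits 4 c.L))).Perm
        (List.replicate (n - c.W - 1) 3 ++
          (2 :: ((c.es.reverse.map fun e => 4 - 1 - e) ++ Nat.digits 4 c.L))) :=
      List.perm_middle.symm
    refine List.Perm.trans ?_ q1.symm
    apply List.Perm.append_left
    have q2 : (2 :: ((c.es.reverse.map fun e => 4 - 1 - e) ++ Nat.digits 4 c.L)) =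
        ((2 :: (c.es.reverse.map fun e => 4 - 1 - e)) ++ Nat.digits 4 c.L) := rfl
    rw [q2]
    apply List.Perm.append_right
    have q3 : (2 :: (c.es.reverse.map fun e => 4 - 1 - e)) =
        ((c.es ++ [1]).reverse.map fun e => 4 - 1 - e) := by
      rw [List.reverse_append]
      rfl
    rw [q3]
    apply List.Perm.map
    exact (List.reverse_perm _).trans (hp.trans (List.reverse_perm _).symm)
  · rw [if_neg ha] at hperm
    have hp := List.isPerm_iff.1 hperm
    have hlen : c.es1.length = c.es.length := hp.length_eq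
    have e2 : ys = c.P * 4 ^ (n - c.W) - 1 := by omega
    rw [dx, e2, dP]
    have h9 : n - c.es1.length = n - c.W := by omega
    rw [h9]
    apply List.Perm.append_left
    apply List.Perm.append_right
    apply List.Perm.map
    exact (List.reverse_perm _).trans (hp.trans (List.reverse_perm _).symm)

end Pool.Agent.Lib.MP_4f9744_nt
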