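import Pool.Agent.Lib.MP_4f9744_nt.Defs

/-!
# MP_4f9744_nt : digits, costs, heights.
-/

namespace Pool.Agent.Lib.MP_4f9744_nt

/-- sum of the squares of the lowest `n` digits of `r` -/
def sqd (b : ℕ) : ℕ → ℕ → ℕ
  | 0, _ => 0
  | n + 1, r => (r % b) ^ 2 + sqd b n (r / b)

/-- cost of the digit `e` (complement digit): `e (2 (b-1) - e)` -/
def wd (b e : ℕ) : ℕ := e * (2 * (b - 1) - e)

/-- cost of the lowest `n` digits of `l` -/
def wl (b : ℕ) : ℕ → ℕ → ℕ
  | 0, _ => 0
  | n + 1, l => wd b (l % b) + wl b n (l / b)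

theorem wd_add_sq {b e : ℕ} (hb : 1 ≤ b) (he : e ≤ b - 1) :
    (b - 1 - e) ^ 2 + wd b e = (b - 1) ^ 2 := by
  obtain ⟨c, hc⟩ := Nat.exists_eq_add_of_le he
  unfold wd
  rw [hc]
  have h1 : e + c - e = c := by omega
  have h2 : 2 * (e + c) - e = e + 2 * c := by omega
  rw [h1, h2]
  ring

theorem compl_step {b n l : ℕ} (hb : 2 ≤ b) (hl : l < b ^ (n + 1)) :
    (b ^ (n + 1) - 1 - l) % b = b - 1 - l % b ∧
      (b ^ (n + 1) - 1 - l) / b = b ^ n - 1 - l / b := by
  have hb0 : 0 < b := by omega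
  have h1 : l / b < b ^ n := by
    rw [Nat.div_lt_iff_lt_mul hb0]
    rwa [pow_succ] at hl
  have h2 : l % b < b := Nat.mod_lt _ hb0
  have h3 : b * (l / b) + l % b = l := Nat.div_add_mod l b
  have h4 : b ^ (n + 1) - 1 - l = (b - 1 - l % b) + b * (b ^ n - 1 - l / b) := by
    have h5 : b * (b ^ n - 1 - l / b) = b * b ^ n - b - b * (l / b) := by
      rw [Nat.mul_sub, Nat.mul_sub, Nat.mul_one]
    have h6 : b * (l / b) + b ≤ b * b ^ n := by
      have : b * (l / b + 1) ≤ b * b ^ n := Nat.mul_le_mul_left b h1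
      rwa [Nat.mul_add, Nat.mul_one] at this
    rw [h5, pow_succ, Nat.mul_comm (b ^ n) b]
    omega
  have h7 : b - 1 - l % b < b := by omega
  constructor
  · rw [h4, Nat.add_mul_mod_self_left, Nat.mod_eq_of_lt h7]
  · rw [h4, Nat.add_mul_div_left _ _ hb0, Nat.div_eq_of_lt h7, Nat.zero_add]

theorem sqd_compl {b : ℕ} (hb : 2 ≤ b) : ∀ (n l : ℕ), l < b ^ n →
    sqd b n (b ^ n - 1 - l) + wl b n l = n * (b - 1) ^ 2
  | 0, l, _ => by simp [sqd, wl]
  | n + 1, l, hl => by
    obtain ⟨h1, h2⟩ := compl_step hb hl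
    have hlb : l / b < b ^ n := by
      rw [Nat.div_lt_iff_lt_mul (by omega)]
      rwa [pow_succ] at hl
    have ih := sqd_compl hb n (l / b) hlb
    have hw := wd_add_sq (b := b) (e := l % b) (by omega)
      (by have := Nat.mod_lt l (show 0 < b by omega); omega)
    show (_ % b) ^ 2 + sqd b n (_ / b) + (wd b (l % b) + wl b n (l / b)) = _
    rw [h1, h2, Nat.add_mul, Nat.one_mul]
    omega

theorem wl_split {b : ℕ} (hb : 2 ≤ b) : ∀ (m t l : ℕ),
    wl b (m + t) l = wl b m (l % b ^ m) + wl b t (l / b ^ m)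
  | 0, t, l => by simp [wl]
  | m + 1, t, l => by
    have hb0 : 0 < b := by omega
    have e1 : m + 1 + t = (m + t) + 1 := by omega
    rw [e1]
    show wd b (l % b) + wl b (m + t) (l / b) =
      (wd b ((l % b ^ (m + 1)) % b) + wl b m ((l % b ^ (m + 1)) / b)) + _
    rw [wl_split hb m t (l / b)]
    have e2 : (l % b ^ (m + 1)) % b = l % b := by
      apply Nat.mod_mod_of_dvd
      exact dvd_pow_self b (by omega)
    have e3 : (l % b ^ (m + 1)) / b = l / b % b ^ m := by
      rw [pow_succ, Nat.mul_comm]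
      exact Nat.mod_mul_right_div_self l b (b ^ m)
    have e4 : l / b / b ^ m = l / b ^ (m + 1) := by
      rw [Nat.div_div_eq_div_mul, pow_succ, Nat.mul_comm]
    rw [e2, e3, e4]
    ring

theorem wl_split' {b : ℕ} (hb : 2 ≤ b) (m t h l : ℕ) (hl : l < b ^ m) :
    wl b (m + t) (h * b ^ m + l) = wl b m l + wl b t h := by
  have hp : 0 < b ^ m := Nat.pow_pos (by omega)
  rw [wl_split hb m t]
  have e1 : (h * b ^ m + l) % b ^ m = l := by
    rw [Nat.add_comm, Nat.add_mul_mod_self_right, Nat.mod_eq_of_lt hl]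
  have e2 : (h * b ^ m + l) / b ^ m = h := by
    rw [Nat.add_comm, Nat.add_mul_div_right _ _ hp, Nat.div_eq_of_lt hl, Nat.zero_add]
  rw [e1, e2]

/-- digits of a number with given leading digit -/
theorem digits_lead {b : ℕ} (hb : 2 ≤ b) {L : ℕ} (hL : 0 < L) (hLb : L < b) :
    ∀ (n r : ℕ), r < b ^ n → lead b (L * b ^ n + r) = L ∧
      sumSq b (L * b ^ n + r) = L ^ 2 + sqd b n r ∧ Nat.digits b (L * b ^ n + r) ≠ []
  | 0, r, hr => by
    have hr0 : r = 0 := by simpa using hr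
    subst hr0
    have hd : Nat.digits b L = [L] := Nat.digits_of_lt b L (by omega) hLb
    simp [lead, sumSq, sqd, hd]
  | n + 1, r, hr => by
    have hb0 : 0 < b := by omega
    have hrb : r / b < b ^ n := by
      rw [Nat.div_lt_iff_lt_mul hb0]
      rwa [pow_succ] at hr
    obtain ⟨h1, h2, h3⟩ := digits_lead hb hL hLb n (r / b) hrb
    have hx : L * b ^ (n + 1) + r = r % b + b * (L * b ^ n + r / b) := by
      have := Nat.div_add_mod r b
      rw [pow_succ, Nat.mul_add]
      nlinarith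
    have hpos : 0 < L * b ^ n + r / b := by
      exact Nat.add_pos_left (Nat.mul_pos hL (Nat.pow_pos hb0)) _
    have hd : Nat.digits b (L * b ^ (n + 1) + r) =
        (r % b) :: Nat.digits b (L * b ^ n + r / b) := by
      rw [hx]
      exact Nat.digits_add b (by omega) (r % b) (L * b ^ n + r / b) (Nat.mod_lt _ hb0)
        (Or.inr (by omega))
    refine ⟨?_, ?_, ?_⟩
    · unfold lead at h1 ⊢
      rw [hd]
      cases hc : Nat.digits b (L * b ^ n + r / b) with
      | nil => exact absurd hc h3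
      | cons d ds =>
        rw [hc] at h1
        simpa using h1
    · unfold sumSq at h2 ⊢
      rw [hd, List.map_cons, List.sum_cons, h2]
      show _ = L ^ 2 + ((r % b) ^ 2 + sqd b n (r / b))
      ring
    · rw [hd]
      simp

theorem elat_eq {b : ℕ} (hb : 2 ≤ b) {L : ℕ} (hL : 0 < L) (hLb : L < b) (n r : ℕ)
    (hr : r < b ^ n) : elat b (L * b ^ n + r) = L * (L ^ 2 + sqd b n r) := by
  obtain ⟨h1, h2, _⟩ := digits_lead hb hL hLb n r hr
  unfold elat
  rw [h1, h2]

/-- every positive number has a leading digit -/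
theorem exists_lead {b x : ℕ} (hb : 2 ≤ b) (hx : 0 < x) :
    ∃ n L r, 0 < L ∧ L < b ∧ r < b ^ n ∧ x = L * b ^ n + r := by
  have hb0 : 0 < b := by omega
  refine ⟨Nat.log b x, x / b ^ Nat.log b x, x % b ^ Nat.log b x, ?_, ?_, ?_, ?_⟩
  · exact Nat.div_pos (Nat.pow_log_le_self b (by omega)) (Nat.pow_pos hb0)
  · rw [Nat.div_lt_iff_lt_mul (Nat.pow_pos hb0)]
    have := Nat.lt_pow_succ_log_self (b := b) (by omega) x
    rwa [pow_succ, Nat.mul_comm] at this
  · exact Nat.mod_lt _ (Nat.pow_pos hb0)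
  · have := Nat.div_add_mod x (b ^ Nat.log b x)
    rw [Nat.mul_comm] at this
    exact this.symm

theorem height_succ {b k x : ℕ} : HasHeight b (k + 1) x ↔
    0 < x ∧ x ≠ 1 ∧ (elat b)^[k] (elat b x) = 1 ∧ ∀ j < k, (elat b)^[j] (elat b x) ≠ 1 := by
  unfold HasHeight
  constructor
  · rintro ⟨h0, h1, h2⟩
    refine ⟨h0, h2 0 (by omega), ?_, ?_⟩
    · rwa [Function.iterate_succ_apply] at h1
    · intro j hj
      have := h2 (j + 1) (by omega)
      rwa [Function.iterate_succ_apply] at this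
  · rintro ⟨h0, h1, h2, h3⟩
    refine ⟨h0, ?_, ?_⟩
    · rwa [Function.iterate_succ_apply]
    · intro j hj
      cases j with
      | zero => exact h1
      | succ j =>
        rw [Function.iterate_succ_apply]
        exact h3 j (by omega)

theorem elat_pos {b x : ℕ} (hb : 2 ≤ b) (hx : 0 < x) : 0 < elat b x := by
  obtain ⟨n, L, r, h1, h2, h3, h4⟩ := exists_lead hb hx
  rw [h4, elat_eq hb h1 h2 n r h3]
  apply Nat.mul_pos h1
  have : 0 < L ^ 2 := Nat.pow_pos h1
  omega

theorem height_succ' {b k x : ℕ} (hb : 2 ≤ b) : HasHeight b (k + 1) x ↔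
    0 < x ∧ x ≠ 1 ∧ HasHeight b k (elat b x) := by
  rw [height_succ]
  constructor
  · rintro ⟨h0, h1, h2, h3⟩
    exact ⟨h0, h1, elat_pos hb h0, h2, h3⟩
  · rintro ⟨h0, h1, _, h2, h3⟩
    exact ⟨h0, h1, h2, h3⟩

theorem height_pos {b k x : ℕ} (h : HasHeight b k x) : 0 < x := h.1

/-- parity of elated numbers in odd bases -/
theorem digits_parity {b : ℕ} (hb : b % 2 = 1) (x : ℕ) : sumSq b x % 2 = x % 2 := by
  have h1 : x ≡ (Nat.digits b x).sum [MOD 2] := Nat.modEq_digits_sum 2 b hb x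
  have h2 : ∀ l : List ℕ, (l.map (fun d => d ^ 2)).sum % 2 = l.sum % 2 := by
    intro l
    induction l with
    | nil => rfl
    | cons a l ih =>
      rw [List.map_cons, List.sum_cons, List.sum_cons, Nat.add_mod, ih, Nat.add_mod a]
      have : a ^ 2 % 2 = a % 2 := by
        rcases Nat.mod_two_eq_zero_or_one a with h | h <;> simp [pow_two, Nat.mul_mod, h]
      rw [this]
  unfold sumSq
  rw [h2]
  exact h1.symm

theorem elat_odd {b : ℕ} (hb : b % 2 = 1) {x : ℕ} (h : elat b x % 2 = 1) :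
    x % 2 = 1 ∧ lead b x % 2 = 1 := by
  unfold elat at h
  rw [Nat.mul_mod] at h
  have h1 := digits_parity hb x
  rcases Nat.mod_two_eq_zero_or_one (lead b x) with h2 | h2 <;>
    rcases Nat.mod_two_eq_zero_or_one (sumSq b x) with h3 | h3 <;>
    simp [h2, h3] at h
  exact ⟨by omega, h2⟩

theorem height_odd {b : ℕ} (hb : b % 2 = 1) (hb2 : 2 ≤ b) : ∀ (k x : ℕ), HasHeight b k x →
    x % 2 = 1
  | 0, x, h => by
    have : x = 1 := h.2.1
    subst this
    rfl
  | k + 1, x, h => by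
    have h1 := ((height_succ' hb2).1 h).2.2
    exact (elat_odd hb (height_odd hb hb2 k _ h1)).1

theorem lead_odd {b : ℕ} (hb : b % 2 = 1) (hb2 : 2 ≤ b) {k x : ℕ} (h : HasHeight b (k + 1) x) :
    lead b x % 2 = 1 :=
  (elat_odd hb (height_odd hb hb2 k _ ((height_succ' hb2).1 h).2.2)).2

end Pool.Agent.Lib.MP_4f9744_nt
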