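import Pool.Agent.Lib.MP_4f9744_nt.MinHyp

/-!
# MP_4f9744_nt : certificates for one step.
-/

namespace Pool.Agent.Lib.MP_4f9744_nt

/-- fast modular power -/
def pm (M : ℕ) : ℕ → ℕ → ℕ → ℕ → ℕ
  | 0, _, _, acc => acc
  | f + 1, x, e, acc => pm M f (x * x % M) (e / 2) (if e % 2 = 1 then acc * x % M else acc)

theorem pm_spec (M : ℕ) : ∀ (f x e acc : ℕ), e < 2 ^ f → pm M f x e acc ≡ acc * x ^ e [MOD M]
  | 0, x, e, acc, h => by
    have : e = 0 := by simpa using h
    subst this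
    simp [pm, Nat.ModEq]
  | f + 1, x, e, acc, h => by
    have h1 : e / 2 < 2 ^ f := by
      rw [Nat.div_lt_iff_lt_mul (by norm_num)]
      rwa [pow_succ] at h
    have ih := pm_spec M f (x * x % M) (e / 2) (if e % 2 = 1 then acc * x % M else acc) h1
    have h2 : (x * x % M) ^ (e / 2) ≡ x ^ (2 * (e / 2)) [MOD M] := by
      rw [pow_mul, pow_two]
      exact (Nat.mod_modEq _ _).pow _
    show pm M f (x * x % M) (e / 2) (if e % 2 = 1 then acc * x % M else acc) ≡ _ [MOD M]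
    refine ih.trans ?_
    have h3 := Nat.div_add_mod e 2
    by_cases he : e % 2 = 1
    · rw [if_pos he]
      have h4 : acc * x ^ e = acc * x * x ^ (2 * (e / 2)) := by
        conv_lhs => rw [← h3, he]
        ring
      rw [h4]
      exact (Nat.mod_modEq _ _).mul h2
    · rw [if_neg he]
      have h5 : e % 2 = 0 := by omega
      have h4 : acc * x ^ e = acc * x ^ (2 * (e / 2)) := by
        conv_lhs => rw [← h3, h5]
        ring
      rw [h4]
      exact Nat.ModEq.mul_left _ h2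

/-- `x ^ e mod M` -/
def powm (x e M : ℕ) : ℕ := pm M (Nat.log2 e + 1) x e 1

theorem powm_spec (x e M : ℕ) : powm x e M ≡ x ^ e [MOD M] := by
  have := pm_spec M (Nat.log2 e + 1) x e 1 Nat.lt_log2_self
  rwa [Nat.one_mul] at this

/-- data of a base -/
structure Base where
  b : ℕ
  Dm : ℕ
  N0 : ℕ
  G : List ℕ
  tab : ℕ → ℕ
  A : List ℕ

/-- what has to be known about the base -/
structure Base.Valid (B : Base) : Prop where
  hb : 2 ≤ B.b
  hG : ∀ g ∈ B.G, 0 < g ∧ tabOK B.b g B.Dm (B.tab g) = true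
  hA : ∀ k x, HasHeight B.b (k + 1) x → lead B.b x ∈ B.A
  h1 : 1 ∈ B.G

/-- a competitor `a` with modulus `g` -/
structure Comp where
  a : ℕ
  g : ℕ
  inf : Bool
  es : List ℕ

/-- the data of one step -/
structure Cert where
  L : ℕ
  D : ℕ
  a : ℕ
  es : List ℕ
  s : ℕ
  o : ℕ
  comps : List Comp
  D' : ℕ
  r : ℕ
  Q : ℕ
  s2 : ℕ
  r' : ℕ
  Q' : ℕ

/-- `(L+1) b^n - 1` modulo `g` -/
def rhoOf (b g L s : ℕ) : ℕ := ((L + 1) * b ^ s + (g - 1)) % g

def perOK (b g o : ℕ) : Bool := b ^ (o + 1) % g == b % g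

def Cert.W (c : Cert) : ℕ := c.es.length

def Cert.P (B : Base) (c : Cert) : ℕ := (c.L + 1) * B.b ^ c.W - bv B.b c.es

def Cert.M (B : Base) (c : Cert) : ℕ := c.a * (B.b - 1) ^ 2 * c.Q'

def Cert.C (B : Base) (c : Cert) : ℕ := c.D' + 2 * (B.b - 1) ^ 2

/-- number of full digits that are too expensive -/
def Cert.cc (B : Base) (c : Cert) : ℕ := c.D / (B.b - 1) ^ 2 + 1

def compChk (B : Base) (c : Cert) (C : Comp) : Bool :=
  B.G.contains C.g && (C.a % C.g == 0) && perOK B.b C.g c.o &&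
  (if C.inf then !(Tb C.g (B.tab C.g) c.D (rhoOf B.b C.g c.L c.s))
   else (Nat.ble C.es.length c.W &&
      chk B.b C.g (B.tab C.g) C.es c.s c.D (rhoOf B.b C.g c.L c.s) &&
      Nat.ble (C.a * c.P B + 1)
        (c.a * ((c.L + 1) * B.b ^ C.es.length - (bv B.b C.es + 1)) *
          B.b ^ (c.W - C.es.length))))

/-- numeric conditions -/
def numChk (B : Base) (c : Cert) : Bool :=
  Nat.blt 0 c.L && Nat.blt c.L B.b && Nat.blt 0 c.a && Nat.blt c.a B.b &&
  Nat.ble c.D B.Dm && Nat.ble c.D' B.Dm &&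
  Nat.ble (c.W + 1) c.s && Nat.ble (c.W + c.cc B + 1) B.N0 &&
  Nat.blt (c.a * B.b * c.C B) (B.b ^ (B.N0 - c.W - c.cc B)) &&
  Nat.ble (c.a * (B.b - 1) ^ 2 * B.N0 + c.a ^ 3 + 1) (B.b ^ B.N0) &&
  (c.es.all fun e => Nat.blt e B.b)

/-- the chosen divisor -/
def mainChk (B : Base) (c : Cert) : Bool :=
  B.G.contains c.a && perOK B.b c.a c.o &&
  chk B.b c.a (B.tab c.a) c.es c.s c.D (rhoOf B.b c.a c.L c.s) && (wc B.b c.es == c.D)

def restChk (B : Base) (c : Cert) : Bool :=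
  (B.A.all fun a' => (a' == c.a) || c.comps.any fun C => (C.a == a') && compChk B c C) &&
  (B.A.all fun a' => Nat.ble (a' * c.P B + 1) (c.a * c.L * B.b ^ (c.W + 1))) &&
  ((List.range (c.D' / (B.b - 1) ^ 2 + 1)).all fun j => (j == 0) ||
    !(Tb 1 (B.tab 1) (c.D' - j * (B.b - 1) ^ 2) 0))

/-- residues of `n` and `n'` -/
def resChk (B : Base) (c : Cert) : Bool :=
  (c.Q % c.o == 0) && (c.s % c.o == c.r % c.o) && (c.s2 % c.Q == c.r % c.Q) &&
  Nat.ble (c.W + 1) c.s2 && Nat.blt 0 c.Q' &&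
  ((c.P B * powm B.b (c.s2 - c.W) (c.M B) + c.a * c.D') % c.M B ==
    (c.a ^ 3 + 1 + c.a * (B.b - 1) ^ 2 * c.r') % c.M B) &&
  (c.P B * powm B.b (c.Q + 1) (c.M B) % c.M B == c.P B * B.b % c.M B)

def stepChk (B : Base) (c : Cert) : Bool :=
  numChk B c && mainChk B c && restChk B c && resChk B c

theorem wl_arg_zero (b : ℕ) : ∀ m, wl b m 0 = 0
  | 0 => rfl
  | m + 1 => by
    show wd b (0 % b) + wl b m (0 / b) = 0
    rw [Nat.zero_mod, Nat.zero_div, wl_arg_zero b m]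
    simp [wd]

theorem wl_bv {b : ℕ} (hb : 2 ≤ b) : ∀ (es : List ℕ), (es.all fun e => Nat.blt e b) = true →
    bv b es < b ^ es.length ∧ wl b es.length (bv b es) = wc b es
  | [], _ => by simp [bv, wl, wc]
  | e :: es, h => by
    rw [List.all_cons, Bool.and_eq_true, Nat.blt_eq] at h
    obtain ⟨h1, h2⟩ := wl_bv hb es h.2
    constructor
    · show e * b ^ es.length + bv b es < b ^ (es.length + 1)
      have h3 : (e + 1) * b ^ es.length ≤ b * b ^ es.length := Nat.mul_le_mul_right _ h.1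
      rw [Nat.add_mul, Nat.one_mul] at h3
      rw [pow_succ, Nat.mul_comm (b ^ es.length) b]
      omega
    · show wl b (es.length + 1) (e * b ^ es.length + bv b es) = wd b e + wc b es
      rw [wl_split' hb es.length 1 e (bv b es) h1, wl_one h.1, h2, Nat.add_comm]

theorem per_pow {b g o : ℕ} (h : perOK b g o = true) : ∀ t i, 1 ≤ i →
    b ^ (i + o * t) % g = b ^ i % g := by
  unfold perOK at h
  rw [beq_iff_eq] at h
  intro t
  induction t with
  | zero => intro i _; rfl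
  | succ t ih =>
    intro i hi
    have h1 : b ^ (i + o * (t + 1)) = b ^ (o + 1) * b ^ (i - 1 + o * t) := by
      rw [← pow_add]
      congr 1
      have : o * (t + 1) = o * t + o := by ring
      omega
    rw [h1, Nat.mul_mod, h, ← Nat.mul_mod, ← pow_succ']
    have h2 : i - 1 + o * t + 1 = i + o * t := by omega
    rw [h2]
    exact ih i hi

theorem per_eq {b g o n s : ℕ} (h : perOK b g o = true) (hn : 1 ≤ n) (hs : 1 ≤ s)
    (hmod : n % o = s % o) : b ^ n % g = b ^ s % g := by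
  rcases Nat.le_total n s with hle | hle
  · obtain ⟨t, ht⟩ := (Nat.modEq_iff_dvd' hle).1 hmod
    have : s = n + o * t := by omega
    rw [this]
    exact (per_pow h t n hn).symm
  · obtain ⟨t, ht⟩ := (Nat.modEq_iff_dvd' hle).1 hmod.symm
    have : n = s + o * t := by omega
    rw [this]
    exact per_pow h t s hs

theorem per_sub {b g o n s W : ℕ} (h : perOK b g o = true) (hn : W + 1 ≤ n) (hs : W + 1 ≤ s)
    (hmod : n % o = s % o) : ∀ j, j ≤ W → b ^ (n - j) % g = b ^ (s - j) % g := by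
  intro j hj
  apply per_eq h (by omega) (by omega)
  have h1 : (n - j) + j ≡ (s - j) + j [MOD o] := by
    have e1 : n - j + j = n := by omega
    have e2 : s - j + j = s := by omega
    rw [e1, e2]
    exact hmod
  exact Nat.ModEq.add_right_cancel' j h1

theorem rho_eq {b g L n s : ℕ} (h : b ^ n % g = b ^ s % g) :
    ((L + 1) * b ^ n + (g - 1)) % g = rhoOf b g L s % g := by
  unfold rhoOf
  rw [Nat.mod_mod]
  apply Nat.ModEq.add_right
  exact Nat.ModEq.mul_left _ h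

theorem mpow_per {b Q P M : ℕ} (h : P * b ^ (Q + 1) ≡ P * b [MOD M]) : ∀ t i, 1 ≤ i →
    P * b ^ (i + Q * t) ≡ P * b ^ i [MOD M] := by
  intro t
  induction t with
  | zero => intro i _; exact Nat.ModEq.refl _
  | succ t ih =>
    intro i hi
    have h1 : P * b ^ (i + Q * (t + 1)) = P * b ^ (Q + 1) * b ^ (i - 1 + Q * t) := by
      rw [Nat.mul_assoc, ← pow_add]
      congr 2
      have : Q * (t + 1) = Q * t + Q := by ring
      omega
    have h2 : P * b * b ^ (i - 1 + Q * t) = P * b ^ (i + Q * t) := by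
      rw [Nat.mul_assoc, ← pow_succ']
      congr 2
      omega
    rw [h1]
    refine (h.mul_right _).trans ?_
    rw [h2]
    exact ih i hi

theorem mpow_eq {b Q P M m s : ℕ} (h : P * b ^ (Q + 1) ≡ P * b [MOD M]) (hm : 1 ≤ m)
    (hs : 1 ≤ s) (hmod : m % Q = s % Q) :
    P * b ^ m ≡ P * b ^ s [MOD M] := by
  rcases Nat.le_total m s with hle | hle
  · obtain ⟨t, ht⟩ := (Nat.modEq_iff_dvd' hle).1 hmod
    have : s = m + Q * t := by omega
    rw [this]
    exact (mpow_per h t m hm).symm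
  · obtain ⟨t, ht⟩ := (Nat.modEq_iff_dvd' hle).1 hmod.symm
    have : m = s + Q * t := by omega
    rw [this]
    exact mpow_per h t s hs

/-- What one certified step gives. -/
theorem step_cert {B : Base} (hB : B.Valid) {c : Cert} (hc : stepChk B c = true) {k n : ℕ}
    (hn : B.N0 ≤ n) (hr : n % c.Q = c.r % c.Q) (hst : StW B.b k n c.L c.D) :
    ∃ n' ys, B.N0 ≤ n' ∧ n' % c.Q' = c.r' % c.Q' ∧ StS B.b (k + 1) n' c.a c.D' ∧
      ys + 1 = c.P B * B.b ^ (n - c.W) ∧
      c.a * (n' * (B.b - 1) ^ 2 + c.a ^ 2) = ys + c.a * c.D' := by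
  unfold stepChk at hc
  simp only [Bool.and_eq_true] at hc
  obtain ⟨⟨⟨hnum, hmain⟩, hrest⟩, hres⟩ := hc
  unfold numChk at hnum
  simp only [Bool.and_eq_true, Nat.blt_eq, Nat.ble_eq] at hnum
  obtain ⟨⟨⟨⟨⟨⟨⟨⟨⟨⟨hL0, hLb⟩, ha0⟩, hab⟩, hDm⟩, hDm'⟩, hWs⟩, hWN⟩, hsz⟩, hgrow⟩, hdig⟩ := hnum
  have hbvW : bv B.b c.es + 1 ≤ B.b ^ c.W := (wl_bv hB.hb c.es hdig).1
  unfold mainChk at hmain
  simp only [Bool.and_eq_true, beq_iff_eq] at hmain
  obtain ⟨⟨⟨hGa, hper⟩, hchk⟩, hwc⟩ := hmain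
  unfold restChk at hrest
  simp only [Bool.and_eq_true] at hrest
  obtain ⟨⟨hcomps, hplus⟩, hDmin⟩ := hrest
  unfold resChk at hres
  simp only [Bool.and_eq_true, beq_iff_eq, Nat.blt_eq, Nat.ble_eq] at hres
  obtain ⟨⟨⟨⟨⟨⟨hQo, hso⟩, hs2⟩, hWs2⟩, hQ'⟩, hR⟩, hPQ⟩ := hres
  have hb := hB.hb
  have hb0 : 0 < B.b := by omega
  have hWn : c.W + c.cc B + 1 ≤ n := by omega
  have hlenW : c.es.length = c.W := rfl
  -- residues of n
  have hno : n % c.o = c.s % c.o := by
    rw [hso]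
    have hd : c.o ∣ c.Q := Nat.dvd_of_mod_eq_zero hQo
    have h1 : n ≡ c.r [MOD c.Q] := hr
    exact h1.of_dvd hd
  have hT : ∀ g ∈ B.G, 0 < g ∧ ∀ n l, l < B.b ^ n → wl B.b n l ≤ B.Dm →
      Tb g (B.tab g) (wl B.b n l) (l % g) = true := by
    intro g hg
    obtain ⟨h1, h2⟩ := hB.hG g hg
    exact ⟨h1, tab_sound hb h1 h2⟩
  have hGa' : c.a ∈ B.G := by simpa using hGa
  -- the number ys
  set m := n - c.W with hm
  have hP : c.P B ≤ (c.L + 1) * B.b ^ c.W := Nat.sub_le _ _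
  have hPL : c.L * B.b ^ c.W + 1 ≤ c.P B := by
    unfold Cert.P
    rw [Nat.add_mul, Nat.one_mul]
    omega
  have hbm : 0 < B.b ^ m := Nat.pow_pos hb0
  obtain ⟨ys, hys⟩ : ∃ ys, ys + 1 = c.P B * B.b ^ m := by
    refine ⟨c.P B * B.b ^ m - 1, ?_⟩
    have : 0 < c.P B * B.b ^ m := Nat.mul_pos (by omega) hbm
    omega
  have hbn : B.b ^ n = B.b ^ c.W * B.b ^ m := by
    rw [← pow_add]; congr 1; omega
  have hysl : ys + 1 + bv B.b c.es * B.b ^ (n - c.es.length) = (c.L + 1) * B.b ^ n := by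
    rw [hlenW, ← hm, hys, ← Nat.add_mul, hbn, ← Nat.mul_assoc]
    congr 1
    unfold Cert.P
    have : bv B.b c.es ≤ (c.L + 1) * B.b ^ c.W := by
      rw [Nat.add_mul, Nat.one_mul]
      omega
    omega
  -- residue of P b^m
  have hPm : c.P B * B.b ^ m ≡ c.P B * B.b ^ (c.s2 - c.W) [MOD c.M B] := by
    apply mpow_eq (Q := c.Q)
    · have h1 : c.P B * powm B.b (c.Q + 1) (c.M B) ≡ c.P B * B.b [MOD c.M B] := hPQ
      exact ((powm_spec B.b (c.Q + 1) (c.M B)).mul_left (c.P B)).symm.trans h1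
    · omega
    · omega
    · have h1 : m + c.W ≡ (c.s2 - c.W) + c.W [MOD c.Q] := by
        have e1 : m + c.W = n := by omega
        have e2 : c.s2 - c.W + c.W = c.s2 := by omega
        rw [e1, e2]
        exact hr.trans hs2.symm
      exact Nat.ModEq.add_right_cancel' c.W h1
  have hmodM : c.P B * B.b ^ m + c.a * c.D' ≡
      c.a ^ 3 + 1 + c.a * (B.b - 1) ^ 2 * c.r' [MOD c.M B] := by
    have h1 : c.P B * powm B.b (c.s2 - c.W) (c.M B) + c.a * c.D' ≡
      c.a ^ 3 + 1 + c.a * (B.b - 1) ^ 2 * c.r' [MOD c.M B] := hR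
    refine Nat.ModEq.trans ?_ h1
    apply Nat.ModEq.add_right
    exact hPm.trans ((powm_spec B.b (c.s2 - c.W) (c.M B)).mul_left (c.P B)).symm
  -- size of P b^m
  have hPbig : B.b ^ n ≤ c.P B * B.b ^ m := by
    rw [hbn]
    apply Nat.mul_le_mul_right
    calc B.b ^ c.W = 1 * B.b ^ c.W := (Nat.one_mul _).symm
      _ ≤ c.L * B.b ^ c.W := Nat.mul_le_mul_right _ hL0
      _ ≤ c.P B := by omega
  have hN0n : B.b ^ B.N0 ≤ B.b ^ n := Nat.pow_le_pow_right hb0 hn
  set u2 := (B.b - 1) ^ 2 with hu2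
  have hu2pos : 0 < u2 := Nat.pow_pos (by omega)
  -- n'
  obtain ⟨n', hn'⟩ : ∃ n', c.a ^ 3 + 1 + c.a * u2 * n' = c.P B * B.b ^ m + c.a * c.D' := by
    have h1 : c.a ^ 3 + 1 ≤ c.P B * B.b ^ m + c.a * c.D' := by omega
    have h2 : c.a ^ 3 + 1 ≡ c.P B * B.b ^ m + c.a * c.D' [MOD c.a * u2] := by
      have h3 : c.P B * B.b ^ m + c.a * c.D' ≡ c.a ^ 3 + 1 + c.a * u2 * c.r' [MOD c.a * u2] :=
        hmodM.of_dvd (dvd_mul_right _ _)
      have h4 : c.a ^ 3 + 1 + c.a * u2 * c.r' ≡ c.a ^ 3 + 1 [MOD c.a * u2] := by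
        unfold Nat.ModEq
        rw [Nat.add_mul_mod_self_left]
      exact (h3.trans h4).symm
    obtain ⟨t, ht⟩ := (Nat.modEq_iff_dvd' h1).1 h2
    exact ⟨t, by omega⟩
  have hau : 0 < c.a * u2 := Nat.mul_pos ha0 hu2pos
  have hn'N : B.N0 ≤ n' := by
    by_contra hcon
    have h1 : c.a * u2 * n' ≤ c.a * u2 * B.N0 := Nat.mul_le_mul_left _ (by omega)
    have h2 : c.a * u2 * n' < c.a * u2 * B.N0 := Nat.mul_lt_mul_of_pos_left (by omega) hau
    have h3 : c.P B * B.b ^ m ≤ c.a ^ 3 + 1 + c.a * u2 * n' := by omega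
    omega
  have hn'r : n' % c.Q' = c.r' % c.Q' := by
    have h1 : c.a ^ 3 + 1 + c.a * u2 * n' ≡ c.a ^ 3 + 1 + c.a * u2 * c.r' [MOD c.M B] := by
      rw [hn']; exact hmodM
    have h2 : c.a * u2 * n' ≡ c.a * u2 * c.r' [MOD c.a * u2 * c.Q'] :=
      Nat.ModEq.add_left_cancel' _ h1
    exact Nat.ModEq.mul_left_cancel' (by omega) h2
  -- divisibility
  have hsum : c.a * (n' * u2 + c.a ^ 2) = ys + c.a * c.D' := by
    have e1 : c.a * (n' * u2 + c.a ^ 2) = c.a ^ 3 + c.a * u2 * n' := by ring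
    rw [e1]
    omega
  have hdvd : c.a ∣ ys := by
    have h1 : c.a ∣ ys + c.a * c.D' := ⟨_, hsum.symm⟩
    exact (Nat.dvd_add_left (dvd_mul_right _ _)).1 h1
  have hdiv : ys / c.a + c.D' = n' * u2 + c.a ^ 2 := by
    have h1 : c.a * (ys / c.a) = ys := Nat.mul_div_cancel' hdvd
    apply Nat.eq_of_mul_eq_mul_left ha0
    rw [Nat.mul_add, h1, ← hsum]
  -- ys has height k
  have hbvl : bv B.b c.es * B.b ^ m < B.b ^ n := by
    rw [hbn]
    exact Nat.mul_lt_mul_of_pos_right (by omega) hbm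
  have hcost : wl B.b n (bv B.b c.es * B.b ^ m) = c.D := by
    have e1 : n = m + c.W := by omega
    rw [e1]
    have h1 := wl_split' hb m c.W (bv B.b c.es) 0 hbm
    rw [Nat.add_zero] at h1
    rw [h1]
    rw [wl_arg_zero, Nat.zero_add, ← hwc]
    exact (wl_bv hb c.es hdig).2
  have hyk : HasHeight B.b k ys := by
    have h1 := hst.mem _ hbvl hcost
    have h2 : (c.L + 1) * B.b ^ n - 1 - bv B.b c.es * B.b ^ m = ys := by
      rw [hlenW, ← hm] at hysl
      omega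
    rwa [h2] at h1
  have hTa := hT c.a hGa'
  have hcc : c.D < c.cc B * u2 := by
    unfold Cert.cc
    have := Nat.lt_succ_iff.1 (Nat.lt_succ_self (c.D / u2))
    have h2 := Nat.div_add_mod c.D u2
    have h3 := Nat.mod_lt c.D hu2pos
    rw [← hu2, Nat.add_mul, Nat.one_mul, Nat.mul_comm]
    omega
  have hszn : c.a * B.b * c.C B < B.b ^ (n - c.W - c.cc B) :=
    lt_of_lt_of_le hsz (Nat.pow_le_pow_right hb0 (by omega))
  have hszm : c.a * B.b * c.C B < B.b ^ m :=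
    lt_of_lt_of_le hszn (Nat.pow_le_pow_right hb0 (by omega))
  have hpsub := per_sub hper (by omega : c.W + 1 ≤ n) hWs hno
  have huniq : Uniq B.b n c.L c.D c.a ys (c.C B) := by
    refine uniq_of_chk hb ha0 hTa.2 hDm (by omega) (fun j _ h2 => hpsub j h2)
      (rho_eq (hpsub 0 (by omega))) hchk hwc hysl (c := c.cc B) (by omega) hcc ?_
    rw [hlenW]
    refine lt_of_le_of_lt ?_ hszn
    calc c.a * c.C B = c.a * 1 * c.C B := by ring
      _ ≤ c.a * B.b * c.C B := Nat.mul_le_mul_right _ (Nat.mul_le_mul_left _ (by omega))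
  have hmin := minhyp (fun a' => a' ∈ B.A) hb ha0 hst (by omega : c.W ≤ n) hLb hys hdvd hP huniq
    (by
      intro a' hA h0 h1 hne
      rw [List.all_eq_true] at hcomps
      have h2 := hcomps a' hA
      rw [Bool.or_eq_true, beq_iff_eq] at h2
      rcases h2 with h2 | h2
      · exact absurd h2 hne
      rw [List.any_eq_true] at h2
      obtain ⟨C, _, hC⟩ := h2
      rw [Bool.and_eq_true, beq_iff_eq] at hC
      obtain ⟨hCa, hC⟩ := hC
      subst hCa
      unfold compChk at hC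
      simp only [Bool.and_eq_true, beq_iff_eq] at hC
      obtain ⟨⟨⟨hCG, hCd⟩, hCp⟩, hCc⟩ := hC
      have hCG' : C.g ∈ B.G := by simpa using hCG
      obtain ⟨hg0, hTg⟩ := hT C.g hCG'
      have hps := per_sub hCp (by omega : c.W + 1 ≤ n) hWs hno
      by_cases hinf : C.inf = true
      · rw [if_pos hinf] at hCc
        refine worse_of_inf hg0 hTg hDm (Nat.dvd_of_mod_eq_zero hCd) (rho := rhoOf B.b C.g c.L c.s)
          ?_ (by simpa using hCc)
        have h9 : ((c.L + 1) * B.b ^ n + (C.g - 1)) % C.g = rhoOf B.b C.g c.L c.s % C.g :=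
          rho_eq (hps 0 (by omega))
        rw [h9]
        unfold rhoOf
        rw [Nat.mod_mod]
      · rw [if_neg hinf] at hCc
        simp only [Bool.and_eq_true, Nat.ble_eq] at hCc
        obtain ⟨⟨hCl, hCk⟩, hCn⟩ := hCc
        exact worse_of_chk hb hg0 hTg hDm hCl (by omega) (fun j _ h3 => hps j (by omega))
          (Nat.dvd_of_mod_eq_zero hCd) (rho_eq (hps 0 (by omega))) hCk hCn h1 hszm)
    (by
      intro a' hA _ _
      rw [List.all_eq_true] at hplus
      have h2 := hplus a' hA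
      rwa [Nat.ble_eq] at h2)
    hszm
  refine ⟨n', ys, hn'N, hn'r, ?_, hys, hsum⟩
  refine step (fun a' => a' ∈ B.A) hb ha0 hab (hB.hA k) hyk hdvd ?_ hdiv (by omega) ?_
  · intro y a' h1 h2 h3 h4 h5 h6
    refine hmin y a' h1 h2 h3 h4 h5 ?_
    have : ys / c.a + c.C B = ys / c.a + c.D' + 2 * (B.b - 1) ^ 2 := by
      unfold Cert.C; ring
    rw [this]
    exact h6
  · intro j hj hju mm l hl hw
    rw [List.all_eq_true] at hDmin
    have hjr : j ∈ List.range (c.D' / u2 + 1) := by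
      rw [List.mem_range]
      have : j ≤ c.D' / u2 := (Nat.le_div_iff_mul_le hu2pos).2 hju
      omega
    have h2 := hDmin j hjr
    rw [Bool.or_eq_true, beq_iff_eq] at h2
    rcases h2 with h2 | h2
    · omega
    · obtain ⟨_, hT1⟩ := hT 1 hB.h1
      have h3 := hT1 mm l hl (by omega)
      rw [hw, Nat.mod_one] at h3
      rw [h3] at h2
      simp at h2

end Pool.Agent.Lib.MP_4f9744_nt
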