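import Pool.Agent.Lib.MP_4f9744_nt.Rel

/-!
# MP_4f9744_nt : certificates for the bases 5 and 9 (computed by a script, checked by the kernel).
-/

namespace Pool.Agent.Lib.MP_4f9744_nt

/-- tables -/
def tab5 : ℕ → ℕ
  | 1 => 2305843009178685569
  | 3 => 12259964326927110866866776217199791082787856236712820737
  | _ => 0

/-- data of base 5 -/
def B5 : Base where
  b := 5
  Dm := 60
  N0 := 18
  G := [1, 3]
  tab := tab5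
  A := [1, 3]

/-- the steps before the cycle -/
def preA5 : List (Cert × List ℕ × List ℕ) :=
  [(⟨3, 14, 3, [1, 1], 4, 2, [⟨1, 1, false, []⟩], 26, 2, 8, 10, 3, 4⟩, [1, 1], [2, 1, 1]),
   (⟨3, 26, 3, [2, 0, 1, 0, 1], 7, 2, [⟨1, 1, false, []⟩], 12, 3, 4, 7, 6, 8⟩, [2, 1, 1, 0, 0], [2]),
   (⟨3, 12, 1, [2], 2, 2, [⟨3, 3, true, []⟩], 24, 6, 8, 6, 1, 4⟩, [2], [2, 2]),
   (⟨1, 24, 3, [2, 2], 3, 2, [⟨1, 1, false, []⟩], 26, 1, 4, 5, 0, 2⟩, [2, 2], [2, 1, 1]),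
   (⟨3, 26, 3, [2, 1, 0, 1], 6, 2, [⟨1, 1, false, []⟩], 36, 0, 2, 6, 0, 4⟩, [2, 1, 1, 0], [3, 1, 1, 1]),
   (⟨3, 36, 3, [3, 1, 0, 1, 0, 1], 8, 2, [⟨1, 1, false, []⟩], 22, 0, 4, 8, 1, 2⟩, [3, 1, 1, 1, 0, 0], [3, 1])]

/-- the cycle -/
def cyc5 : List (Cert × List ℕ × List ℕ) :=
  [(⟨3, 22, 3, [3, 0, 1], 5, 2, [⟨1, 1, false, []⟩], 12, 1, 2, 5, 1, 4⟩, [3, 1, 0], [2]),
   (⟨3, 12, 3, [0, 2], 3, 2, [⟨1, 1, false, []⟩], 22, 1, 4, 5, 0, 2⟩, [2, 0], [3, 1]),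
   (⟨3, 22, 1, [3, 1], 4, 2, [⟨3, 3, true, []⟩], 14, 0, 2, 4, 0, 2⟩, [3, 1], [1, 1]),
   (⟨1, 14, 3, [1, 0, 1], 4, 2, [⟨1, 1, false, []⟩], 36, 0, 2, 4, 1, 4⟩, [1, 1, 0], [3, 1, 1, 1]),
   (⟨3, 36, 3, [3, 1, 1, 0, 1], 7, 2, [⟨1, 1, false, []⟩], 22, 1, 4, 9, 1, 2⟩, [3, 1, 1, 1, 0], [3, 1])]

/-- first state -/
def st5 : ℕ × ℕ × ℕ × ℕ := (3, 14, 2, 8)

/-- state of the cycle -/
def en5 : ℕ × ℕ × ℕ × ℕ := (3, 22, 1, 2)

/-- tables -/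
def tab9 : ℕ → ℕ
  | 1 => 22835963083295358096309803573046358998677225473
  | 3 => 11908525658859223294760121268437047942860995162238764457022921481195851166390007101208177332181169471951166369011381821436104080986656997377
  | 5 => 6210072369202835740595917953850010221027544068466786444556208152104203810745507542046870067838644186941983388366936090043093415108475822552228866599193532452488923825156952046881241692201873645947959857277963084304938830760532508673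
  | 7 => 3238436052916969893639925547502676912792906396226273893710421728438885433087925550271366139222993991922993245829068990582217344264857062789542711724512519401230573221283373874588173954017371737339869958381495275015682358952634087641337184176889890527410809899823790038070350718459110029945680744453714078682534457924896423937
  | _ => 0

/-- data of base 9 -/
def B9 : Base where
  b := 9
  Dm := 153
  N0 := 30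
  G := [1, 3, 5, 7]
  tab := tab9
  A := [1, 3, 5, 7]

/-- first steps -/
def preA9 : List (Cert × List ℕ × List ℕ) :=
  [(⟨7, 86, 7, [2, 2, 0, 1, 0, 0, 1], 11, 6, [⟨1, 1, false, []⟩, ⟨3, 1, false, []⟩, ⟨5, 1, false, []⟩], 114, 767, 1610612736, 767, 36275932, 402653184⟩, [2, 2, 1, 1, 0, 0, 0], [6, 3, 1]),
   (⟨7, 114, 7, [6, 3, 0, 0, 1], 10, 6, [⟨1, 1, false, []⟩, ⟨3, 1, false, []⟩, ⟨5, 1, false, []⟩], 30, 36275932, 402653184, 36275932, 66207517, 100663296⟩, [6, 3, 1, 0, 0], [1, 1]),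
   (⟨7, 30, 7, [0, 1, 0, 0, 1], 7, 6, [⟨1, 1, false, []⟩, ⟨3, 3, true, []⟩, ⟨5, 5, true, []⟩], 70, 66207517, 100663296, 66207517, 13743266, 25165824⟩, [1, 1, 0, 0, 0], [5, 1]),
   (⟨7, 70, 7, [0, 0, 5, 0, 0, 1], 8, 6, [⟨1, 1, false, []⟩, ⟨3, 1, false, []⟩, ⟨5, 5, true, []⟩], 130, 13743266, 25165824, 13743266, 3663779, 6291456⟩, [5, 1, 0, 0, 0, 0], [7, 3, 2]),
   (⟨7, 130, 7, [7, 0, 0, 3, 0, 0, 2], 11, 6, [⟨1, 1, false, []⟩, ⟨3, 1, false, []⟩, ⟨5, 1, false, []⟩], 108, 3663779, 6291456, 3663779, 3018109, 3145728⟩, [7, 3, 2, 0, 0, 0, 0], [7, 1, 1, 1]),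
   (⟨7, 108, 7, [7, 1, 1, 0, 0, 1], 7, 6, [⟨1, 1, false, []⟩, ⟨3, 3, true, []⟩, ⟨5, 1, false, []⟩], 86, 3018109, 3145728, 3018109, 457056, 786432⟩, [7, 1, 1, 1, 0, 0], [2, 2, 1, 1]),
   (⟨7, 86, 7, [2, 2, 1, 0, 0, 1], 12, 6, [⟨1, 1, false, []⟩, ⟨3, 1, false, []⟩, ⟨5, 1, false, []⟩], 114, 457056, 786432, 457056, 15730, 196608⟩, [2, 2, 1, 1, 0, 0], [6, 3, 1]),
   (⟨7, 114, 7, [6, 3, 0, 0, 1], 10, 6, [⟨1, 1, false, []⟩, ⟨3, 1, false, []⟩, ⟨5, 1, false, []⟩], 126, 15730, 196608, 15730, 38752, 49152⟩, [6, 3, 1, 0, 0], [7, 7])]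

/-- the failing step -/
def mid9 : Cert × List ℕ × List ℕ :=
  (⟨7, 126, 7, [7, 1, 0, 4], 10, 6, [⟨1, 1, false, []⟩, ⟨3, 1, false, []⟩, ⟨5, 1, false, []⟩], 76, 38752, 49152, 38752, 7556, 24576⟩, [7, 7, 0, 0], [4, 2])

/-- more steps -/
def preB9 : List (Cert × List ℕ × List ℕ) :=
  [(⟨7, 76, 7, [4, 2], 8, 6, [⟨1, 1, false, []⟩, ⟨3, 1, false, []⟩, ⟨5, 1, false, []⟩], 58, 7556, 24576, 7556, 179, 6144⟩, [4, 2], [2, 1, 1]),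
   (⟨7, 58, 7, [2, 0, 1, 1], 5, 6, [⟨1, 1, false, []⟩, ⟨3, 1, false, []⟩, ⟨5, 1, false, []⟩], 116, 179, 6144, 179, 2169, 3072⟩, [2, 1, 1, 0], [6, 2, 2]),
   (⟨7, 116, 7, [6, 0, 2, 0, 0, 2], 9, 6, [⟨1, 1, false, []⟩, ⟨3, 1, false, []⟩, ⟨5, 1, false, []⟩], 70, 2169, 3072, 2169, 749, 768⟩, [6, 2, 2, 0, 0, 0], [5, 1]),
   (⟨7, 70, 7, [0, 0, 5, 0, 0, 1], 11, 6, [⟨1, 1, false, []⟩, ⟨3, 1, false, []⟩, ⟨5, 1, false, []⟩], 114, 749, 768, 749, 97, 192⟩, [5, 1, 0, 0, 0, 0], [6, 3, 1]),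
   (⟨7, 114, 7, [6, 3, 0, 0, 1], 7, 6, [⟨1, 1, false, []⟩, ⟨3, 1, false, []⟩, ⟨5, 1, false, []⟩], 78, 97, 192, 97, 40, 48⟩, [6, 3, 1, 0, 0], [7, 1]),
   (⟨7, 78, 7, [7, 0, 0, 1], 10, 6, [⟨1, 1, false, []⟩, ⟨3, 3, true, []⟩, ⟨5, 1, false, []⟩], 0, 40, 48, 40, 13, 48⟩, [7, 1, 0, 0], []),
   (⟨7, 0, 1, [], 1, 6, [⟨3, 3, true, []⟩, ⟨5, 5, true, []⟩, ⟨7, 7, true, []⟩], 58, 13, 48, 13, 14, 48⟩, [], [2, 1, 1]),
   (⟨1, 58, 7, [2, 1, 0, 1], 8, 6, [⟨1, 1, false, []⟩, ⟨3, 1, false, []⟩, ⟨5, 1, false, [2]⟩], 54, 14, 48, 14, 7, 12⟩, [2, 1, 1, 0], [3, 1]),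
   (⟨7, 54, 7, [0, 0, 3, 0, 0, 1], 7, 6, [⟨1, 1, false, []⟩, ⟨3, 3, true, []⟩, ⟨5, 1, false, []⟩], 100, 7, 12, 7, 5, 6⟩, [3, 1, 0, 0, 0, 0], [5, 1, 1, 1]),
   (⟨7, 100, 7, [5, 1, 1, 1], 5, 6, [⟨1, 1, false, []⟩, ⟨3, 1, false, []⟩, ⟨5, 1, false, []⟩], 88, 5, 6, 5, 2, 6⟩, [5, 1, 1, 1], [6, 2])]

/-- the cycle -/
def cyc9 : List (Cert × List ℕ × List ℕ) :=
  [(⟨7, 88, 7, [2, 6], 8, 6, [⟨1, 1, false, []⟩, ⟨3, 1, false, []⟩, ⟨5, 1, false, []⟩], 88, 2, 6, 8, 2, 6⟩, [6, 2], [6, 2])]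

/-- first state -/
def st9 : ℕ × ℕ × ℕ × ℕ := (7, 86, 767, 1610612736)

/-- state of the cycle -/
def en9 : ℕ × ℕ × ℕ × ℕ := (7, 88, 2, 6)

/-- state before and after the failing step of base 9 -/
def ma9 : ℕ × ℕ × ℕ × ℕ := mid9.1.src

/-- state after the failing step of base 9 -/
def mb9 : ℕ × ℕ × ℕ × ℕ := mid9.1.tgt

theorem tabs5 : ∀ g ∈ B5.G, 0 < g ∧ tabOK B5.b g B5.Dm (B5.tab g) = true := by
  decide +kernel

theorem tabs9 : ∀ g ∈ B9.G, 0 < g ∧ tabOK B9.b g B9.Dm (B9.tab g) = true := by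
  decide +kernel

theorem preA5_ok : relChk B5 preA5 st5 en5 = true := by decide +kernel

theorem rel5 : relChk B5 cyc5 en5 en5 = true := by decide +kernel

theorem preA9_ok : relChk B9 preA9 st9 ma9 = true := by decide +kernel

theorem mid9_ok : stepChk B9 mid9.1 = true ∧ epsChk B9 mid9.1.D mid9.2.1 = true ∧
    mid9.2.1.length = mid9.1.W ∧ epsChk B9 mid9.1.D' mid9.2.2 = true ∧
    (mid9.2.1.map fun e => B9.b - 1 - e).count 1 ≠ (mid9.1.es.map fun e => B9.b - 1 - e).count 1 :=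
  by decide +kernel

theorem preB9_ok : relChk B9 preB9 mb9 en9 = true := by decide +kernel

theorem rel9 : relChk B9 cyc9 en9 en9 = true := by decide +kernel

end Pool.Agent.Lib.MP_4f9744_nt
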