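import Pool.Agent.Lib.MP_4f9744_nt.Four

/-!
# MP_4f9744_nt : the base 4.
-/

namespace Pool.Agent.Lib.MP_4f9744_nt

/-- a state of base 4 with its certificate -/
structure Cert4 where
  L : ℕ
  D : ℕ
  a : ℕ
  es : List ℕ
  comps : List Comp
  plus : List Comp
  es1 : List ℕ

/-- tables of base 4 -/
def tab4 : ℕ → ℕ
  | 1 => 2199023249185
  | 2 => 4835703278458508045782017
  | 3 => 10275547754995957457174466352589635585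
  | _ => 0

/-- data of base 4 -/
def B4 : Base where
  b := 4
  Dm := 40
  N0 := 14
  G := [1, 2, 3]
  tab := tab4
  A := [1, 2, 3]

/-- the minimal costs -/
def DS : List ℕ := [0, 5, 8, 10, 13, 15, 16, 20, 21]

/-- sorted strings -/
def srt : ℕ → List ℕ
  | 0 => []
  | 5 => [1]
  | 8 => [2]
  | 10 => [1, 1]
  | 13 => [2, 1]
  | 15 => [1, 1, 1]
  | 16 => [2, 2]
  | 20 => [1, 1, 1, 1]
  | 21 => [2, 2, 1]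
  | _ => []

/-- the 27 states -/
def certs4 : List Cert4 :=
  [⟨1, 0, 1, [], [⟨2, 2, true, []⟩, ⟨3, 3, true, []⟩], [⟨1, 1, false, []⟩, ⟨2, 2, false, [0]⟩, ⟨3, 3, true, []⟩], []⟩,
   ⟨1, 5, 3, [1], [⟨1, 1, false, []⟩, ⟨2, 1, false, [1]⟩], [⟨1, 1, false, []⟩, ⟨2, 1, false, []⟩, ⟨3, 1, false, []⟩], [1]⟩,
   ⟨1, 8, 1, [2], [⟨2, 2, true, []⟩, ⟨3, 3, true, []⟩], [⟨1, 1, false, []⟩, ⟨2, 1, false, []⟩, ⟨3, 3, true, []⟩], [2]⟩,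
   ⟨1, 10, 2, [1], [⟨1, 1, false, []⟩, ⟨3, 3, true, []⟩], [⟨1, 1, false, []⟩, ⟨2, 1, false, []⟩, ⟨3, 3, true, []⟩], [1, 1]⟩,
   ⟨1, 13, 2, [2], [⟨1, 1, false, []⟩, ⟨3, 3, true, []⟩], [⟨1, 1, false, []⟩, ⟨2, 1, false, []⟩, ⟨3, 3, true, []⟩], [2, 1]⟩,
   ⟨1, 15, 2, [1, 1], [⟨1, 1, false, []⟩, ⟨3, 3, true, []⟩], [⟨1, 1, false, []⟩, ⟨2, 1, false, []⟩, ⟨3, 3, true, []⟩], [1, 1, 1]⟩,
   ⟨1, 16, 3, [2, 2], [⟨1, 1, false, []⟩, ⟨2, 2, true, []⟩], [⟨1, 1, false, []⟩, ⟨2, 1, false, []⟩, ⟨3, 1, false, []⟩], [2, 2]⟩,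
   ⟨1, 20, 3, [1, 1, 1, 1], [⟨1, 1, false, []⟩, ⟨2, 1, false, [1]⟩], [⟨1, 1, false, []⟩, ⟨2, 1, false, []⟩, ⟨3, 1, false, []⟩], [1, 1, 1, 1]⟩,
   ⟨1, 21, 2, [2, 2], [⟨1, 1, false, []⟩, ⟨3, 3, true, []⟩], [⟨1, 1, false, []⟩, ⟨2, 1, false, []⟩, ⟨3, 3, true, []⟩], [2, 2, 1]⟩,
   ⟨2, 0, 1, [], [⟨2, 2, true, []⟩, ⟨3, 3, true, []⟩], [⟨1, 1, false, []⟩, ⟨2, 1, false, []⟩, ⟨3, 3, true, []⟩], []⟩,
   ⟨2, 5, 2, [], [⟨1, 1, false, []⟩, ⟨3, 3, true, []⟩], [⟨1, 1, false, []⟩, ⟨2, 1, false, []⟩, ⟨3, 3, true, []⟩], [1]⟩,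
   ⟨2, 8, 3, [2], [⟨1, 1, false, []⟩, ⟨2, 2, true, []⟩], [⟨1, 1, false, []⟩, ⟨2, 1, false, []⟩, ⟨3, 1, false, []⟩], [2]⟩,
   ⟨2, 10, 3, [1, 1], [⟨1, 1, false, []⟩, ⟨2, 1, false, []⟩], [⟨1, 1, false, []⟩, ⟨2, 1, false, []⟩, ⟨3, 1, false, []⟩], [1, 1]⟩,
   ⟨2, 13, 2, [2], [⟨1, 1, false, []⟩, ⟨3, 3, true, []⟩], [⟨1, 1, false, []⟩, ⟨2, 1, false, []⟩, ⟨3, 3, true, []⟩], [2, 1]⟩,
   ⟨2, 15, 2, [1, 1], [⟨1, 1, false, []⟩, ⟨3, 3, true, []⟩], [⟨1, 1, false, []⟩, ⟨2, 1, false, []⟩, ⟨3, 3, true, []⟩], [1, 1, 1]⟩,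
   ⟨2, 16, 1, [2, 2], [⟨2, 2, true, []⟩, ⟨3, 3, true, []⟩], [⟨1, 1, false, []⟩, ⟨2, 1, false, []⟩, ⟨3, 1, false, []⟩], [2, 2]⟩,
   ⟨2, 20, 2, [1, 1, 1], [⟨1, 1, false, []⟩, ⟨3, 3, true, []⟩], [⟨1, 1, false, []⟩, ⟨2, 1, false, []⟩, ⟨3, 3, true, []⟩], [1, 1, 1, 1]⟩,
   ⟨2, 21, 3, [2, 2, 1], [⟨1, 1, false, []⟩, ⟨2, 1, false, []⟩], [⟨1, 1, false, []⟩, ⟨2, 1, false, []⟩, ⟨3, 1, false, []⟩], [2, 2, 1]⟩,
   ⟨3, 0, 3, [], [⟨1, 1, false, []⟩, ⟨2, 2, true, []⟩], [⟨1, 1, false, []⟩, ⟨2, 1, false, []⟩, ⟨3, 1, false, []⟩], []⟩,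
   ⟨3, 5, 2, [], [⟨1, 1, false, []⟩, ⟨3, 3, true, []⟩], [⟨1, 1, false, []⟩, ⟨2, 1, false, []⟩, ⟨3, 3, true, []⟩], [1]⟩,
   ⟨3, 8, 1, [2], [⟨2, 2, true, []⟩, ⟨3, 3, true, []⟩], [⟨1, 1, false, []⟩, ⟨2, 1, false, []⟩, ⟨3, 3, true, []⟩], [2]⟩,
   ⟨3, 10, 2, [1], [⟨1, 1, false, []⟩, ⟨3, 3, true, []⟩], [⟨1, 1, false, []⟩, ⟨2, 1, false, []⟩, ⟨3, 3, true, []⟩], [1, 1]⟩,
   ⟨3, 13, 3, [2, 1], [⟨1, 1, false, []⟩, ⟨2, 1, false, []⟩], [⟨1, 1, false, []⟩, ⟨2, 1, false, []⟩, ⟨3, 1, false, []⟩], [2, 1]⟩,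
   ⟨3, 15, 3, [1, 1, 1], [⟨1, 1, false, []⟩, ⟨2, 1, false, []⟩], [⟨1, 1, false, []⟩, ⟨2, 1, false, []⟩, ⟨3, 1, false, []⟩], [1, 1, 1]⟩,
   ⟨3, 16, 1, [2, 2], [⟨2, 2, true, []⟩, ⟨3, 3, true, []⟩], [⟨1, 1, false, []⟩, ⟨2, 1, false, []⟩, ⟨3, 3, true, []⟩], [2, 2]⟩,
   ⟨3, 20, 2, [1, 1, 1], [⟨1, 1, false, []⟩, ⟨3, 3, true, []⟩], [⟨1, 1, false, []⟩, ⟨2, 1, false, []⟩, ⟨3, 3, true, []⟩], [1, 1, 1, 1]⟩,
   ⟨3, 21, 2, [2, 2], [⟨1, 1, false, []⟩, ⟨3, 3, true, []⟩], [⟨1, 1, false, []⟩, ⟨2, 1, false, []⟩, ⟨3, 1, false, []⟩], [2, 2, 1]⟩]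

/-- check of one competitor -/
def wChk (B : Base) (L D a P W s o : ℕ) (C : Comp) : Bool :=
  B.G.contains C.g && (C.a % C.g == 0) && perOK B.b C.g o &&
  (if C.inf then !(Tb C.g (B.tab C.g) D (rhoOf B.b C.g L s))
   else (Nat.ble C.es.length W &&
      chk B.b C.g (B.tab C.g) C.es s D (rhoOf B.b C.g L s) &&
      Nat.ble (C.a * P + 1)
        (a * ((L + 1) * B.b ^ C.es.length - (bv B.b C.es + 1)) * B.b ^ (W - C.es.length))))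

theorem wChk_sound {B : Base} (hb : 2 ≤ B.b)
    (hG : ∀ g ∈ B.G, 0 < g ∧ tabOK B.b g B.Dm (B.tab g) = true)
    {L D a P W s o n C' : ℕ} {C : Comp} (h : wChk B L D a P W s o C = true)
    (hD : D ≤ B.Dm) (hWn : W + 1 ≤ n) (hWs : W + 1 ≤ s) (hno : n % o = s % o)
    (hab : C.a < B.b) (hsize : a * B.b * C' < B.b ^ (n - W)) :
    Worse B.b n L D a P (n - W) C' C.a := by
  unfold wChk at h
  simp only [Bool.and_eq_true, beq_iff_eq] at h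
  obtain ⟨⟨⟨hCG, hCd⟩, hCp⟩, hCc⟩ := h
  have hCG' : C.g ∈ B.G := by simpa using hCG
  obtain ⟨hg0, htab⟩ := hG C.g hCG'
  have hTg := tab_sound hb hg0 htab
  have hps := per_sub hCp hWn hWs hno
  by_cases hinf : C.inf = true
  · rw [if_pos hinf] at hCc
    refine worse_of_inf hg0 hTg hD (Nat.dvd_of_mod_eq_zero hCd) (rho := rhoOf B.b C.g L s)
      ?_ (by simpa using hCc)
    have h9 : ((L + 1) * B.b ^ n + (C.g - 1)) % C.g = rhoOf B.b C.g L s % C.g :=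
      rho_eq (hps 0 (by omega))
    rw [h9]
    unfold rhoOf
    rw [Nat.mod_mod]
  · rw [if_neg hinf] at hCc
    simp only [Bool.and_eq_true, Nat.ble_eq] at hCc
    obtain ⟨⟨hCl, hCk⟩, hCn⟩ := hCc
    exact worse_of_chk hb hg0 hTg hD hCl (by omega) (fun j _ h3 => hps j (by omega))
      (Nat.dvd_of_mod_eq_zero hCd) (rho_eq (hps 0 (by omega))) hCk hCn hab hsize

def Cert4.W (c : Cert4) : ℕ := c.es.length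

def Cert4.P (c : Cert4) : ℕ := (c.L + 1) * 4 ^ c.W - bv 4 c.es

def Cert4.cc (c : Cert4) : ℕ := if c.a = 2 then (c.D - 5) / 9 + 1 else c.D / 9 + 1

def listChk (B : Base) (A : List ℕ) (Cs : List Comp) (f : Comp → Bool) : Bool :=
  A.all fun a' => Cs.any fun C => (C.a == a') && f C

/-- all conditions on a state of base 4 -/
def chk4 (c : Cert4) : Bool :=
  Nat.blt 0 c.L && Nat.blt c.L 4 && Nat.blt 0 c.a && Nat.blt c.a 4 && Nat.ble (c.D + 9) 40 &&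
  Nat.ble (c.W + c.cc + 6) 14 && (c.es.all fun e => Nat.blt e 4) &&
  (if c.a = 2 then chk 4 1 (tab4 1) c.es 0 (c.D - 5) 0 && (wc 4 c.es + 5 == c.D) &&
      (Nat.blt c.D 9 || !(Tb 1 (tab4 1) (c.D - 9) 0))
    else chk 4 c.a (tab4 c.a) c.es (c.W + 1) c.D (rhoOf 4 c.a c.L (c.W + 1)) &&
      (wc 4 c.es == c.D)) &&
  (if c.a = 3 then c.P % 3 == 1 else true) &&
  ([1, 2, 3].all fun a' => (a' == c.a) || c.comps.any fun C => (C.a == a') &&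
    wChk B4 c.L c.D c.a c.P c.W (c.W + 1) 1 C) &&
  ([1, 2, 3].all fun a' => c.plus.any fun C => (C.a == a') &&
    wChk B4 c.L (c.D + 9) c.a c.P (c.W + 1) (c.W + 2) 1 C) &&
  epsChk B4 c.D c.es1 &&
  (if c.a = 2 then c.es1.isPerm (c.es ++ [1]) else c.es1.isPerm c.es)

theorem tabs4 : ∀ g ∈ B4.G, 0 < g ∧ tabOK B4.b g B4.Dm (B4.tab g) = true := by
  decide +kernel

theorem all4 : ∀ c ∈ certs4, chk4 c = true := by decide +kernel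

theorem states4 : ∀ a ∈ [1, 2, 3], ∀ D ∈ DS, ∃ c ∈ certs4, c.L = a ∧ c.D = D := by
  decide +kernel

theorem ds_min : ∀ D ∈ DS, D ≤ 21 ∧ epsChk B4 D (srt D) = true ∧
    ∀ j < 3, 1 ≤ j → j * 9 ≤ D → Tb 1 (tab4 1) (D - j * 9) 0 = false := by
  decide +kernel

theorem ds_res : ∀ a ∈ [1, 2, 3], ∀ z < 9, ∃ D ∈ DS, (z + D) % 9 = a ^ 2 % 9 := by
  decide +kernel

theorem valid4 : B4.Valid where
  hb := by decide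
  hG := tabs4
  hA := by
    intro k x hx
    obtain ⟨n, L, r, h1, h2, h3, h4⟩ := exists_lead (b := 4) (by norm_num) hx.1
    show lead 4 x ∈ [1, 2, 3]
    rw [h4, (digits_lead (by norm_num) h1 h2 n r h3).1]
    simp only [List.mem_cons, List.not_mem_nil, or_false]
    omega
  h1 := by decide


end Pool.Agent.Lib.MP_4f9744_nt
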