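import Mathlib

/-!
# MP_4f9744_nt : elated numbers in base `b`, definitions.
-/

namespace Pool.Agent.Lib.MP_4f9744_nt

/-- The leading base-`b` digit of `x`. -/
def lead (b x : ℕ) : ℕ := (Nat.digits b x).getLastD 0

/-- The sum of the squares of all base-`b` digits of `x`. -/
def sumSq (b x : ℕ) : ℕ := ((Nat.digits b x).map (fun d => d ^ 2)).sum

/-- The `b`-elated function: leading digit times the sum of the squares of all digits. -/
def elat (b x : ℕ) : ℕ := lead b x * sumSq b x

/-- `x` is a positive integer which is `b`-elated of height `k`. -/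
def HasHeight (b k x : ℕ) : Prop :=
  0 < x ∧ (elat b)^[k] x = 1 ∧ ∀ j < k, (elat b)^[j] x ≠ 1

/-- `x` is the least `b`-elated number of height `k`. -/
def IsEps (b k x : ℕ) : Prop := IsLeast {z : ℕ | HasHeight b k z} x

/-- The digit relation at `k`: the digits of the least number of height `k` are a permutation of
the digits of the image of the least number of height `k + 1` (both numbers exist). -/
def DigitRel (b k : ℕ) : Prop :=
  ∃ x y : ℕ, IsEps b k x ∧ IsEps b (k + 1) y ∧
    (Nat.digits b x).Perm (Nat.digits b (elat b y))

/-- The statement of Q2 for the base `b`. -/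
def Eventually (b : ℕ) : Prop := ∃ N : ℕ, ∀ k > N, DigitRel b k

end Pool.Agent.Lib.MP_4f9744_nt
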