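import Pool.Agent.Lib.MP_4f9744_nt.Base4

/-!
# MP_4f9744_nt : the relation holds eventually in base 4.
-/

namespace Pool.Agent.Lib.MP_4f9744_nt

theorem low4 : ∀ a < 4, ∀ S < 100, (htb 4 4 10 (a * (a ^ 2 + S)) = true) →
    (a = 0 ∨ (a = 3 ∧ S = 69)) := by decide +kernel

theorem start4 : StS 4 11 10 3 21 := by
  have hb : 2 ≤ 4 := by norm_num
  constructor
  · intro l hl hw
    have hE : elat 4 ((3 + 1) * 4 ^ 10 - 1 - l) = 3 * 78 :=
      elat_of_cost hb (by norm_num) (by norm_num) hl hw (by norm_num)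
    rw [height_succ' hb, hE]
    refine ⟨by omega, by omega, ?_⟩
    rw [← htb_spec (f := 4) hb (by norm_num) 10 _ (by norm_num) (by norm_num)]
    decide +kernel
  · intro x hx hlt
    obtain ⟨m, a, r, h1, h2, h3, h4⟩ := exists_lead hb hx.1
    have h5 := ((height_succ' hb).1 hx).2.2
    rw [h4, elat_eq hb h1 h2 m r h3] at h5
    have hm : m < 12 := by
      by_contra hcon
      have h6 : 4 ^ 12 ≤ 4 ^ m := Nat.pow_le_pow_right (by norm_num) (by omega)
      have h7 : 1 * 4 ^ m ≤ a * 4 ^ m := Nat.mul_le_mul_right _ h1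
      omega
    have hS := sqd_le hb m r
    norm_num at hS
    have hlt2 : a * (a ^ 2 + sqd 4 m r) < 4 ^ (4 + 1) := by
      calc a * (a ^ 2 + sqd 4 m r) ≤ 3 * (3 ^ 2 + 99) := by
            apply Nat.mul_le_mul (by omega)
            apply Nat.add_le_add _ (by omega)
            exact Nat.pow_le_pow_left (by omega) 2
        _ < 4 ^ (4 + 1) := by norm_num
    have h8 := (htb_spec (f := 4) hb (by norm_num) 10 _ h5.1 hlt2).2 h5
    rcases low4 a h2 _ (by omega) h8 with h9 | ⟨h9, h10⟩
    · omega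
    · subst h9
      have hp : 0 < 4 ^ m := Nat.pow_pos (by norm_num)
      have h7 : sqd 4 m r + wl 4 m (4 ^ m - 1 - r) = m * (4 - 1) ^ 2 := by
        have h11 := sqd_compl hb m (4 ^ m - 1 - r) (by omega)
        have h12 : 4 ^ m - 1 - (4 ^ m - 1 - r) = r := by omega
        rwa [h12] at h11
      norm_num at h7
      have hT := tab_sound (b := 4) (g := 1) (Dm := 40) (big := tab4 1) hb (by norm_num)
        ((tabs4 1 (by decide)).2) m (4 ^ m - 1 - r) (by omega) (by omega)
      rw [Nat.mod_one] at hT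
      have hcase : m = 8 ∨ m = 9 ∨ m = 10 ∨ m = 11 := by omega
      rcases hcase with hc | hc | hc | hc
      · exfalso
        have : wl 4 m (4 ^ m - 1 - r) = 3 := by omega
        rw [this] at hT
        revert hT
        decide +kernel
      · exfalso
        have : wl 4 m (4 ^ m - 1 - r) = 12 := by omega
        rw [this] at hT
        revert hT
        decide +kernel
      · left
        subst hc
        exact ⟨4 ^ 10 - 1 - r, by omega, by omega, by omega⟩
      · right
        subst hc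
        refine ⟨4 ^ 11 - 1 - r, by omega, by omega, ?_⟩
        show wl 4 11 (4 ^ 11 - 1 - r) = 21 + (4 - 1) ^ 2
        norm_num
        norm_num at h7
        omega

theorem states_ex : ∃ c ∈ certs4, c.L = 3 ∧ c.D = 21 ∧ c.a = 2 ∧ c.P = 54 ∧ c.W = 2 ∧ c.cc = 2 := by
  decide +kernel

theorem second4 : StS 4 12 196608 2 5 := by
  obtain ⟨c, hmem, hL, hD, ha, hP, hW, hcc⟩ := states_ex
  have hst := start4
  rw [← hL, ← hD] at hst
  have h := core4 (all4 c hmem) (ys := 3538942) (D' := 5) (n' := 196608) (by omega) hst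
    (Or.inl ⟨ha, by rw [hP, hW]; norm_num⟩) (by decide) (by rw [ha]; norm_num) (by norm_num)
    (by rw [ha, hW, hcc]; norm_num)
  rw [ha] at h
  exact h.2

theorem reach4 : ∀ j, ∃ n a D, 14 ≤ n ∧ a ∈ [1, 2, 3] ∧ D ∈ DS ∧ StS 4 (12 + j) n a D
  | 0 => ⟨196608, 2, 5, by norm_num, by decide, by decide, second4⟩
  | j + 1 => by
    obtain ⟨n, a, D, hn, ha, hD, hst⟩ := reach4 j
    obtain ⟨c, hmem, hL, hD'⟩ := states4 a ha D hD
    subst hL
    subst hD'
    exact (next4 hmem hn hst).1

theorem ev4 : ∀ k, 12 ≤ k → DigitRel 4 k := by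
  intro k hk
  obtain ⟨j, rfl⟩ := Nat.exists_eq_add_of_le hk
  obtain ⟨n, a, D, hn, ha, hD, hst⟩ := reach4 j
  obtain ⟨c, hmem, hL, hD'⟩ := states4 a ha D hD
  subst hL
  subst hD'
  exact (next4 hmem hn hst).2

end Pool.Agent.Lib.MP_4f9744_nt
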