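import Mathlib

/-!
# MP_4f9744_nt : the sets of exceptional heights in the bases 4, 5 and 9.
-/

namespace Pool.Agent.Lib.MP_4f9744_nt

/-- The heights at which the digit relation fails, for the bases 4, 5, 9 (a finite set;
irrelevant for the other values). -/
def exc : ℕ → Finset ℕ
  | 4 => {1, 3, 6, 8}
  | 5 => {2, 3, 5, 6}
  | 9 => {2, 16}
  | _ => ∅

end Pool.Agent.Lib.MP_4f9744_nt
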