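import Pool.Agent.Lib.MP_4f9744_nt.Small

/-!
# MP_4f9744_nt : the relation for explicitly given least elements.
-/

namespace Pool.Agent.Lib.MP_4f9744_nt

/-- digits with fuel -/
def dg (b : ℕ) : ℕ → ℕ → List ℕ
  | 0, _ => []
  | f + 1, x => if x = 0 then [] else (x % b) :: dg b f (x / b)

theorem dg_spec {b : ℕ} (hb : 2 ≤ b) : ∀ (f x : ℕ), x < b ^ f → dg b f x = Nat.digits b x
  | 0, x, h => by
    have : x = 0 := by simpa using h
    subst this
    simp [dg]
  | f + 1, x, h => by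
    unfold dg
    by_cases hx : x = 0
    · rw [if_pos hx, hx]
      simp
    · rw [if_neg hx, Nat.digits_def' (by omega) (Nat.pos_of_ne_zero hx)]
      congr 1
      apply dg_spec hb f
      rw [Nat.div_lt_iff_lt_mul (by omega)]
      rwa [pow_succ] at h

/-- test for the least element of height `k` -/
def leastb (b f k x : ℕ) : Bool :=
  Nat.blt 0 x && Nat.blt x (b ^ (f + 1)) && htb b f k x &&
    (List.range x).all fun z => (z == 0) || !(htb b f k z)

theorem leastb_spec {b f k x : ℕ} (hb : 2 ≤ b)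
    (hf : (b - 1) * ((f + 1) * (b - 1) ^ 2) < b ^ (f + 1)) (h : leastb b f k x = true) :
    IsEps b k x := by
  unfold leastb at h
  simp only [Bool.and_eq_true, Nat.blt_eq] at h
  obtain ⟨⟨⟨h0, h1⟩, h2⟩, h3⟩ := h
  refine ⟨(htb_spec hb hf k x h0 h1).1 h2, ?_⟩
  intro z hz
  have hz : HasHeight b k z := hz
  by_contra hcon
  have h4 : z < x := by omega
  rw [List.all_eq_true] at h3
  have h5 := h3 z (by rw [List.mem_range]; exact h4)
  rw [Bool.or_eq_true, beq_iff_eq] at h5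
  rcases h5 with h5 | h5
  · have := hz.1
    omega
  · rw [(htb_spec hb hf k z hz.1 (by omega)).2 hz] at h5
    simp at h5

/-- test of the relation for two given numbers -/
def relb (b f x y : ℕ) : Bool := (dg b (f + 1) x).isPerm (dg b (f + 1) (Ea b f y 0))

theorem relb_spec {b f k x y : ℕ} (hb : 2 ≤ b)
    (hf : (b - 1) * ((f + 1) * (b - 1) ^ 2) < b ^ (f + 1))
    (hx : leastb b f k x = true) (hy : leastb b f (k + 1) y = true) :
    DigitRel b k ↔ relb b f x y = true := by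
  rw [rel_iff (leastb_spec hb hf hx) (leastb_spec hb hf hy)]
  unfold leastb at hx hy
  simp only [Bool.and_eq_true, Nat.blt_eq] at hx hy
  unfold relb
  rw [List.isPerm_iff, dg_spec hb (f + 1) x hx.1.1.2]
  have h1 : Ea b f y 0 = elat b y := by
    rw [Ea_spec hb f y 0 hy.1.1.1 hy.1.1.2, Nat.zero_add]
    rfl
  rw [h1, dg_spec hb (f + 1) _ (elat_lt hb hf hy.1.1.1 hy.1.1.2)]

/-- the least elements of base 4, heights 0 to 10 -/
def e4 : List ℕ := [1, 4, 10, 7, 26, 11, 23, 3, 21, 63, 234]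

theorem e4_ok : ∀ k < 11, leastb 4 4 k (e4.getD k 0) = true := by decide +kernel

theorem r4_ok : ∀ k < 10, relb 4 4 (e4.getD k 0) (e4.getD (k + 1) 0) =
    decide (k ≠ 1 ∧ k ≠ 3 ∧ k ≠ 6 ∧ k ≠ 8) := by decide +kernel

theorem small4 {k : ℕ} (hk : k < 10) :
    DigitRel 4 k ↔ (k ≠ 1 ∧ k ≠ 3 ∧ k ≠ 6 ∧ k ≠ 8) := by
  rw [relb_spec (f := 4) (by norm_num) (by norm_num) (e4_ok k (by omega))
    (e4_ok (k + 1) (by omega)), r4_ok k hk, decide_eq_true_iff]

/-- the least elements of base 5, heights 0 to 6 -/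
def e5 : List ℕ := [1, 5, 7, 3, 19, 43, 499]

theorem e5_ok : ∀ k < 7, leastb 5 4 k (e5.getD k 0) = true := by decide +kernel

theorem r5_ok : ∀ k < 6, relb 5 4 (e5.getD k 0) (e5.getD (k + 1) 0) =
    decide (k ≠ 2 ∧ k ≠ 3 ∧ k ≠ 5) := by decide +kernel

theorem small5 {k : ℕ} (hk : k < 6) :
    DigitRel 5 k ↔ (k ≠ 2 ∧ k ≠ 3 ∧ k ≠ 5) := by
  rw [relb_spec (f := 4) (by norm_num) (by norm_num) (e5_ok k (by omega))
    (e5_ok (k + 1) (by omega)), r5_ok k hk, decide_eq_true_iff]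

/-- the least elements of base 9, heights 0 to 6 -/
def e9 : List ℕ := [1, 9, 101, 5, 11, 93, 1275]

theorem e9_ok : ∀ k < 7, leastb 9 5 k (e9.getD k 0) = true := by decide +kernel

theorem r9_ok : ∀ k < 6, relb 9 5 (e9.getD k 0) (e9.getD (k + 1) 0) =
    decide (k ≠ 2) := by decide +kernel

theorem small9 {k : ℕ} (hk : k < 6) : DigitRel 9 k ↔ k ≠ 2 := by
  rw [relb_spec (f := 5) (by norm_num) (by norm_num) (e9_ok k (by omega))
    (e9_ok (k + 1) (by omega)), r9_ok k hk, decide_eq_true_iff]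

end Pool.Agent.Lib.MP_4f9744_nt
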