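import Pool.Agent.Lib.MP_4f9744_nt.Odd
import Pool.Agent.Lib.MP_4f9744_nt.Ev4
import Pool.Agent.Lib.MP_4f9744_nt.SmallRel
import Pool.Agent.Lib.MP_4f9744_nt.Exc

/-!
# MP_4f9744_nt : the exact sets of exceptions in the bases 4, 5 and 9.
-/

namespace Pool.Agent.Lib.MP_4f9744_nt

theorem reach_forever {B : Base} (hB : B.Valid) {cs : List (Cert × List ℕ × List ℕ)}
    {st : ℕ × ℕ × ℕ × ℕ} {k0 : ℕ} (h : relChk B cs st st = true)
    (hr : Reach B k0 st) : ∀ t, Reach B (k0 + t * cs.length) st := by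
  intro t
  induction t with
  | zero => simpa using hr
  | succ t ih =>
    have h2 := (rel_chain hB cs st st _ h ih).2
    have h3 : k0 + (t + 1) * cs.length = k0 + t * cs.length + cs.length := by ring
    rw [h3]
    exact h2

/-- a chain passes through the sources of its certificates -/
theorem chain_src {B : Base} (hB : B.Valid) : ∀ (cs : List (Cert × List ℕ × List ℕ))
    (st en : ℕ × ℕ × ℕ × ℕ) (k : ℕ), relChk B cs st en = true → Reach B k st →
    ∀ i c, (cs.map Prod.fst)[i]? = some c → Reach B (k + i) c.src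
  | [], st, en, k, _, _, i, c, hi => by simp at hi
  | (c0, e1, e2) :: cs, st, en, k, h, hr, i, c, hi => by
    unfold relChk at h
    simp only [Bool.and_eq_true, beq_iff_eq] at h
    obtain ⟨⟨⟨⟨⟨⟨h1, h2⟩, h3⟩, h4⟩, h5⟩, h6⟩, h7⟩ := h
    subst h1
    cases i with
    | zero =>
      simp only [List.map_cons, List.getElem?_cons_zero, Option.some.injEq] at hi
      subst hi
      exact hr
    | succ i =>
      have hi' : (cs.map Prod.fst)[i]? = some c := by simpa using hi
      have h8 := chain_src hB cs c0.tgt en (k + 1) h7 (reach_step hB h2 hr) i c hi'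
      have h9 : k + (i + 1) = k + 1 + i := by omega
      rw [h9]
      exact h8

theorem reach_shape {B : Base} (hB : B.Valid) {k : ℕ} {st : ℕ × ℕ × ℕ × ℕ}
    (h : Reach B k st) {es : List ℕ} (hL0 : 0 < st.1) (hLb : st.1 < B.b)
    (he : epsChk B st.2.1 es = true) :
    ∃ m x, IsEps B.b k x ∧ Nat.digits B.b x = List.replicate m (B.b - 1) ++
      ((es.reverse.map fun e => B.b - 1 - e) ++ [st.1]) := by
  obtain ⟨n, h1, _, h3⟩ := h
  obtain ⟨x, hx, hx1, _⟩ := eps_of_chk hB h3 h1 hL0 hLb he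
  have hdig : (es.all fun e => Nat.blt e B.b) = true := by
    unfold epsChk at he
    simp only [Bool.and_eq_true] at he
    exact he.1.1.2
  refine ⟨n - es.length, x, hx, ?_⟩
  rw [digits_form hB.hb hL0 hdig hx1, Nat.digits_of_lt B.b st.1 (by omega) hLb]

/-! ### base 5 -/

theorem reach5 : (∀ i < 6, DigitRel 5 (7 + i)) ∧ Reach B5 13 en5 := by
  have h0 : Reach B5 7 st5 := ⟨18, le_rfl, rfl, start5⟩
  exact rel_chain valid5 preA5 st5 en5 7 preA5_ok h0

theorem ev5 : ∀ k, 7 ≤ k → DigitRel 5 k := by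
  intro k hk
  rcases Nat.lt_or_ge k 13 with h | h
  · have h1 := reach5.1 (k - 7) (by omega)
    have h2 : 7 + (k - 7) = k := by omega
    rwa [h2] at h1
  · exact rel_forever valid5 rel5 (by decide) reach5.2 k h

theorem eps7_5 : ∃ x, IsEps 5 7 x ∧ elat 5 x = 849 := by
  obtain ⟨x, hx, _, hx2, hx3, hx4⟩ := eps_gen (B := B5) (es := [1, 1]) valid5 start5
    (by norm_num) (by decide) (by decide +kernel) (by decide) (by decide) (by decide) (by decide)
  refine ⟨x, hx, ?_⟩
  rw [hx2]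
  exact elat_of_cost (b := 5) (L := 3) (by norm_num) (by norm_num) (by norm_num) hx3 hx4
    (y := 283) (by norm_num)

theorem not6_5 : ¬ DigitRel 5 6 := by
  obtain ⟨x, hx, hE⟩ := eps7_5
  have h1 : IsEps 5 6 499 := leastb_spec (f := 4) (by norm_num) (by norm_num) (e5_ok 6 (by norm_num))
  rw [rel_iff h1 hx, hE]
  intro h
  have h2 := h.length_eq
  rw [← dg_spec (by norm_num) 5 499 (by norm_num), ← dg_spec (by norm_num) 5 849 (by norm_num)]
    at h2
  revert h2
  decide +kernel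

theorem all5 (k : ℕ) : DigitRel 5 k ↔ (k ≠ 2 ∧ k ≠ 3 ∧ k ≠ 5 ∧ k ≠ 6) := by
  rcases Nat.lt_or_ge k 6 with h | h
  · rw [small5 h]
    omega
  · rcases Nat.eq_or_lt_of_le h with h' | h'
    · subst h'
      exact ⟨fun h1 => absurd h1 not6_5, fun h1 => absurd rfl h1.2.2.2⟩
    · exact ⟨fun _ => by omega, fun _ => ev5 k h'⟩

/-- the last digits (little-endian, leading digit last) in base 5 -/
def T5 : ℕ → List ℕ
  | 0 => [3, 1, 3]
  | 1 => [3, 3, 1]
  | 2 => [3, 3, 3, 1, 3]
  | 3 => [3, 1, 3]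
  | _ => [2, 3]

theorem shape5 (k : ℕ) (hk : 13 ≤ k) : ∃ m x, IsEps 5 k x ∧
    Nat.digits 5 x = List.replicate m 4 ++ T5 (k % 5) := by
  obtain ⟨j, rfl⟩ := Nat.exists_eq_add_of_le hk
  have h1 := reach_forever valid5 rel5 reach5.2 (j / 5)
  have h2 : (13 : ℕ) + j / 5 * cyc5.length + j % 5 = 13 + j := by
    have : cyc5.length = 5 := rfl
    rw [this]
    omega
  have h3 := chain_src valid5 cyc5 en5 en5 _ rel5 h1 (j % 5)
  rw [h2] at h3
  have h4 : (13 + j) % 5 = (3 + j % 5) % 5 := by omega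
  rw [h4]
  have h5 : j % 5 < 5 := Nat.mod_lt _ (by norm_num)
  generalize j % 5 = i at h3 h5
  interval_cases i
  · exact reach_shape valid5 (h3 _ rfl) (es := [3, 1]) (by decide) (by decide) (by decide +kernel)
  · exact reach_shape valid5 (h3 _ rfl) (es := [2]) (by decide) (by decide) (by decide +kernel)
  · exact reach_shape valid5 (h3 _ rfl) (es := [3, 1]) (by decide) (by decide) (by decide +kernel)
  · exact reach_shape valid5 (h3 _ rfl) (es := [1, 1]) (by decide) (by decide) (by decide +kernel)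
  · exact reach_shape valid5 (h3 _ rfl) (es := [3, 1, 1, 1]) (by decide) (by decide)
      (by decide +kernel)

/-! ### base 9 -/

theorem reach8_9 : Reach B9 8 st9 := by
  refine ⟨767, ?_, ?_, start9⟩
  · show 30 ≤ 767
    norm_num
  · show 767 % st9.2.2.2 = st9.2.2.1 % st9.2.2.2
    unfold st9
    norm_num

theorem reach16_9 : (∀ i < 8, DigitRel 9 (8 + i)) ∧ Reach B9 16 ma9 := by
  have h := rel_chain valid9 preA9 st9 ma9 8 preA9_ok reach8_9
  have h2 : preA9.length = 8 := by decide +kernel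
  rw [h2] at h
  exact h

theorem not16_9 : ¬ DigitRel 9 16 := by
  obtain ⟨h1, h2, h3, h4, h5⟩ := mid9_ok
  obtain ⟨n, g1, g2, g3⟩ := reach16_9.2
  exact nrel_cert valid9 h1 h2 h3 1 h5 h4 g1 g2 g3

theorem reach17_9 : Reach B9 17 mb9 := reach_step valid9 mid9_ok.1 reach16_9.2

theorem reach27_9 : (∀ i < 10, DigitRel 9 (17 + i)) ∧ Reach B9 27 en9 := by
  have h := rel_chain valid9 preB9 mb9 en9 17 preB9_ok reach17_9
  have h2 : preB9.length = 10 := by decide +kernel
  rw [h2] at h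
  exact h

theorem ev9 : ∀ k, 17 ≤ k → DigitRel 9 k := by
  intro k hk
  rcases Nat.lt_or_ge k 27 with h | h
  · have h1 := reach27_9.1 (k - 17) (by omega)
    have h2 : 17 + (k - 17) = k := by omega
    rwa [h2] at h1
  · exact rel_forever valid9 rel9 (by decide +kernel) reach27_9.2 k h

theorem eps7_9 : IsEps 9 7 314117 := by
  have hb : 2 ≤ 9 := by norm_num
  constructor
  · show HasHeight 9 7 314117
    rw [← htb_spec (f := 5) hb (by norm_num) 7 _ (by norm_num) (by norm_num)]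
    decide +kernel
  · intro z hz
    have hz : HasHeight 9 7 z := hz
    by_contra hcon
    obtain ⟨l, hl, hzl, hw⟩ := level7 hz (by omega)
    obtain ⟨hg1, ht1⟩ := valid9.hG 1 valid9.h1
    have hT := tab_sound hb hg1 ht1
    have h2 := chk_sound (b := 9) (g := 1) (Dm := 153) (big := tab9 1) hb hg1 hT
      [6, 1, 1, 0, 0] 0 5 90 0 l (by decide +kernel) (by decide)
      (fun j _ _ => by rw [Nat.mod_one, Nat.mod_one]) hl hw (by norm_num)
      (by rw [Nat.mod_one, Nat.mod_one])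
    have h3 : bv 9 [6, 1, 1, 0, 0] = 40176 := by decide +kernel
    rw [h3] at h2
    rcases h2 with h2 | ⟨l', h2, h4, _⟩
    · norm_num at h2 hzl
      omega
    · norm_num at h2 h4 hzl
      omega

theorem eps8_9 : ∃ x, IsEps 9 8 x ∧ elat 9 x = 343357 := by
  obtain ⟨x, hx, _, hx2, hx3, hx4⟩ := eps_gen (B := B9) (es := [2, 2, 1, 1]) valid9 start9
    (by norm_num) (by decide) (by decide +kernel) (by decide) (by decide) (by decide)
    (by show 4 ≤ 767; norm_num)
  refine ⟨x, hx, ?_⟩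
  have h := elat_of_cost (b := B9.b) (L := 7) (y := 49051) valid9.hb (by norm_num) (by decide)
    hx3 hx4 (by show 49051 + 86 = 767 * (9 - 1) ^ 2 + 7 ^ 2; norm_num)
  rw [← hx2] at h
  exact h

theorem rel6_9 : DigitRel 9 6 := by
  have h1 : IsEps 9 6 1275 := leastb_spec (f := 5) (by norm_num) (by norm_num)
    (e9_ok 6 (by norm_num))
  rw [rel_iff h1 eps7_9]
  have h2 : elat 9 314117 = 1275 := by
    have h3 := Ea_spec (b := 9) (by norm_num) 5 314117 0 (by norm_num) (by norm_num)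
    have h4 : Ea 9 5 314117 0 = 1275 := by decide +kernel
    rw [h4, Nat.zero_add] at h3
    exact h3.symm
  rw [h2]

theorem rel7_9 : DigitRel 9 7 := by
  obtain ⟨x, hx, hE⟩ := eps8_9
  rw [rel_iff eps7_9 hx, hE, ← dg_spec (by norm_num) 6 314117 (by norm_num),
    ← dg_spec (by norm_num) 6 343357 (by norm_num), ← List.isPerm_iff]
  decide +kernel

theorem all9 (k : ℕ) : DigitRel 9 k ↔ (k ≠ 2 ∧ k ≠ 16) := by
  rcases Nat.lt_or_ge k 6 with h | h
  · rw [small9 h]
    omega
  · rcases Nat.lt_or_ge k 16 with h' | h'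
    · refine ⟨fun _ => by omega, fun _ => ?_⟩
      rcases Nat.lt_or_ge k 8 with h8 | h8
      · have : k = 6 ∨ k = 7 := by omega
        rcases this with h9 | h9
        · rw [h9]; exact rel6_9
        · rw [h9]; exact rel7_9
      · have h1 := reach16_9.1 (k - 8) (by omega)
        have h2 : 8 + (k - 8) = k := by omega
        rwa [h2] at h1
    · rcases Nat.eq_or_lt_of_le h' with h9 | h9
      · subst h9
        exact ⟨fun h1 => absurd h1 not16_9, fun h1 => absurd rfl h1.2⟩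
      · exact ⟨fun _ => by omega, fun _ => ev9 k h9⟩

theorem shape9 (k : ℕ) (hk : 27 ≤ k) : ∃ m x, IsEps 9 k x ∧
    Nat.digits 9 x = List.replicate m 8 ++ [6, 2, 7] := by
  obtain ⟨j, rfl⟩ := Nat.exists_eq_add_of_le hk
  have h1 := reach_forever valid9 rel9 reach27_9.2 j
  have h2 : cyc9.length = 1 := by decide +kernel
  rw [h2, Nat.mul_one] at h1
  exact reach_shape valid9 h1 (es := [6, 2]) (by decide +kernel) (by decide +kernel)
    (by decide +kernel)

/-! ### base 4 -/

theorem eps11_4 : ∃ x, IsEps 4 11 x ∧ elat 4 x = 234 ∧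
    x + 1 = 215 * 4 ^ 7 := by
  obtain ⟨x, hx, hx1, hx2, hx3, hx4⟩ := eps_gen (B := B4) (es := [2, 2, 1]) valid4 start4.toW
    (by norm_num) (by decide) (by decide +kernel) (by decide) (by decide) (by decide) (by decide)
  refine ⟨x, hx, ?_, ?_⟩
  · rw [hx2]
    exact elat_of_cost (b := 4) (L := 3) (by norm_num) (by norm_num) (by norm_num) hx3 hx4
      (y := 78) (by norm_num)
  · have h3 : ((3 + 1) * B4.b ^ [2, 2, 1].length - bv B4.b [2, 2, 1]) = 215 := by decide +kernel
    rw [h3] at hx1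
    exact hx1

theorem eps12_4 : ∃ x, IsEps 4 12 x ∧ elat 4 x = 3538942 := by
  obtain ⟨x, hx, hx1, hx2, hx3, hx4⟩ := eps_gen (B := B4) (es := [1]) valid4 second4.toW
    (by norm_num) (by decide) (by decide +kernel) (by decide) (by decide) (by decide)
    (by show 1 ≤ 196608; norm_num)
  refine ⟨x, hx, ?_⟩
  have h := elat_of_cost (b := B4.b) (L := 2) (y := 1769471) valid4.hb (by norm_num) (by decide)
    hx3 hx4 (by show 1769471 + 5 = 196608 * (4 - 1) ^ 2 + 2 ^ 2; norm_num)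
  rw [← hx2] at h
  exact h

theorem rel10_4 : DigitRel 4 10 := by
  have h1 : IsEps 4 10 234 := leastb_spec (f := 4) (by norm_num) (by norm_num)
    (e4_ok 10 (by norm_num))
  obtain ⟨x, hx, hE, _⟩ := eps11_4
  rw [rel_iff h1 hx, hE]

theorem rel11_4 : DigitRel 4 11 := by
  obtain ⟨x, hx, _, hx1⟩ := eps11_4
  obtain ⟨y, hy, hE⟩ := eps12_4
  rw [rel_iff hx hy, hE]
  have h2 : x = 3522559 := by norm_num at hx1; omega
  rw [h2, ← dg_spec (by norm_num) 11 3522559 (by norm_num),
    ← dg_spec (by norm_num) 11 3538942 (by norm_num), ← List.isPerm_iff]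
  decide +kernel

theorem all4' (k : ℕ) : DigitRel 4 k ↔ (k ≠ 1 ∧ k ≠ 3 ∧ k ≠ 6 ∧ k ≠ 8) := by
  rcases Nat.lt_or_ge k 10 with h | h
  · exact small4 h
  · refine ⟨fun _ => by omega, fun _ => ?_⟩
    rcases Nat.lt_or_ge k 12 with h' | h'
    · have : k = 10 ∨ k = 11 := by omega
      rcases this with h9 | h9
      · rw [h9]; exact rel10_4
      · rw [h9]; exact rel11_4
    · exact ev4 k h'

/-! ### existence of the least elements -/

theorem ex4 (k : ℕ) : ∃ x, IsEps 4 k x := by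
  rcases Nat.lt_or_ge k 11 with h | h
  · exact ⟨_, leastb_spec (f := 4) (by norm_num) (by norm_num) (e4_ok k h)⟩
  · obtain ⟨x, _, hx, _⟩ := (all4' k).2 ⟨by omega, by omega, by omega, by omega⟩
    exact ⟨x, hx⟩

theorem ex5 (k : ℕ) : ∃ x, IsEps 5 k x := by
  rcases Nat.lt_or_ge k 7 with h | h
  · exact ⟨_, leastb_spec (f := 4) (by norm_num) (by norm_num) (e5_ok k h)⟩
  · obtain ⟨x, _, hx, _⟩ := (all5 k).2 ⟨by omega, by omega, by omega, by omega⟩
    exact ⟨x, hx⟩

theorem ex9 (k : ℕ) : ∃ x, IsEps 9 k x := by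
  rcases Nat.lt_or_ge k 7 with h | h
  · exact ⟨_, leastb_spec (f := 5) (by norm_num) (by norm_num) (e9_ok k h)⟩
  · by_cases h16 : k = 16
    · obtain ⟨_, y, _, hy, _⟩ := (all9 15).2 ⟨by omega, by omega⟩
      exact ⟨y, by rw [h16]; exact hy⟩
    · obtain ⟨x, _, hx, _⟩ := (all9 k).2 ⟨by omega, h16⟩
      exact ⟨x, hx⟩

theorem pair_of {b k : ℕ} {Q : Prop} (hx : ∃ x, IsEps b k x) (hy : ∃ y, IsEps b (k + 1) y)
    (h : DigitRel b k ↔ Q) : ∃ x y, IsEps b k x ∧ IsEps b (k + 1) y ∧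
      ((Nat.digits b x).Perm (Nat.digits b (elat b y)) ↔ Q) := by
  obtain ⟨x, hx⟩ := hx
  obtain ⟨y, hy⟩ := hy
  exact ⟨x, y, hx, hy, by rw [← h, rel_iff hx hy]⟩

theorem main {b : ℕ} (hb : b = 4 ∨ b = 5 ∨ b = 9) (k : ℕ) :
    ∃ x y, IsEps b k x ∧ IsEps b (k + 1) y ∧
      ((Nat.digits b x).Perm (Nat.digits b (elat b y)) ↔ k ∉ exc b) := by
  rcases hb with hb | hb | hb
  · subst hb
    refine pair_of (ex4 k) (ex4 (k + 1)) ?_
    rw [all4' k]
    simp [exc]
  · subst hb
    refine pair_of (ex5 k) (ex5 (k + 1)) ?_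
    rw [all5 k]
    simp [exc]
  · subst hb
    refine pair_of (ex9 k) (ex9 (k + 1)) ?_
    rw [all9 k]
    simp [exc]

end Pool.Agent.Lib.MP_4f9744_nt
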