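import Pool.Agent.Lib.MP_4f9744_nt.Small

/-!
# MP_4f9744_nt : strong form of the minimality lemma, and the base 4 (general part).
-/

namespace Pool.Agent.Lib.MP_4f9744_nt

theorem minhypS {b k n L D a P W C ys : ℕ} (A : ℕ → Prop) (hb : 2 ≤ b) (ha : 0 < a)
    (hst : StS b k n L D) (hW : W ≤ n) (hLb : L < b)
    (hys : ys + 1 ≤ P * b ^ (n - W)) (hdvd : a ∣ ys) (hP : P ≤ (L + 1) * b ^ W)
    (huniq : Uniq b n L D a ys C)
    (hworse : ∀ a', A a' → 0 < a' → a' < b → a' ≠ a → Worse b n L D a P (n - W) C a')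
    (hplus : ∀ a', A a' → 0 < a' → a' < b →
      Worse b (n + 1) L (D + (b - 1) ^ 2) a P (n - W) C a')
    (hsize : a * b * C < b ^ (n - W)) :
    ∀ y a', HasHeight b k y → A a' → 0 < a' → a' < b → a' ∣ y →
      y ≤ a' * (ys / a + C) → y = ys ∧ a' = a := by
  intro y a' hy hA h0 h1 hd hle
  have hb0 : 0 < b := by omega
  set m := n - W with hm
  have hnm : n = m + W := by omega
  have hya : a * (ys / a) = ys := Nat.mul_div_cancel' hdvd
  have hle2 : a * y ≤ a' * (ys + a * C) := by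
    calc a * y ≤ a * (a' * (ys / a + C)) := Nat.mul_le_mul_left _ hle
      _ = a' * (a * (ys / a) + a * C) := by ring
      _ = a' * (ys + a * C) := by rw [hya]
  have hlt3 : a * y < a' * (P * b ^ m + a * C) := by
    calc a * y ≤ a' * (ys + a * C) := hle2
      _ < a' * (P * b ^ m + a * C) := Nat.mul_lt_mul_of_pos_left (by omega) h0
  have haC : a' * (a * C) ≤ a * b * C := by
    calc a' * (a * C) ≤ b * (a * C) := Nat.mul_le_mul_right _ h1.le
      _ = a * b * C := by ring
  by_cases hbig : y < b ^ (n + 2)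
  · rcases hst.out y hy hbig with ⟨l, hl, hyl, hwl⟩ | ⟨l, hl, hyl, hwl⟩
    · by_cases haa : a' = a
      · subst haa
        rcases huniq y l hl hyl hwl hd with h | h
        · exact ⟨h, rfl⟩
        · exfalso
          have : a' * (ys + a' * C) < a' * y := Nat.mul_lt_mul_of_pos_left h ha
          omega
      · exfalso
        have := hworse a' hA h0 h1 haa y l hl hyl hwl hd
        omega
    · exfalso
      have := hplus a' hA h0 h1 y l hl hyl hwl hd
      omega
  · exfalso
    have h2 : b ^ (n + 2) ≤ y := by omega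
    have h3 : P * b ^ m ≤ b ^ (n + 1) := by
      calc P * b ^ m ≤ (L + 1) * b ^ W * b ^ m := Nat.mul_le_mul_right _ hP
        _ ≤ b * b ^ W * b ^ m := by
          apply Nat.mul_le_mul_right
          exact Nat.mul_le_mul_right _ hLb
        _ = b ^ (n + 1) := by rw [hnm]; ring
    have h4 : a' * (P * b ^ m + a * C) ≤ (b - 1) * b ^ (n + 1) + a * b * C := by
      calc a' * (P * b ^ m + a * C) = a' * (P * b ^ m) + a' * (a * C) := by ring
        _ ≤ (b - 1) * b ^ (n + 1) + a * b * C := by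
          apply Nat.add_le_add _ haC
          exact Nat.mul_le_mul (by omega) h3
    have h5 : b ^ (n + 2) = (b - 1) * b ^ (n + 1) + b ^ (n + 1) := by
      obtain ⟨b', rfl⟩ : ∃ b', b = b' + 1 := ⟨b - 1, by omega⟩
      simp only [Nat.add_sub_cancel]
      ring
    have h6 : b ^ m ≤ b ^ (n + 1) := Nat.pow_le_pow_right hb0 (by omega)
    have h7 : 1 * y ≤ a * y := Nat.mul_le_mul_right _ ha
    omega

/-- uniqueness for even numbers in base 4: the last digit is 2 -/
theorem uniq_two {Dm big : ℕ}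
    (hT : ∀ n l, l < 4 ^ n → wl 4 n l ≤ Dm → Tb 1 big (wl 4 n l) (l % 1) = true)
    {n L D C c ys : ℕ} {es : List ℕ} (hDm : D ≤ Dm) (hlen : es.length + 1 ≤ n)
    (hchk : chk 4 1 big es 0 (D - 5) 0 = true) (hwc : wc 4 es + 5 = D)
    (h9 : 9 ≤ D → Tb 1 big (D - 9) 0 = false)
    (hys : ys + 2 + bv 4 es * 4 ^ (n - es.length) = (L + 1) * 4 ^ n)
    (hc : c ≤ n - 1 - es.length) (hcD : D - 5 < c * 9)
    (hsize : 2 * C < 4 * 4 ^ (n - 1 - es.length - c)) :
    Uniq 4 n L D 2 ys C := by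
  intro y l hl hy hw hd
  obtain ⟨n1, rfl⟩ : ∃ n1, n = n1 + 1 := ⟨n - 1, by omega⟩
  have hodd : l % 2 = 1 := by
    have h1 : (L + 1) * 4 ^ (n1 + 1) = 2 * (2 * ((L + 1) * 4 ^ n1)) := by ring
    obtain ⟨z, rfl⟩ := hd
    omega
  have hwe : wd 4 (l % 4) + wl 4 n1 (l / 4) = D := hw
  have hlb : l / 4 < 4 ^ n1 := by
    rw [Nat.div_lt_iff_lt_mul (by norm_num)]
    rwa [pow_succ] at hl
  have h1 : l % 4 = 1 := by
    by_contra hcon
    have h3 : l % 4 = 3 := by omega
    rw [h3] at hwe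
    have h4 : wd 4 3 = 9 := rfl
    rw [h4] at hwe
    have h5 := hT n1 (l / 4) hlb (by omega)
    have h6 : wl 4 n1 (l / 4) = D - 9 := by omega
    rw [h6, Nat.mod_one, h9 (by omega)] at h5
    simp at h5
  rw [h1] at hwe
  have h2 : wd 4 1 = 5 := rfl
  rw [h2] at hwe
  have hn1 : n1 + 1 - 1 = n1 := by omega
  rw [hn1] at hc hsize
  have hm : n1 + 1 - es.length = (n1 - es.length) + 1 := by omega
  rw [hm] at hys
  have hl4 := Nat.div_add_mod l 4
  rcases chk_sound (by norm_num) (by norm_num) hT es 0 n1 (D - 5) 0 (l / 4) hchk (by omega)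
    (fun j _ _ => by rw [Nat.mod_one, Nat.mod_one]) hlb (by omega) (by omega)
    (by rw [Nat.mod_one, Nat.mod_one]) with h | ⟨l', h3, h4, h5⟩
  · right
    by_contra hcon
    have hpos : bv 4 es * 4 ^ (n1 - es.length) < l / 4 + 4 ^ (n1 - es.length - c) := by
      have e1 : bv 4 es * 4 ^ (n1 - es.length + 1) = 4 * (bv 4 es * 4 ^ (n1 - es.length)) := by
        ring
      omega
    have h6 := gap (by norm_num) (t := es.length) hc h hpos
    have h7 : n1 - es.length + es.length = n1 := by omega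
    rw [h7] at h6
    norm_num at h6
    omega
  · left
    have h6 : wl 4 (n1 - es.length) l' = 0 := by omega
    have h7 := wl_zero (by norm_num) _ _ h3 h6
    have e1 : bv 4 es * 4 ^ (n1 - es.length + 1) = 4 * (bv 4 es * 4 ^ (n1 - es.length)) := by
      ring
    omega

end Pool.Agent.Lib.MP_4f9744_nt
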