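import Pool.Agent.Lib.MP_4f9744_nt.Table

/-!
# MP_4f9744_nt : minimality of the chosen quotient.
-/

namespace Pool.Agent.Lib.MP_4f9744_nt

/-- A competitor `a'` is worse than the value `P b^m / a` on the class `(L, D)`. -/
def Worse (b n L D a P m C a' : ℕ) : Prop :=
  ∀ y l, l < b ^ n → y + 1 + l = (L + 1) * b ^ n → wl b n l = D → a' ∣ y →
    a' * (P * b ^ m + a * C) ≤ a * y

/-- uniqueness for the chosen divisor -/
def Uniq (b n L D a ys C : ℕ) : Prop :=
  ∀ y l, l < b ^ n → y + 1 + l = (L + 1) * b ^ n → wl b n l = D → a ∣ y →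
    y = ys ∨ ys + a * C < y

theorem minhyp {b k n L D a P W C ys : ℕ} (A : ℕ → Prop) (hb : 2 ≤ b) (ha : 0 < a)
    (hst : StW b k n L D) (hW : W ≤ n) (hLb : L < b)
    (hys : ys + 1 = P * b ^ (n - W)) (hdvd : a ∣ ys) (hP : P ≤ (L + 1) * b ^ W)
    (huniq : Uniq b n L D a ys C)
    (hworse : ∀ a', A a' → 0 < a' → a' < b → a' ≠ a → Worse b n L D a P (n - W) C a')
    (hplus : ∀ a', A a' → 0 < a' → a' < b → a' * P + 1 ≤ a * L * b ^ (W + 1))
    (hsize : a * b * C < b ^ (n - W)) :
    ∀ y a', HasHeight b k y → A a' → 0 < a' → a' < b → a' ∣ y →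
      y ≤ a' * (ys / a + C) → y = ys ∧ a' = a := by
  intro y a' hy hA h0 h1 hd hle
  have hb0 : 0 < b := by omega
  set m := n - W with hm
  have hnm : n = m + W := by omega
  have hya : a * (ys / a) = ys := Nat.mul_div_cancel' hdvd
  have hle2 : a * y ≤ a' * (ys + a * C) := by
    calc a * y ≤ a * (a' * (ys / a + C)) := Nat.mul_le_mul_left _ hle
      _ = a' * (a * (ys / a) + a * C) := by ring
      _ = a' * (ys + a * C) := by rw [hya]
  have hlt3 : a * y < a' * (P * b ^ m + a * C) := by
    calc a * y ≤ a' * (ys + a * C) := hle2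
      _ < a' * (ys + 1 + a * C) := Nat.mul_lt_mul_of_pos_left (by omega) h0
      _ = a' * (P * b ^ m + a * C) := by rw [hys]
  have haC : a' * (a * C) ≤ a * b * C := by
    calc a' * (a * C) ≤ b * (a * C) := Nat.mul_le_mul_right _ h1.le
      _ = a * b * C := by ring
  by_cases hbig : y < b ^ (n + 2)
  · rcases hst.out y hy hbig with ⟨l, hl, hyl, hwl⟩ | hL
    · by_cases haa : a' = a
      · subst haa
        rcases huniq y l hl hyl hwl hd with h | h
        · exact ⟨h, rfl⟩
        · exfalso
          have : a' * (ys + a' * C) < a' * y := Nat.mul_lt_mul_of_pos_left h ha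
          omega
      · exfalso
        have := hworse a' hA h0 h1 haa y l hl hyl hwl hd
        omega
    · exfalso
      have h2 := hplus a' hA h0 h1
      have h3 : (a' * P + 1) * b ^ m ≤ a * L * b ^ (W + 1) * b ^ m := Nat.mul_le_mul_right _ h2
      have h4 : a * L * b ^ (W + 1) * b ^ m = a * (L * b ^ (n + 1)) := by
        rw [hnm]; ring
      have h5 : a * (L * b ^ (n + 1)) ≤ a * y := Nat.mul_le_mul_left _ hL
      have h6 : a' * (P * b ^ m + a * C) = a' * P * b ^ m + a' * (a * C) := by ring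
      rw [Nat.add_mul, Nat.one_mul] at h3
      omega
  · exfalso
    have h2 : b ^ (n + 2) ≤ y := by omega
    have h3 : P * b ^ m ≤ b ^ (n + 1) := by
      calc P * b ^ m ≤ (L + 1) * b ^ W * b ^ m := Nat.mul_le_mul_right _ hP
        _ ≤ b * b ^ W * b ^ m := by
          apply Nat.mul_le_mul_right
          exact Nat.mul_le_mul_right _ hLb
        _ = b ^ (n + 1) := by rw [hnm]; ring
    have h4 : a' * (P * b ^ m + a * C) ≤ (b - 1) * b ^ (n + 1) + a * b * C := by
      calc a' * (P * b ^ m + a * C) = a' * (P * b ^ m) + a' * (a * C) := by ring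
        _ ≤ (b - 1) * b ^ (n + 1) + a * b * C := by
          apply Nat.add_le_add _ haC
          exact Nat.mul_le_mul (by omega) h3
    have h5 : b ^ (n + 2) = (b - 1) * b ^ (n + 1) + b ^ (n + 1) := by
      obtain ⟨b', rfl⟩ : ∃ b', b = b' + 1 := ⟨b - 1, by omega⟩
      simp only [Nat.add_sub_cancel]
      ring
    have h6 : b ^ m ≤ b ^ (n + 1) := Nat.pow_le_pow_right hb0 (by omega)
    have h7 : 1 * y ≤ a * y := Nat.mul_le_mul_right _ ha
    omega

/-- uniqueness from the check -/
theorem uniq_of_chk {b g Dm big : ℕ} (hb : 2 ≤ b) (hg : 0 < g)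
    (hT : ∀ n l, l < b ^ n → wl b n l ≤ Dm → Tb g big (wl b n l) (l % g) = true)
    {n L D C s rho c ys : ℕ} {es : List ℕ} (hD : D ≤ Dm) (hlen : es.length ≤ n)
    (hs : ∀ j, 1 ≤ j → j ≤ es.length → b ^ (n - j) % g = b ^ (s - j) % g)
    (hrho : ((L + 1) * b ^ n + (g - 1)) % g = rho % g)
    (hchk : chk b g big es s D rho = true) (hwc : wc b es = D)
    (hys : ys + 1 + bv b es * b ^ (n - es.length) = (L + 1) * b ^ n)
    (hc : c ≤ n - es.length) (hcD : D < c * (b - 1) ^ 2)
    (hsize : g * C < b ^ (n - es.length - c)) :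
    Uniq b n L D g ys C := by
  intro y l hl hy hw hd
  have hlr : l % g = rho % g := by
    rw [← hrho, ← hy]
    have e1 : y + 1 + l + (g - 1) = l + (y + g) := by omega
    rw [e1]
    obtain ⟨z, rfl⟩ := hd
    have e2 : l + (g * z + g) = l + g * (z + 1) := by ring
    rw [e2, Nat.add_mul_mod_self_left]
  rcases chk_sound hb hg hT es s n D rho l hchk hlen hs hl hw hD hlr with h | ⟨l', h1, h2, h3⟩
  · right
    by_contra hcon
    have hpos : bv b es * b ^ (n - es.length) < l + b ^ (n - es.length - c) := by omega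
    have h4 := gap hb (t := es.length) hc h hpos
    have h5 : n - es.length + es.length = n := by omega
    rw [h5, hw] at h4
    omega
  · left
    have h4 : wl b (n - es.length) l' = 0 := by omega
    have h5 := wl_zero hb _ _ h1 h4
    subst h5
    omega

/-- competitor bounded through its leading digits -/
theorem worse_of_chk {b g Dm big : ℕ} (hb : 2 ≤ b) (hg : 0 < g)
    (hT : ∀ n l, l < b ^ n → wl b n l ≤ Dm → Tb g big (wl b n l) (l % g) = true)
    {n L D a P W C s rho a' : ℕ} {es : List ℕ} (hD : D ≤ Dm) (hlenW : es.length ≤ W)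
    (hW : W ≤ n)
    (hs : ∀ j, 1 ≤ j → j ≤ es.length → b ^ (n - j) % g = b ^ (s - j) % g)
    (hga : g ∣ a') (hrho : ((L + 1) * b ^ n + (g - 1)) % g = rho % g)
    (hchk : chk b g big es s D rho = true)
    (hnum : a' * P + 1 ≤ a * ((L + 1) * b ^ es.length - (bv b es + 1)) * b ^ (W - es.length))
    (hab : a' < b) (hsize : a * b * C < b ^ (n - W)) :
    Worse b n L D a P (n - W) C a' := by
  intro y l hl hy hw hd
  have hb0 : 0 < b := by omega
  have hlr : l % g = rho % g := by
    rw [← hrho, ← hy]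
    have e1 : y + 1 + l + (g - 1) = l + (y + g) := by omega
    rw [e1]
    obtain ⟨z, rfl⟩ := hga.trans hd
    have e2 : l + (g * z + g) = l + g * (z + 1) := by ring
    rw [e2, Nat.add_mul_mod_self_left]
  have hlt : l < (bv b es + 1) * b ^ (n - es.length) := by
    rcases chk_sound hb hg hT es s n D rho l hchk (by omega) hs hl hw hD hlr with h | ⟨l', h1, h2, _⟩
    · rw [Nat.add_mul]
      omega
    · rw [Nat.add_mul, h2]
      omega
  set m := n - W with hm
  have hpow : b ^ (n - es.length) = b ^ (W - es.length) * b ^ m := by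
    rw [← pow_add]; congr 1; omega
  have hpow2 : b ^ n = b ^ es.length * b ^ (n - es.length) := by
    rw [← pow_add]; congr 1; omega
  set q := (L + 1) * b ^ es.length - (bv b es + 1) with hq
  have hyq : q * b ^ (n - es.length) ≤ y := by
    rw [hq, Nat.sub_mul, Nat.mul_assoc, ← hpow2]
    omega
  have h1 : (a' * P + 1) * b ^ m ≤ a * y := by
    calc (a' * P + 1) * b ^ m ≤ a * q * b ^ (W - es.length) * b ^ m :=
          Nat.mul_le_mul_right _ hnum
      _ = a * (q * b ^ (n - es.length)) := by rw [hpow]; ring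
      _ ≤ a * y := Nat.mul_le_mul_left _ hyq
  have h2 : a' * (a * C) ≤ a * b * C := by
    calc a' * (a * C) ≤ b * (a * C) := Nat.mul_le_mul_right _ hab.le
      _ = a * b * C := by ring
  rw [Nat.add_mul, Nat.one_mul] at h1
  have h3 : a' * (P * b ^ m + a * C) = a' * P * b ^ m + a' * (a * C) := by ring
  omega

/-- competitor excluded by a residue -/
theorem worse_of_inf {b g Dm big : ℕ} (hg : 0 < g)
    (hT : ∀ n l, l < b ^ n → wl b n l ≤ Dm → Tb g big (wl b n l) (l % g) = true)
    {n L D a P m C rho a' : ℕ} (hD : D ≤ Dm) (hga : g ∣ a')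
    (hrho : ((L + 1) * b ^ n + (g - 1)) % g = rho)
    (hinf : Tb g big D rho = false) :
    Worse b n L D a P m C a' := by
  intro y l hl hy hw hd
  exfalso
  have hlr : l % g = rho := by
    rw [← hrho, ← hy]
    have e1 : y + 1 + l + (g - 1) = l + (y + g) := by omega
    rw [e1]
    obtain ⟨z, rfl⟩ := hga.trans hd
    have e2 : l + (g * z + g) = l + g * (z + 1) := by ring
    rw [e2, Nat.add_mul_mod_self_left]
  have h1 := hT n l hl (by omega)
  rw [hw, hlr, hinf] at h1
  simp at h1

end Pool.Agent.Lib.MP_4f9744_nt
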