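import Pool.Agent.Lib.MP_4f9744_nt.Small
import Pool.Agent.Lib.MP_4f9744_nt.Data

/-!
# MP_4f9744_nt : the bases 5 and 9.
-/

namespace Pool.Agent.Lib.MP_4f9744_nt

theorem lead_lt {b x : ℕ} (hb : 2 ≤ b) (hx : 0 < x) : lead b x < b := by
  obtain ⟨n, L, r, h1, h2, h3, h4⟩ := exists_lead hb hx
  rw [h4, (digits_lead hb h1 h2 n r h3).1]
  exact h2

theorem valid5 : B5.Valid where
  hb := by decide
  hG := tabs5
  hA := by
    intro k x hx
    have h1 : lead 5 x % 2 = 1 := lead_odd (by norm_num) (by norm_num) hx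
    have h2 : lead 5 x < 5 := lead_lt (by norm_num) hx.1
    show lead 5 x ∈ [1, 3]
    rw [List.mem_cons, List.mem_singleton]
    omega
  h1 := by decide

theorem valid9 : B9.Valid where
  hb := by decide
  hG := tabs9
  hA := by
    intro k x hx
    have h1 : lead 9 x % 2 = 1 := lead_odd (by norm_num) (by norm_num) hx
    have h2 : lead 9 x < 9 := lead_lt (by norm_num) hx.1
    show lead 9 x ∈ [1, 3, 5, 7]
    simp only [List.mem_cons, List.not_mem_nil, or_false]
    omega
  h1 := by decide

/-- data of a number of positive height -/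
theorem unfold_height {b k x : ℕ} (hb : 2 ≤ b) (hx : HasHeight b (k + 1) x) :
    ∃ m a r, 0 < a ∧ a < b ∧ r < b ^ m ∧ x = a * b ^ m + r ∧
      HasHeight b k (a * (a ^ 2 + sqd b m r)) ∧ lead b x = a ∧
      sqd b m r + wl b m (b ^ m - 1 - r) = m * (b - 1) ^ 2 := by
  obtain ⟨m, a, r, h1, h2, h3, h4⟩ := exists_lead hb hx.1
  refine ⟨m, a, r, h1, h2, h3, h4, ?_, ?_, ?_⟩
  · have := ((height_succ' hb).1 hx).2.2
    rwa [h4, elat_eq hb h1 h2 m r h3] at this
  · rw [h4]
    exact (digits_lead hb h1 h2 m r h3).1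
  · have hp : 0 < b ^ m := Nat.pow_pos (by omega)
    have h5 := sqd_compl hb m (b ^ m - 1 - r) (by omega)
    have h6 : b ^ m - 1 - (b ^ m - 1 - r) = r := by omega
    rwa [h6] at h5

theorem low5 : ∀ a < 5, ∀ S < 305, (htb 5 4 6 (a * (a ^ 2 + S)) = true) →
    (a = 0 ∨ (a = 3 ∧ (S = 274 ∨ S = 282))) := by decide +kernel

theorem pow_bound {b m n a r : ℕ} (hb : 2 ≤ b) (ha : 0 < a) (h : a * b ^ m + r < b ^ n) :
    m < n := by
  by_contra hcon
  have h1 : b ^ n ≤ b ^ m := Nat.pow_le_pow_right (by omega) (by omega)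
  have h2 : 1 * b ^ m ≤ a * b ^ m := Nat.mul_le_mul_right _ ha
  omega

theorem start5 : StW 5 7 18 3 14 := by
  have hb : 2 ≤ 5 := by norm_num
  constructor
  · intro l hl hw
    have hE : elat 5 ((3 + 1) * 5 ^ 18 - 1 - l) = 3 * 283 :=
      elat_of_cost hb (by norm_num) (by norm_num) hl hw (by norm_num)
    rw [height_succ' hb, hE]
    refine ⟨by omega, by omega, ?_⟩
    rw [← htb_spec (f := 4) hb (by norm_num) 6 _ (by norm_num) (by norm_num)]
    decide +kernel
  · intro x hx hlt
    obtain ⟨m, a, r, h1, h2, h3, h4, h5, h6, h7⟩ := unfold_height hb hx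
    have hm : m < 18 + 2 := pow_bound hb h1 (h4 ▸ hlt)
    have hS := sqd_le hb m r
    have hS2 : sqd 5 m r < 305 := by
      have : m * (5 - 1) ^ 2 ≤ 19 * (5 - 1) ^ 2 := Nat.mul_le_mul_right _ (by omega)
      omega
    have hpos : 0 < a * (a ^ 2 + sqd 5 m r) := h5.1
    have hlt2 : a * (a ^ 2 + sqd 5 m r) < 5 ^ (4 + 1) := by
      calc a * (a ^ 2 + sqd 5 m r) ≤ 4 * (4 ^ 2 + 304) := by
            apply Nat.mul_le_mul (by omega)
            apply Nat.add_le_add _ (by omega)
            exact Nat.pow_le_pow_left (by omega) 2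
        _ < 5 ^ (4 + 1) := by norm_num
    have h8 := (htb_spec (f := 4) hb (by norm_num) 6 _ hpos hlt2).2 h5
    rcases low5 a h2 _ hS2 h8 with h9 | ⟨h9, h10⟩
    · omega
    · subst h9
      norm_num at hS h7
      have hm18 : 18 ≤ m := by omega
      rcases Nat.lt_or_ge m 19 with h11 | h11
      · have h12 : m = 18 := by omega
        subst h12
        left
        refine ⟨5 ^ 18 - 1 - r, by omega, by omega, ?_⟩
        rcases h10 with h10 | h10
        · omega
        · exfalso
          have h13 : wl 5 18 (5 ^ 18 - 1 - r) = 6 := by omega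
          have h14 := tab_sound (b := 5) (g := 1) (Dm := 60) (big := tab5 1) hb (by norm_num)
            ((tabs5 1 (by decide)).2) 18 (5 ^ 18 - 1 - r) (by omega) (by omega)
          rw [h13, Nat.mod_one] at h14
          revert h14
          decide +kernel
      · right
        have h12 : m = 19 := by omega
        subst h12
        omega

theorem low9 : ∀ a < 9, ∀ S < 321, (htb 9 5 6 (a * (a ^ 2 + S)) = true) →
    (a = 0 ∨ (a = 5 ∧ S = 230)) := by decide +kernel

theorem level7 {y : ℕ} (hy : HasHeight 9 7 y) (hlt : y < 9 ^ 6) :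
    ∃ l, l < 9 ^ 5 ∧ y + 1 + l = 6 * 9 ^ 5 ∧ wl 9 5 l = 90 := by
  have hb : 2 ≤ 9 := by norm_num
  obtain ⟨m, a, r, h1, h2, h3, h4, h5, h6, h7⟩ := unfold_height hb hy
  have hm : m < 6 := pow_bound hb h1 (h4 ▸ hlt)
  have hS := sqd_le hb m r
  have hS2 : sqd 9 m r < 321 := by
    have : m * (9 - 1) ^ 2 ≤ 5 * (9 - 1) ^ 2 := Nat.mul_le_mul_right _ (by omega)
    omega
  have hlt2 : a * (a ^ 2 + sqd 9 m r) < 9 ^ (5 + 1) := by
    calc a * (a ^ 2 + sqd 9 m r) ≤ 8 * (8 ^ 2 + 320) := by
          apply Nat.mul_le_mul (by omega)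
          apply Nat.add_le_add _ (by omega)
          exact Nat.pow_le_pow_left (by omega) 2
      _ < 9 ^ (5 + 1) := by norm_num
  have h8 := (htb_spec (f := 5) hb (by norm_num) 6 _ h5.1 hlt2).2 h5
  rcases low9 a h2 _ hS2 h8 with h9 | ⟨h9, h10⟩
  · omega
  · subst h9
    norm_num at hS h7
    have hm4 : 4 ≤ m := by omega
    rcases Nat.lt_or_ge m 5 with h11 | h11
    · exfalso
      have h12 : m = 4 := by omega
      subst h12
      have h13 : wl 9 4 (9 ^ 4 - 1 - r) = 26 := by omega
      have h14 := tab_sound (b := 9) (g := 1) (Dm := 153) (big := tab9 1) hb (by norm_num)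
        ((tabs9 1 (by decide)).2) 4 (9 ^ 4 - 1 - r) (by omega) (by omega)
      rw [h13, Nat.mod_one] at h14
      revert h14
      decide +kernel
    · have h12 : m = 5 := by omega
      subst h12
      refine ⟨9 ^ 5 - 1 - r, by omega, by omega, by omega⟩

theorem scan9' : ∀ p < 71, ∀ q < 100,
    wl 9 5 (354293 - 7 * (49 + (42129 + (100 * p + q)))) = 90 →
    42129 + (100 * p + q) = 49002 := by decide +kernel

theorem scan9 (i : ℕ) (hi : i < 7025)
    (h : wl 9 5 (354293 - 7 * (49 + (42129 + i))) = 90) : 42129 + i = 49002 := by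
  have h1 := scan9' (i / 100) (by omega) (i % 100) (by omega)
  have h2 : 100 * (i / 100) + i % 100 = i := by omega
  rw [h2] at h1
  exact h1 h

theorem start9 : StW 9 8 767 7 86 := by
  have hb : 2 ≤ 9 := by norm_num
  constructor
  · intro l hl hw
    have hE : elat 9 ((7 + 1) * 9 ^ 767 - 1 - l) = 7 * 49051 :=
      elat_of_cost hb (by norm_num) (by norm_num) hl hw (by norm_num)
    rw [height_succ' hb, hE]
    have hbig : 9 ≤ 9 ^ 767 := by
      calc 9 = 9 ^ 1 := (pow_one 9).symm
        _ ≤ 9 ^ 767 := Nat.pow_le_pow_right (by norm_num) (by norm_num)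
    refine ⟨by omega, by omega, ?_⟩
    rw [← htb_spec (f := 5) hb (by norm_num) 7 _ (by norm_num) (by norm_num)]
    decide +kernel
  · intro x hx hlt
    obtain ⟨m, a, r, h1, h2, h3, h4, h5, h6, h7⟩ := unfold_height hb hx
    have hm : m < 767 + 2 := pow_bound hb h1 (h4 ▸ hlt)
    have hS := sqd_le hb m r
    have hS2 : sqd 9 m r ≤ 49152 := by
      have : m * (9 - 1) ^ 2 ≤ 768 * (9 - 1) ^ 2 := Nat.mul_le_mul_right _ (by omega)
      omega
    have hodd : a % 2 = 1 := by
      rw [← h6]
      exact lead_odd (by norm_num) hb hx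
    set S := sqd 9 m r with hSdef
    have hlt2 : a * (a ^ 2 + S) < 9 ^ 6 := by
      calc a * (a ^ 2 + S) ≤ 8 * (8 ^ 2 + 49152) := by
            apply Nat.mul_le_mul (by omega)
            apply Nat.add_le_add _ (by omega)
            exact Nat.pow_le_pow_left (by omega) 2
        _ < 9 ^ 6 := by norm_num
    obtain ⟨l, hl1, hl2, hl3⟩ := level7 h5 hlt2
    norm_num at hl1 hl2
    have ha7 : a = 7 := by
      have h8 : a < 9 := h2
      interval_cases a <;> omega
    subst ha7
    have hS3 : 42129 ≤ S := by omega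
    obtain ⟨i, hi⟩ := Nat.exists_eq_add_of_le hS3
    have h9 : l = 354293 - 7 * (49 + (42129 + i)) := by omega
    have h10 := scan9 i (by omega) (by rw [← h9]; exact hl3)
    have hS4 : S = 49002 := by omega
    norm_num at hS h7
    rcases Nat.lt_or_ge m 767 with h11 | h11
    · exfalso
      have h12 : m = 766 := by omega
      subst h12
      have hp : 0 < 9 ^ 766 := Nat.pow_pos (by norm_num)
      have h13 : wl 9 766 (9 ^ 766 - 1 - r) = 22 := by omega
      have h14 := tab_sound (b := 9) (g := 1) (Dm := 153) (big := tab9 1) hb (by norm_num)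
        ((tabs9 1 (by decide)).2) 766 (9 ^ 766 - 1 - r) (by omega) (by omega)
      rw [h13, Nat.mod_one] at h14
      revert h14
      decide +kernel
    · rcases Nat.lt_or_ge m 768 with h12 | h12
      · have h13 : m = 767 := by omega
        subst h13
        left
        have hp : 0 < 9 ^ 767 := Nat.pow_pos (by norm_num)
        refine ⟨9 ^ 767 - 1 - r, by omega, by omega, by omega⟩
      · right
        have h13 : m = 767 + 1 := by omega
        rw [h4, h13]
        exact Nat.le_add_right _ _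

end Pool.Agent.Lib.MP_4f9744_nt
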