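import Pool.Agent.Lib.MP_4f9744_nt.Cert

/-!
# MP_4f9744_nt : the least number of a height, and the digit relation.
-/

namespace Pool.Agent.Lib.MP_4f9744_nt

theorem digits_pow_sub {b : ℕ} (hb : 2 ≤ b) {P : ℕ} (hP : 1 ≤ P) : ∀ m,
    Nat.digits b (P * b ^ m - 1) = List.replicate m (b - 1) ++ Nat.digits b (P - 1)
  | 0 => by simp
  | m + 1 => by
    have hb0 : 0 < b := by omega
    have h1 : 0 < P * b ^ m := Nat.mul_pos hP (Nat.pow_pos hb0)
    have h2 : P * b ^ (m + 1) - 1 = (b - 1) + b * (P * b ^ m - 1) := by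
      rw [Nat.mul_sub, Nat.mul_one, pow_succ]
      have h3 : b ≤ b * (P * b ^ m) := Nat.le_mul_of_pos_right b h1
      have h4 : P * (b ^ m * b) = b * (P * b ^ m) := by ring
      omega
    rw [h2, Nat.digits_add b (by omega) (b - 1) _ (by omega) (Or.inl (by omega)),
      digits_pow_sub hb hP m]
    rfl

theorem digits_compl {b : ℕ} (hb : 2 ≤ b) : ∀ (es : List ℕ) (X : ℕ), 1 ≤ X →
    (es.all fun e => Nat.blt e b) = true →
    Nat.digits b ((X + 1) * b ^ es.length - bv b es - 1) =
      (es.reverse.map fun e => b - 1 - e) ++ Nat.digits b X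
  | [], X, _, _ => by simp [bv]
  | e :: es, X, hX, h => by
    have h0 := h
    rw [List.all_cons, Bool.and_eq_true, Nat.blt_eq] at h
    obtain ⟨he, hes⟩ := h
    have ih := digits_compl hb es (b * X + (b - 1 - e)) (by nlinarith) hes
    have h1 : (X + 1) * b ^ (e :: es).length - bv b (e :: es) - 1 =
        ((b * X + (b - 1 - e)) + 1) * b ^ es.length - bv b es - 1 := by
      show (X + 1) * b ^ (es.length + 1) - (e * b ^ es.length + bv b es) - 1 = _
      have h2 : (X + 1) * b ^ (es.length + 1) =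
          ((b * X + (b - 1 - e)) + 1) * b ^ es.length + e * b ^ es.length := by
        rw [pow_succ, ← Nat.add_mul]
        have h3 : b * X + (b - 1 - e) + 1 + e = b * X + b := by omega
        rw [h3]
        ring
      rw [h2]
      omega
    rw [h1, ih]
    have h4 : Nat.digits b (b * X + (b - 1 - e)) = (b - 1 - e) :: Nat.digits b X := by
      rw [Nat.add_comm]
      exact Nat.digits_add b (by omega) (b - 1 - e) X (by omega) (Or.inr (by omega))
    rw [h4, List.reverse_cons, List.map_append]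
    simp

/-- check for the least element of the class `(L, D)` -/
def epsChk (B : Base) (D : ℕ) (es : List ℕ) : Bool :=
  chk B.b 1 (B.tab 1) es 0 D 0 && (wc B.b es == D) && (es.all fun e => Nat.blt e B.b) &&
  Nat.ble D B.Dm && Nat.ble es.length B.N0

theorem eps_gen {B : Base} (hB : B.Valid) {k n L D : ℕ} {es : List ℕ}
    (hst : StW B.b k n L D) (hL0 : 0 < L) (hLb : L < B.b)
    (hchk : chk B.b 1 (B.tab 1) es 0 D 0 = true) (hwc : wc B.b es = D)
    (hdig : (es.all fun e => Nat.blt e B.b) = true) (hD : D ≤ B.Dm) (hlen : es.length ≤ n) :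
    ∃ x, IsEps B.b k x ∧ x + 1 = ((L + 1) * B.b ^ es.length - bv B.b es) * B.b ^ (n - es.length)
      ∧ x = (L + 1) * B.b ^ n - 1 - bv B.b es * B.b ^ (n - es.length)
      ∧ bv B.b es * B.b ^ (n - es.length) < B.b ^ n
      ∧ wl B.b n (bv B.b es * B.b ^ (n - es.length)) = D := by
  have hb := hB.hb
  have hb0 : 0 < B.b := by omega
  obtain ⟨hbv, hwl⟩ := wl_bv hb es hdig
  set m := n - es.length with hm
  have hbm : 0 < B.b ^ m := Nat.pow_pos hb0
  have hbn : B.b ^ n = B.b ^ es.length * B.b ^ m := by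
    rw [← pow_add]; congr 1; omega
  have hbvl : bv B.b es * B.b ^ m < B.b ^ n := by
    rw [hbn]
    exact Nat.mul_lt_mul_of_pos_right hbv hbm
  have hcost : wl B.b n (bv B.b es * B.b ^ m) = D := by
    have e1 : n = m + es.length := by omega
    rw [e1]
    have h1 := wl_split' hb m es.length (bv B.b es) 0 hbm
    rw [Nat.add_zero] at h1
    rw [h1, wl_arg_zero, Nat.zero_add, hwl, hwc]
  have hx := hst.mem _ hbvl hcost
  have hLn : B.b ^ n ≤ L * B.b ^ n := Nat.le_mul_of_pos_left _ hL0
  refine ⟨(L + 1) * B.b ^ n - 1 - bv B.b es * B.b ^ m, ⟨hx, ?_⟩, ?_, rfl, hbvl, hcost⟩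
  · intro z hz
    have hz : HasHeight B.b k z := hz
    by_cases hbig : z < B.b ^ (n + 2)
    · rcases hst.out z hz hbig with ⟨l, hl, hzl, hw⟩ | hge
      · obtain ⟨hg1, ht1⟩ := hB.hG 1 hB.h1
        have hT := tab_sound hb hg1 ht1
        rcases chk_sound hb hg1 hT es 0 n D 0 l hchk (by omega)
          (fun j _ _ => by rw [Nat.mod_one, Nat.mod_one]) hl hw hD
          (by rw [Nat.mod_one, Nat.mod_one]) with h1 | ⟨l', h1, h2, h3⟩
        · rw [← hm] at h1
          omega
        · have h4 : wl B.b (n - es.length) l' = 0 := by omega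
          have h5 := wl_zero hb _ _ h1 h4
          rw [← hm] at h2
          omega
      · have h1 : (L + 1) * B.b ^ n ≤ L * B.b ^ (n + 1) := by
          rw [pow_succ]
          have h2 : L * B.b ^ n * 2 ≤ L * B.b ^ n * B.b := Nat.mul_le_mul_left _ hb
          rw [Nat.add_mul, Nat.one_mul, ← Nat.mul_assoc]
          omega
        omega
    · have h1 : (L + 1) * B.b ^ n ≤ B.b ^ (n + 2) := by
        calc (L + 1) * B.b ^ n ≤ B.b * B.b ^ n := Nat.mul_le_mul_right _ hLb
          _ = B.b ^ (n + 1) := by rw [pow_succ, Nat.mul_comm]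
          _ ≤ B.b ^ (n + 2) := Nat.pow_le_pow_right hb0 (by omega)
      omega
  · rw [Nat.sub_mul, Nat.mul_assoc, ← hbn, Nat.add_mul, Nat.one_mul]
    omega

theorem eps_of_chk {B : Base} (hB : B.Valid) {k n L D : ℕ} {es : List ℕ}
    (hst : StW B.b k n L D) (hn : B.N0 ≤ n) (hL0 : 0 < L) (hLb : L < B.b)
    (h : epsChk B D es = true) :
    ∃ x, IsEps B.b k x ∧ x + 1 = ((L + 1) * B.b ^ es.length - bv B.b es) * B.b ^ (n - es.length)
      ∧ x = (L + 1) * B.b ^ n - 1 - bv B.b es * B.b ^ (n - es.length)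
      ∧ bv B.b es * B.b ^ (n - es.length) < B.b ^ n
      ∧ wl B.b n (bv B.b es * B.b ^ (n - es.length)) = D := by
  unfold epsChk at h
  simp only [Bool.and_eq_true, beq_iff_eq, Nat.ble_eq] at h
  obtain ⟨⟨⟨⟨hchk, hwc⟩, hdig⟩, hD⟩, hlen⟩ := h
  exact eps_gen hB hst hL0 hLb hchk hwc hdig hD (by omega)

/-- digits of the least element of a class -/
theorem digits_form {b L n x : ℕ} {es : List ℕ} (hb : 2 ≤ b) (hL : 1 ≤ L)
    (hdig : (es.all fun e => Nat.blt e b) = true)
    (hx : x + 1 = ((L + 1) * b ^ es.length - bv b es) * b ^ (n - es.length)) :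
    Nat.digits b x = List.replicate (n - es.length) (b - 1) ++
      ((es.reverse.map fun e => b - 1 - e) ++ Nat.digits b L) := by
  have h5 := (wl_bv hb es hdig).1
  have hpos : 1 ≤ (L + 1) * b ^ es.length - bv b es := by
    rw [Nat.add_mul, Nat.one_mul]
    omega
  have e1 : x = ((L + 1) * b ^ es.length - bv b es) * b ^ (n - es.length) - 1 := by omega
  rw [e1, digits_pow_sub hb hpos, digits_compl hb es L hL hdig]

/-- The two lists of digits compared at height `k`, from a certified step. -/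
theorem forms_cert {B : Base} (hB : B.Valid) {c : Cert} (hc : stepChk B c = true)
    {es1 es2 : List ℕ} (h1 : epsChk B c.D es1 = true) (hlen : es1.length = c.W)
    (h2 : epsChk B c.D' es2 = true) {k n : ℕ}
    (hn : B.N0 ≤ n) (hr : n % c.Q = c.r % c.Q) (hst : StW B.b k n c.L c.D) :
    ∃ x y, IsEps B.b k x ∧ IsEps B.b (k + 1) y ∧
      Nat.digits B.b x = List.replicate (n - c.W) (B.b - 1) ++
        ((es1.reverse.map fun e => B.b - 1 - e) ++ Nat.digits B.b c.L) ∧
      Nat.digits B.b (elat B.b y) = List.replicate (n - c.W) (B.b - 1) ++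
        ((c.es.reverse.map fun e => B.b - 1 - e) ++ Nat.digits B.b c.L) := by
  obtain ⟨n', ys, hn', _, hst', hys, hsum⟩ := step_cert hB hc hn hr hst
  have hb := hB.hb
  have hb0 : 0 < B.b := by omega
  unfold stepChk at hc
  simp only [Bool.and_eq_true] at hc
  obtain ⟨⟨⟨hnum, _⟩, _⟩, _⟩ := hc
  unfold numChk at hnum
  simp only [Bool.and_eq_true, Nat.blt_eq, Nat.ble_eq] at hnum
  obtain ⟨⟨⟨⟨⟨⟨⟨⟨⟨⟨hL0, hLb⟩, ha0⟩, hab⟩, hDm⟩, hDm'⟩, hWs⟩, hWN⟩, hsz⟩, hgrow⟩, hdig⟩ := hnum
  obtain ⟨x, hx, hx1, _, _, _⟩ := eps_of_chk hB hst hn hL0 hLb h1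
  obtain ⟨y, hy, _, hy2, hy3, hy4⟩ := eps_of_chk hB hst'.toW hn' ha0 hab h2
  unfold epsChk at h1
  simp only [Bool.and_eq_true] at h1
  have hdig1 := h1.1.1.2
  have hE : elat B.b y = ys := by
    have hDle : c.D' ≤ n' * (B.b - 1) ^ 2 + c.a ^ 2 := by
      have h5 : c.a * c.D' ≤ c.a * (n' * (B.b - 1) ^ 2 + c.a ^ 2) := by
        rw [hsum]; exact Nat.le_add_left _ _
      exact Nat.le_of_mul_le_mul_left h5 ha0
    obtain ⟨Y, hY⟩ := Nat.exists_eq_add_of_le hDle
    have h6 : Y + c.D' = n' * (B.b - 1) ^ 2 + c.a ^ 2 := by omega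
    have h7 := elat_of_cost hb ha0 hab hy3 hy4 h6
    rw [← hy2] at h7
    rw [h7]
    have h8 : c.a * (Y + c.D') = ys + c.a * c.D' := by rw [h6]; exact hsum
    rw [Nat.mul_add] at h8
    omega
  refine ⟨x, y, hx, hy, ?_, ?_⟩
  · have := digits_form hb hL0 hdig1 hx1
    rwa [hlen] at this
  · rw [hE]
    exact digits_form hb hL0 hdig hys

/-- uniqueness of the least elements -/
theorem rel_iff {b k x y : ℕ} (hx : IsEps b k x) (hy : IsEps b (k + 1) y) :
    DigitRel b k ↔ (Nat.digits b x).Perm (Nat.digits b (elat b y)) := by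
  constructor
  · rintro ⟨x', y', hx', hy', h⟩
    rwa [hx.unique hx', hy.unique hy']
  · intro h
    exact ⟨x, y, hx, hy, h⟩

/-- The digit relation from a certified step. -/
theorem rel_cert {B : Base} (hB : B.Valid) {c : Cert} (hc : stepChk B c = true)
    {es1 es2 : List ℕ} (h1 : epsChk B c.D es1 = true) (hlen : es1.length = c.W)
    (hperm : es1.Perm c.es) (h2 : epsChk B c.D' es2 = true) {k n : ℕ}
    (hn : B.N0 ≤ n) (hr : n % c.Q = c.r % c.Q) (hst : StW B.b k n c.L c.D) :
    DigitRel B.b k := by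
  obtain ⟨x, y, hx, hy, dx, dy⟩ := forms_cert hB hc h1 hlen h2 hn hr hst
  rw [rel_iff hx hy, dx, dy]
  apply List.Perm.append_left
  apply List.Perm.append_right
  apply List.Perm.map
  exact (List.reverse_perm _).trans (hperm.trans (List.reverse_perm _).symm)

/-- The failure of the digit relation from a certified step. -/
theorem nrel_cert {B : Base} (hB : B.Valid) {c : Cert} (hc : stepChk B c = true)
    {es1 es2 : List ℕ} (h1 : epsChk B c.D es1 = true) (hlen : es1.length = c.W)
    (d : ℕ) (hcount : (es1.map fun e => B.b - 1 - e).count d ≠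
      (c.es.map fun e => B.b - 1 - e).count d)
    (h2 : epsChk B c.D' es2 = true) {k n : ℕ}
    (hn : B.N0 ≤ n) (hr : n % c.Q = c.r % c.Q) (hst : StW B.b k n c.L c.D) :
    ¬ DigitRel B.b k := by
  obtain ⟨x, y, hx, hy, dx, dy⟩ := forms_cert hB hc h1 hlen h2 hn hr hst
  rw [rel_iff hx hy, dx, dy]
  intro h
  apply hcount
  have h3 := h.count_eq d
  rw [List.count_append, List.count_append, List.count_append, List.count_append] at h3
  have h4 : ∀ es : List ℕ, (es.reverse.map fun e => B.b - 1 - e).count d =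
      (es.map fun e => B.b - 1 - e).count d := by
    intro es
    exact ((List.reverse_perm es).map _).count_eq d
  rw [h4, h4] at h3
  omega

/-- state reached -/
def Reach (B : Base) (k : ℕ) (st : ℕ × ℕ × ℕ × ℕ) : Prop :=
  ∃ n, B.N0 ≤ n ∧ n % st.2.2.2 = st.2.2.1 % st.2.2.2 ∧ StW B.b k n st.1 st.2.1

def Cert.src (c : Cert) : ℕ × ℕ × ℕ × ℕ := (c.L, c.D, c.r, c.Q)

def Cert.tgt (c : Cert) : ℕ × ℕ × ℕ × ℕ := (c.a, c.D', c.r', c.Q')

theorem reach_step {B : Base} (hB : B.Valid) {c : Cert} (hc : stepChk B c = true) {k : ℕ}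
    (h : Reach B k c.src) : Reach B (k + 1) c.tgt := by
  obtain ⟨n, h1, h2, h3⟩ := h
  obtain ⟨n', ys, h4, h5, h6, _, _⟩ := step_cert hB hc h1 h2 h3
  exact ⟨n', h4, h5, h6.toW⟩

/-- a chain of certificates -/
def chainChk (B : Base) : List Cert → ℕ × ℕ × ℕ × ℕ → ℕ × ℕ × ℕ × ℕ → Bool
  | [], st, en => st == en
  | c :: cs, st, en => (c.src == st) && stepChk B c && chainChk B cs c.tgt en

theorem chain_reach {B : Base} (hB : B.Valid) : ∀ (cs : List Cert) (st en : ℕ × ℕ × ℕ × ℕ) (k : ℕ),
    chainChk B cs st en = true → Reach B k st → Reach B (k + cs.length) en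
  | [], st, en, k, h, hr => by
    unfold chainChk at h
    rw [beq_iff_eq] at h
    subst h
    exact hr
  | c :: cs, st, en, k, h, hr => by
    unfold chainChk at h
    simp only [Bool.and_eq_true, beq_iff_eq] at h
    obtain ⟨⟨h1, h2⟩, h3⟩ := h
    subst h1
    have h4 := chain_reach hB cs c.tgt en (k + 1) h3 (reach_step hB h2 hr)
    have h5 : k + (c :: cs).length = k + 1 + cs.length := by
      rw [List.length_cons]; omega
    rw [h5]
    exact h4

/-- a chain of certificates together with least elements -/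
def relChk (B : Base) : List (Cert × List ℕ × List ℕ) → ℕ × ℕ × ℕ × ℕ → ℕ × ℕ × ℕ × ℕ → Bool
  | [], st, en => st == en
  | (c, e1, e2) :: cs, st, en => (c.src == st) && stepChk B c && epsChk B c.D e1 &&
      (e1.length == c.W) && e1.isPerm c.es && epsChk B c.D' e2 && relChk B cs c.tgt en

theorem rel_chain {B : Base} (hB : B.Valid) : ∀ (cs : List (Cert × List ℕ × List ℕ))
    (st en : ℕ × ℕ × ℕ × ℕ) (k : ℕ), relChk B cs st en = true → Reach B k st →
    (∀ i < cs.length, DigitRel B.b (k + i)) ∧ Reach B (k + cs.length) en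
  | [], st, en, k, h, hr => by
    unfold relChk at h
    rw [beq_iff_eq] at h
    subst h
    exact ⟨fun i hi => absurd hi (by simp), hr⟩
  | (c, e1, e2) :: cs, st, en, k, h, hr => by
    unfold relChk at h
    simp only [Bool.and_eq_true, beq_iff_eq] at h
    obtain ⟨⟨⟨⟨⟨⟨h1, h2⟩, h3⟩, h4⟩, h5⟩, h6⟩, h7⟩ := h
    subst h1
    have hrel : DigitRel B.b k := by
      obtain ⟨n, g1, g2, g3⟩ := hr
      exact rel_cert hB h2 h3 h4 (List.isPerm_iff.1 h5) h6 g1 g2 g3
    obtain ⟨h8, h9⟩ := rel_chain hB cs c.tgt en (k + 1) h7 (reach_step hB h2 hr)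
    constructor
    · intro i hi
      cases i with
      | zero => exact hrel
      | succ i =>
        have h10 := h8 i (by rw [List.length_cons] at hi; omega)
        have h11 : k + (i + 1) = k + 1 + i := by omega
        rw [h11]
        exact h10
    · have h5 : k + ((c, e1, e2) :: cs).length = k + 1 + cs.length := by
        rw [List.length_cons]; omega
      rw [h5]
      exact h9

/-- a cycle of certificates gives the relation for ever -/
theorem rel_forever {B : Base} (hB : B.Valid) {cs : List (Cert × List ℕ × List ℕ)}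
    {st : ℕ × ℕ × ℕ × ℕ} {k0 : ℕ} (h : relChk B cs st st = true) (hlen : 0 < cs.length)
    (hr : Reach B k0 st) : ∀ k, k0 ≤ k → DigitRel B.b k := by
  have h1 : ∀ t, Reach B (k0 + t * cs.length) st := by
    intro t
    induction t with
    | zero => simpa using hr
    | succ t ih =>
      have h2 := (rel_chain hB cs st st _ h ih).2
      have h3 : k0 + (t + 1) * cs.length = k0 + t * cs.length + cs.length := by ring
      rw [h3]
      exact h2
  intro k hk
  obtain ⟨j, rfl⟩ := Nat.exists_eq_add_of_le hk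
  have h2 := (rel_chain hB cs st st _ h (h1 (j / cs.length))).1 (j % cs.length)
    (Nat.mod_lt _ hlen)
  have h3 : k0 + j / cs.length * cs.length + j % cs.length = k0 + j := by
    have := Nat.div_add_mod j cs.length
    rw [Nat.mul_comm] at this
    omega
  rw [h3] at h2
  exact h2

end Pool.Agent.Lib.MP_4f9744_nt
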