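import Pool.Agent.Lib.MP_4f9744_nt.Rel

/-!
# MP_4f9744_nt : computing heights of small numbers.
-/

namespace Pool.Agent.Lib.MP_4f9744_nt

/-- the elated function with fuel and accumulator -/
def Ea (b : ℕ) : ℕ → ℕ → ℕ → ℕ
  | 0, x, acc => x * (acc + x ^ 2)
  | f + 1, x, acc => if x < b then x * (acc + x ^ 2) else Ea b f (x / b) (acc + (x % b) ^ 2)

theorem small_digit {b x : ℕ} (hx : 0 < x) (hxb : x < b) : lead b x = x ∧ sumSq b x = x ^ 2 := by
  have hd : Nat.digits b x = [x] := Nat.digits_of_lt b x (by omega) hxb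
  simp [lead, sumSq, hd]

theorem Ea_spec {b : ℕ} (hb : 2 ≤ b) : ∀ (f x acc : ℕ), 0 < x → x < b ^ (f + 1) →
    Ea b f x acc = lead b x * (acc + sumSq b x)
  | 0, x, acc, hx, hlt => by
    obtain ⟨h1, h2⟩ := small_digit hx (by simpa using hlt : x < b)
    rw [h1, h2]
    rfl
  | f + 1, x, acc, hx, hlt => by
    unfold Ea
    by_cases hxb : x < b
    · obtain ⟨h1, h2⟩ := small_digit hx hxb
      rw [if_pos hxb, h1, h2]
    · rw [if_neg hxb]
      have hb0 : 0 < b := by omega
      have h1 : 0 < x / b := Nat.div_pos (by omega) hb0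
      have h2 : x / b < b ^ (f + 1) := by
        rw [Nat.div_lt_iff_lt_mul hb0]
        rwa [pow_succ] at hlt
      rw [Ea_spec hb f (x / b) _ h1 h2]
      have hd : Nat.digits b x = (x % b) :: Nat.digits b (x / b) :=
        Nat.digits_def' (by omega) hx
      have hne : Nat.digits b (x / b) ≠ [] := by
        rw [Nat.digits_ne_nil_iff_ne_zero]
        omega
      have h3 : lead b x = lead b (x / b) := by
        unfold lead
        rw [hd]
        cases hc : Nat.digits b (x / b) with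
        | nil => exact absurd hc hne
        | cons d ds => simp
      have h4 : sumSq b x = (x % b) ^ 2 + sumSq b (x / b) := by
        unfold sumSq
        rw [hd, List.map_cons, List.sum_cons]
      rw [h3, h4]
      ring

/-- height test -/
def htb (b f : ℕ) : ℕ → ℕ → Bool
  | 0, x => x == 1
  | k + 1, x => (x != 1) && htb b f k (Ea b f x 0)

theorem sqd_le {b : ℕ} (hb : 2 ≤ b) : ∀ n r, sqd b n r ≤ n * (b - 1) ^ 2
  | 0, r => by simp [sqd]
  | n + 1, r => by
    show (r % b) ^ 2 + sqd b n (r / b) ≤ _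
    have h1 := sqd_le hb n (r / b)
    have h2 : r % b ≤ b - 1 := by
      have := Nat.mod_lt r (show 0 < b by omega)
      omega
    have h3 : (r % b) ^ 2 ≤ (b - 1) ^ 2 := Nat.pow_le_pow_left h2 2
    rw [Nat.add_mul, Nat.one_mul]
    omega

theorem elat_lt {b f x : ℕ} (hb : 2 ≤ b) (hf : (b - 1) * ((f + 1) * (b - 1) ^ 2) < b ^ (f + 1))
    (hx : 0 < x) (hlt : x < b ^ (f + 1)) : elat b x < b ^ (f + 1) := by
  obtain ⟨n, L, r, h1, h2, h3, h4⟩ := exists_lead hb hx
  have hn : n ≤ f := by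
    by_contra hcon
    have h5 : b ^ (f + 1) ≤ b ^ n := Nat.pow_le_pow_right (by omega) (by omega)
    have h6 : 1 * b ^ n ≤ L * b ^ n := Nat.mul_le_mul_right _ h1
    omega
  rw [h4, elat_eq hb h1 h2 n r h3]
  refine lt_of_le_of_lt ?_ hf
  apply Nat.mul_le_mul (by omega)
  have h5 := sqd_le hb n r
  have h6 : L ^ 2 ≤ (b - 1) ^ 2 := Nat.pow_le_pow_left (by omega) 2
  have h7 : n * (b - 1) ^ 2 ≤ f * (b - 1) ^ 2 := Nat.mul_le_mul_right _ hn
  rw [Nat.add_mul, Nat.one_mul]
  omega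

theorem htb_spec {b f : ℕ} (hb : 2 ≤ b)
    (hf : (b - 1) * ((f + 1) * (b - 1) ^ 2) < b ^ (f + 1)) : ∀ (k x : ℕ), 0 < x →
    x < b ^ (f + 1) → (htb b f k x = true ↔ HasHeight b k x)
  | 0, x, hx, hlt => by
    unfold htb HasHeight
    simp [hx]
  | k + 1, x, hx, hlt => by
    rw [height_succ' hb]
    have h1 : Ea b f x 0 = elat b x := by
      rw [Ea_spec hb f x 0 hx hlt, Nat.zero_add]
      rfl
    show ((x != 1) && htb b f k (Ea b f x 0)) = true ↔ _
    rw [h1, Bool.and_eq_true, bne_iff_ne,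
      htb_spec hb hf k (elat b x) (elat_pos hb hx) (elat_lt hb hf hx hlt)]
    constructor
    · rintro ⟨h2, h3⟩
      exact ⟨hx, h2, h3⟩
    · rintro ⟨_, h2, h3⟩
      exact ⟨h2, h3⟩

end Pool.Agent.Lib.MP_4f9744_nt
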