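import Pool.Agent.Lib.MP_4f9744_nt.Basic

/-!
# MP_4f9744_nt : the step from one height to the next.
-/

namespace Pool.Agent.Lib.MP_4f9744_nt

/-- Strong description of the smallest numbers of height `k`: those with at most `n + 2` digits
have leading digit `L` and cost `D` (resp. `D + (b-1)^2` when there are `n + 2` digits). -/
structure StS (b k n L D : ℕ) : Prop where
  mem : ∀ l, l < b ^ n → wl b n l = D → HasHeight b k ((L + 1) * b ^ n - 1 - l)
  out : ∀ x, HasHeight b k x → x < b ^ (n + 2) →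
    (∃ l, l < b ^ n ∧ x + 1 + l = (L + 1) * b ^ n ∧ wl b n l = D) ∨
    (∃ l, l < b ^ (n + 1) ∧ x + 1 + l = (L + 1) * b ^ (n + 1) ∧
      wl b (n + 1) l = D + (b - 1) ^ 2)

/-- Weak description: those with `n + 2` digits are only bounded below. -/
structure StW (b k n L D : ℕ) : Prop where
  mem : ∀ l, l < b ^ n → wl b n l = D → HasHeight b k ((L + 1) * b ^ n - 1 - l)
  out : ∀ x, HasHeight b k x → x < b ^ (n + 2) →
    (∃ l, l < b ^ n ∧ x + 1 + l = (L + 1) * b ^ n ∧ wl b n l = D) ∨ L * b ^ (n + 1) ≤ x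

theorem StS.toW {b k n L D : ℕ} (h : StS b k n L D) : StW b k n L D := by
  refine ⟨h.mem, fun x hx hlt => ?_⟩
  rcases h.out x hx hlt with h1 | ⟨l, h1, h2, _⟩
  · exact Or.inl h1
  · right
    rw [Nat.add_mul, Nat.one_mul] at h2
    omega

/-- the element with complement `l`, written with its leading digit -/
theorem elat_compl {b : ℕ} (hb : 2 ≤ b) {L : ℕ} (hL : 0 < L) (hLb : L < b) (n l : ℕ)
    (hl : l < b ^ n) :
    elat b ((L + 1) * b ^ n - 1 - l) = L * (L ^ 2 + sqd b n (b ^ n - 1 - l)) := by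
  have h1 : (L + 1) * b ^ n - 1 - l = L * b ^ n + (b ^ n - 1 - l) := by
    rw [Nat.add_mul, Nat.one_mul]
    omega
  rw [h1]
  exact elat_eq hb hL hLb n _ (by omega)

theorem elat_of_cost {b : ℕ} (hb : 2 ≤ b) {L : ℕ} (hL : 0 < L) (hLb : L < b) {n l D y : ℕ}
    (hl : l < b ^ n) (hD : wl b n l = D) (hy : y + D = n * (b - 1) ^ 2 + L ^ 2) :
    elat b ((L + 1) * b ^ n - 1 - l) = L * y := by
  rw [elat_compl hb hL hLb n l hl]
  have := sqd_compl hb n l hl
  congr 1
  omega

theorem step {b k n' a D' ys : ℕ} (A : ℕ → Prop) (hb : 2 ≤ b) (ha : 0 < a) (hab : a < b)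
    (hA : ∀ x, HasHeight b (k + 1) x → A (lead b x))
    (hy : HasHeight b k ys) (hdvd : a ∣ ys)
    (hmin : ∀ y a', HasHeight b k y → A a' → 0 < a' → a' < b → a' ∣ y →
      y ≤ a' * (ys / a + D' + 2 * (b - 1) ^ 2) → y = ys ∧ a' = a)
    (hn : ys / a + D' = n' * (b - 1) ^ 2 + a ^ 2) (hn1 : 1 ≤ n')
    (hD : ∀ j, 1 ≤ j → j * (b - 1) ^ 2 ≤ D' → ∀ m l, l < b ^ m →
      wl b m l ≠ D' - j * (b - 1) ^ 2) :
    StS b (k + 1) n' a D' := by
  have hb0 : 0 < b := by omega
  have hya : a * (ys / a) = ys := Nat.mul_div_cancel' hdvd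
  constructor
  · intro l hl hw
    have hE : elat b ((a + 1) * b ^ n' - 1 - l) = a * (ys / a) :=
      elat_of_cost hb ha hab hl hw hn
    rw [hya] at hE
    rw [height_succ' hb]
    have hbig : b ≤ (a + 1) * b ^ n' - 1 - l := by
      have h1 : b ^ 1 ≤ b ^ n' := Nat.pow_le_pow_right hb0 hn1
      rw [pow_one] at h1
      have h2 : 1 * b ^ n' ≤ a * b ^ n' := Nat.mul_le_mul_right _ ha
      rw [Nat.add_mul]
      omega
    refine ⟨by omega, by omega, ?_⟩
    rw [hE]
    exact hy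
  · intro x hx hlt
    have hx' := (height_succ' hb).1 hx
    obtain ⟨m, a', r, h1, h2, h3, h4⟩ := exists_lead hb hx'.1
    have hm : m ≤ n' + 1 := by
      by_contra hcon
      have h5 : b ^ (n' + 2) ≤ b ^ m := Nat.pow_le_pow_right hb0 (by omega)
      have h6 : 1 * b ^ m ≤ a' * b ^ m := Nat.mul_le_mul_right _ h1
      omega
    have hE : elat b x = a' * (a' ^ 2 + sqd b m r) := by
      rw [h4]; exact elat_eq hb h1 h2 m r h3
    have hlead : lead b x = a' := by
      rw [h4]; exact (digits_lead hb h1 h2 m r h3).1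
    set l := b ^ m - 1 - r with hl
    have hlm : l < b ^ m := by
      have : 0 < b ^ m := Nat.pow_pos hb0
      omega
    have hrl : r = b ^ m - 1 - l := by omega
    have hsq : sqd b m r + wl b m l = m * (b - 1) ^ 2 := by
      rw [hrl]; exact sqd_compl hb m l hlm
    have hxl : x + 1 + l = (a' + 1) * b ^ m := by
      rw [Nat.add_mul, Nat.one_mul]
      omega
    have hAa : A a' := by
      rw [← hlead]; exact hA x hx
    have hmu : m * (b - 1) ^ 2 ≤ (n' + 1) * (b - 1) ^ 2 := Nat.mul_le_mul_right _ hm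
    have ha2 : a' ^ 2 ≤ (b - 1) ^ 2 := Nat.pow_le_pow_left (by omega) 2
    have hle : elat b x ≤ a' * (ys / a + D' + 2 * (b - 1) ^ 2) := by
      rw [hE]
      apply Nat.mul_le_mul_left
      rw [hn]
      rw [Nat.add_mul, Nat.one_mul] at hmu
      omega
    obtain ⟨h7, h8⟩ := hmin (elat b x) a' hx'.2.2 hAa h1 h2 (by rw [hE]; exact dvd_mul_right _ _) hle
    subst h8
    have h9 : a' ^ 2 + sqd b m r = ys / a' := by
      rw [hE] at h7
      rw [← h7, Nat.mul_div_cancel_left _ h1]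
    have h10 : sqd b m r + D' = n' * (b - 1) ^ 2 := by omega
    rcases Nat.lt_trichotomy m n' with hlt' | heq | hgt
    · exfalso
      obtain ⟨j, hj⟩ := Nat.exists_eq_add_of_lt hlt'
      have h11 : n' * (b - 1) ^ 2 = m * (b - 1) ^ 2 + (j + 1) * (b - 1) ^ 2 := by
        rw [hj]; ring
      refine hD (j + 1) (by omega) (by omega) m l hlm (by omega)
    · left
      subst heq
      exact ⟨l, hlm, hxl, by omega⟩
    · right
      have hm' : m = n' + 1 := by omega
      subst hm'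
      refine ⟨l, hlm, hxl, ?_⟩
      rw [Nat.add_mul, Nat.one_mul] at hsq
      omega

end Pool.Agent.Lib.MP_4f9744_nt
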