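import Pool.Agent.Lib.MP_4f9744_nt.Step

/-!
# MP_4f9744_nt : residue tables and the lexicographic check.
-/

namespace Pool.Agent.Lib.MP_4f9744_nt

/-- table lookup: bit `R * g + x` of `big` -/
def Tb (g big R x : ℕ) : Bool := Nat.testBit big (R * g + x)

/-- the table is closed under putting a new lowest digit -/
def tabOK (b g Dm big : ℕ) : Bool :=
  Tb g big 0 0 &&
  (List.range (Dm + 1)).all fun R => (List.range b).all fun e =>
    Nat.blt Dm (R + wd b e) || (List.range g).all fun x =>
      !(Tb g big R x) || Tb g big (R + wd b e) ((b * x + e) % g)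

theorem tab_sound {b g Dm big : ℕ} (hb : 2 ≤ b) (hg : 0 < g) (h : tabOK b g Dm big = true) :
    ∀ n l, l < b ^ n → wl b n l ≤ Dm → Tb g big (wl b n l) (l % g) = true := by
  unfold tabOK at h
  rw [Bool.and_eq_true] at h
  obtain ⟨h0, h1⟩ := h
  intro n
  induction n with
  | zero =>
    intro l hl _
    have : l = 0 := by simpa using hl
    subst this
    simpa [wl] using h0
  | succ n ih =>
    intro l hl hw
    have hb0 : 0 < b := by omega
    have hlb : l / b < b ^ n := by
      rw [Nat.div_lt_iff_lt_mul hb0]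
      rwa [pow_succ] at hl
    have hwe : wl b (n + 1) l = wd b (l % b) + wl b n (l / b) := rfl
    rw [hwe] at hw ⊢
    have h2 := ih (l / b) hlb (by omega)
    rw [List.all_eq_true] at h1
    have h3 := h1 (wl b n (l / b)) (by rw [List.mem_range]; omega)
    rw [List.all_eq_true] at h3
    have h4 := h3 (l % b) (by rw [List.mem_range]; exact Nat.mod_lt _ hb0)
    rw [Bool.or_eq_true] at h4
    rcases h4 with h4 | h4
    · exfalso
      rw [Nat.blt_eq] at h4
      omega
    · rw [List.all_eq_true] at h4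
      have h5 := h4 (l / b % g) (by rw [List.mem_range]; exact Nat.mod_lt _ hg)
      rw [Bool.or_eq_true] at h5
      rcases h5 with h5 | h5
      · exfalso
        rw [h2] at h5
        simp at h5
      · have h6 : (b * (l / b % g) + l % b) % g = l % g := by
          conv_rhs => rw [← Nat.div_add_mod l b]
          rw [Nat.add_mod, Nat.mul_mod, Nat.mod_mod, ← Nat.mul_mod, ← Nat.add_mod]
        rw [h6] at h5
        rw [Nat.add_comm]
        exact h5

/-- big-endian value -/
def bv (b : ℕ) : List ℕ → ℕ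
  | [] => 0
  | e :: es => e * b ^ es.length + bv b es

/-- total cost -/
def wc (b : ℕ) : List ℕ → ℕ
  | [] => 0
  | e :: es => wd b e + wc b es

/-- no larger string is possible -/
def chk (b g big : ℕ) : List ℕ → ℕ → ℕ → ℕ → Bool
  | [], _, _, _ => true
  | e :: es, s, R, rho =>
    ((List.range b).all fun d => Nat.ble d e || Nat.blt R (wd b d) ||
      !(Tb g big (R - wd b d) ((rho + (g - 1) * (d * (b ^ (s - 1) % g))) % g))) &&
    chk b g big es (s - 1) (R - wd b e) ((rho + (g - 1) * (e * (b ^ (s - 1) % g))) % g)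

theorem res_step {g b n1 s1 l l1 d rho : ℕ} (hg : 0 < g) (hl : l = d * b ^ n1 + l1)
    (hs : b ^ n1 % g = b ^ s1 % g) (hr : l % g = rho % g) :
    l1 % g = (rho + (g - 1) * (d * (b ^ s1 % g))) % g := by
  have e1 : rho + (g - 1) * (d * (b ^ s1 % g)) ≡ l + (g - 1) * (d * b ^ n1) [MOD g] := by
    apply Nat.ModEq.add
    · exact hr.symm
    · apply Nat.ModEq.mul_left
      apply Nat.ModEq.mul_left
      exact (Nat.mod_modEq _ _).trans hs.symm
  have e2 : l + (g - 1) * (d * b ^ n1) = l1 + g * (d * b ^ n1) := by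
    obtain ⟨t, ht⟩ := Nat.exists_eq_succ_of_ne_zero (Nat.pos_iff_ne_zero.1 hg)
    subst ht
    rw [hl]
    simp only [Nat.succ_eq_add_one, Nat.add_sub_cancel]
    ring
  rw [e2] at e1
  have e3 : l1 + g * (d * b ^ n1) ≡ l1 [MOD g] := by
    unfold Nat.ModEq
    rw [Nat.add_mul_mod_self_left]
  exact (e1.trans e3).symm

theorem wl_one {b d : ℕ} (hd : d < b) : wl b 1 d = wd b d := by
  show wd b (d % b) + wl b 0 (d / b) = wd b d
  rw [Nat.mod_eq_of_lt hd]
  rfl

theorem top_split {b n1 l : ℕ} (hb : 2 ≤ b) (hl : l < b ^ (n1 + 1)) :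
    l / b ^ n1 < b ∧ l % b ^ n1 < b ^ n1 ∧ l = l / b ^ n1 * b ^ n1 + l % b ^ n1 ∧
      wl b (n1 + 1) l = wl b n1 (l % b ^ n1) + wd b (l / b ^ n1) := by
  have hp : 0 < b ^ n1 := Nat.pow_pos (by omega)
  have h1 : l / b ^ n1 < b := by
    rw [Nat.div_lt_iff_lt_mul hp]
    rwa [pow_succ, Nat.mul_comm] at hl
  refine ⟨h1, Nat.mod_lt _ hp, ?_, ?_⟩
  · have := Nat.div_add_mod l (b ^ n1)
    rw [Nat.mul_comm] at this
    exact this.symm
  · rw [wl_split hb n1 1, wl_one h1]

theorem chk_sound {b g Dm big : ℕ} (hb : 2 ≤ b) (hg : 0 < g)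
    (hT : ∀ n l, l < b ^ n → wl b n l ≤ Dm → Tb g big (wl b n l) (l % g) = true) :
    ∀ (es : List ℕ) (s n R rho l : ℕ), chk b g big es s R rho = true → es.length ≤ n →
      (∀ j, 1 ≤ j → j ≤ es.length → b ^ (n - j) % g = b ^ (s - j) % g) →
      l < b ^ n → wl b n l = R → R ≤ Dm → l % g = rho % g →
      l < bv b es * b ^ (n - es.length) ∨
        ∃ l', l' < b ^ (n - es.length) ∧ l = bv b es * b ^ (n - es.length) + l' ∧
          wl b (n - es.length) l' + wc b es = R
  | [], s, n, R, rho, l, _, _, _, hl, hw, _, _ => by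
    right
    refine ⟨l, by simpa using hl, by simp [bv], by simpa [wc] using hw⟩
  | e :: es, s, n, R, rho, l, hc, hlen, hs, hl, hw, hR, hr => by
    unfold chk at hc
    rw [Bool.and_eq_true] at hc
    obtain ⟨hc1, hc2⟩ := hc
    rw [List.length_cons] at hlen
    obtain ⟨n1, rfl⟩ : ∃ n1, n = n1 + 1 := ⟨n - 1, by omega⟩
    obtain ⟨hd, hl1, hle, hwe⟩ := top_split hb hl
    set d := l / b ^ n1 with hdd
    set l1 := l % b ^ n1 with hll
    have hpow : b ^ (n1 - es.length) * b ^ es.length = b ^ n1 := by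
      rw [← pow_add]
      congr 1
      omega
    have hlenc : n1 + 1 - (e :: es).length = n1 - es.length := by
      rw [List.length_cons]; omega
    rw [hlenc]
    have hbv : bv b (e :: es) * b ^ (n1 - es.length) =
        e * b ^ n1 + bv b es * b ^ (n1 - es.length) := by
      show (e * b ^ es.length + bv b es) * _ = _
      rw [← hpow]
      ring
    have hs1 : b ^ n1 % g = b ^ (s - 1) % g := by
      have := hs 1 le_rfl (by simp)
      simpa using this
    have hres : l1 % g = (rho + (g - 1) * (d * (b ^ (s - 1) % g))) % g :=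
      res_step hg hle hs1 hr
    rcases Nat.lt_trichotomy d e with hlt | heq | hgt
    · left
      rw [hbv]
      have h1 : (d + 1) * b ^ n1 ≤ e * b ^ n1 := Nat.mul_le_mul_right _ hlt
      rw [Nat.add_mul, Nat.one_mul] at h1
      omega
    · have ih := chk_sound hb hg hT es (s - 1) n1 (R - wd b e)
        ((rho + (g - 1) * (e * (b ^ (s - 1) % g))) % g) l1 hc2 (by omega)
        (fun j hj1 hj2 => by
          have h1 := hs (j + 1) (by omega) (by rw [List.length_cons]; omega)
          have h2 : n1 + 1 - (j + 1) = n1 - j := by omega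
          have h3 : s - (j + 1) = s - 1 - j := by omega
          rw [h2, h3] at h1
          exact h1) hl1 (by rw [← heq]; omega) (by omega)
        (by rw [Nat.mod_mod, hres, heq])
      rcases ih with ih | ⟨l', h1, h2, h3⟩
      · left
        rw [hbv, hle, heq]
        omega
      · right
        refine ⟨l', h1, ?_, ?_⟩
        · rw [hbv, hle, heq]
          omega
        · show _ + (wd b e + wc b es) = R
          rw [← heq] at h3 ⊢
          omega
    · exfalso
      rw [List.all_eq_true] at hc1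
      have h1 := hc1 d (by rw [List.mem_range]; exact hd)
      rw [Bool.or_eq_true, Bool.or_eq_true] at h1
      rcases h1 with (h1 | h1) | h1
      · rw [Nat.ble_eq] at h1
        omega
      · rw [Nat.blt_eq] at h1
        omega
      · have h2 := hT n1 l1 hl1 (by omega)
        have h3 : wl b n1 l1 = R - wd b d := by omega
        rw [h3, hres] at h2
        rw [h2] at h1
        simp at h1

/-- cost of the string `b-1, ..., b-1` -/
theorem wl_max {b : ℕ} (hb : 2 ≤ b) (c : ℕ) : wl b c (b ^ c - 1) = c * (b - 1) ^ 2 := by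
  have hp : 0 < b ^ c := Nat.pow_pos (by omega)
  have h1 := sqd_compl hb c (b ^ c - 1) (by omega)
  have h2 : b ^ c - 1 - (b ^ c - 1) = 0 := by omega
  have h3 : ∀ c, sqd b c 0 = 0 := by
    intro c
    induction c with
    | zero => rfl
    | succ c ih =>
      show (0 % b) ^ 2 + sqd b c (0 / b) = 0
      rw [Nat.zero_mod, Nat.zero_div, ih]
      rfl
  rw [h2, h3] at h1
  omega

theorem wl_zero {b : ℕ} (hb : 2 ≤ b) : ∀ (m l : ℕ), l < b ^ m → wl b m l = 0 → l = 0
  | 0, l, hl, _ => by simpa using hl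
  | m + 1, l, hl, hw => by
    have hb0 : 0 < b := by omega
    have hlb : l / b < b ^ m := by
      rw [Nat.div_lt_iff_lt_mul hb0]
      rwa [pow_succ] at hl
    have h1 : wd b (l % b) + wl b m (l / b) = 0 := hw
    have h2 := wl_zero hb m (l / b) hlb (by omega)
    have h3 : wd b (l % b) = 0 := by omega
    unfold wd at h3
    have h4 : l % b < b := Nat.mod_lt _ hb0
    have h5 : l % b = 0 := by
      rcases Nat.mul_eq_zero.1 h3 with h | h
      · exact h
      · omega
    have := Nat.div_add_mod l b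
    rw [h2, h5] at this
    omega

/-- gap: a string just below `h * b ^ m` is expensive -/
theorem gap {b : ℕ} (hb : 2 ≤ b) {m t c h l : ℕ} (hc : c ≤ m) (hlt : l < h * b ^ m)
    (hl2 : h * b ^ m < l + b ^ (m - c)) : c * (b - 1) ^ 2 ≤ wl b (m + t) l := by
  have hb0 : 0 < b := by omega
  have hp : 0 < b ^ m := Nat.pow_pos hb0
  have hpc : b ^ (m - c) ≤ b ^ m := Nat.pow_le_pow_right hb0 (by omega)
  obtain ⟨h', rfl⟩ : ∃ h', h = h' + 1 := by
    cases h with
    | zero => simp at hlt
    | succ h => exact ⟨h, rfl⟩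
  rw [Nat.add_mul, Nat.one_mul] at hlt hl2
  have hl3 : h' * b ^ m ≤ l := by omega
  obtain ⟨l2, rfl⟩ := Nat.exists_eq_add_of_le hl3
  have hl4 : l2 < b ^ m := by omega
  rw [wl_split' hb m t h' l2 hl4]
  have hsplit : m = (m - c) + c := by omega
  have h1 : wl b m l2 = wl b (m - c) (l2 % b ^ (m - c)) + wl b c (l2 / b ^ (m - c)) := by
    conv_lhs => rw [hsplit]
    exact wl_split hb (m - c) c l2
  have hq : 0 < b ^ (m - c) := Nat.pow_pos hb0
  have hpow : b ^ m = b ^ c * b ^ (m - c) := by
    rw [← pow_add]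
    congr 1
    omega
  have hcp : 0 < b ^ c := Nat.pow_pos hb0
  have h2 : l2 / b ^ (m - c) = b ^ c - 1 := by
    have h3 : l2 / b ^ (m - c) < b ^ c := by
      rw [Nat.div_lt_iff_lt_mul hq, ← hpow]
      exact hl4
    have h4 : b ^ c - 1 ≤ l2 / b ^ (m - c) := by
      rw [Nat.le_div_iff_mul_le hq, Nat.sub_mul, Nat.one_mul, ← hpow]
      omega
    omega
  rw [h1, h2, wl_max hb c]
  omega

end Pool.Agent.Lib.MP_4f9744_nt
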